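import Pool.Agent.H671R2.OrdNP

/-!
# Polynomial time of the verifiers; membership in `NP`
-/

namespace Pool.Agent.H671R2.Ord

open Pool.Agent.NPC Pool.Agent.NPC.R671

theorem me_poly {α : Type} [TEnc α] {M : α → List (List Bool)} {a b : α → ℕ} (h1 : Poly M)
    (h2 : Poly a) (h3 : Poly b) : Poly (fun x => me (M x) (a x) (b x)) := by
  unfold me
  fun_prop

attribute [fun_prop] me_poly
attribute [local irreducible] me

theorem all2_poly {α : Type} [TEnc α] {m : α → ℕ} (hm : UPoly m) {F : α → ℕ → ℕ → Bool}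
    (hF : Poly (fun x : (α × ℕ) × ℕ => F x.1.1 x.1.2 x.2)) :
    Poly (fun a => (List.range (m a)).all (fun i => (List.range (m a)).all (fun j => F a i j))) := by
  refine NPC.Poly.all (l := fun a => List.range (m a))
    (p := fun a i => (List.range (m a)).all (fun j => F a i j)) hm.range ?_
  exact NPC.Poly.all (l := fun x : α × ℕ => List.range (m x.1))
    (p := fun x j => F x.1 x.2 j) (hm.range.comp (NPC.Poly.fst NPC.Poly.id)) hF

theorem wf_poly : Poly wf := by
  unfold wf
  refine NPC.Poly.and (by fun_prop) ?_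
  refine all2_poly (α := List (List Bool)) (m := fun M => M.length)
    (UPoly.length (by fun_prop)) (F := fun M i j =>
      decide (me M i j = me M j i) && !(decide (i = j) && me M i j)) ?_
  fun_prop

theorem pm_poly : Poly (fun x : List (List Bool) × List ℕ => pm x.1 x.2) := by
  unfold pm
  refine NPC.Poly.and (by fun_prop) ?_
  refine all2_poly (α := List (List Bool) × List ℕ) (m := fun x => x.2.length)
    (UPoly.length (by fun_prop)) (F := fun x i j =>
      decide (i = j) || !decide (x.2.getD i 0 = x.2.getD j 0)) ?_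
  fun_prop

theorem cb_poly : Poly (fun x : (List (List Bool) × List ℕ) × ℕ => cb x.1.1 x.1.2 x.2) := by
  unfold cb
  have h1 : UPoly (fun x : (List (List Bool) × List ℕ) × ℕ => x.1.2.length) :=
    UPoly.length (by fun_prop)
  refine NPC.Poly.length ?_
  exact NPC.Poly.filter (l := fun x : (List (List Bool) × List ℕ) × ℕ => List.range x.1.2.length)
    (p := fun x j => decide (j < x.2) && me x.1.1 (x.1.2.getD x.2 0) (x.1.2.getD j 0)) h1.range
    (by fun_prop)

theorem ca_poly : Poly (fun x : (List (List Bool) × List ℕ) × ℕ => ca x.1.1 x.1.2 x.2) := by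
  unfold ca
  have h1 : UPoly (fun x : (List (List Bool) × List ℕ) × ℕ => x.1.2.length) :=
    UPoly.length (by fun_prop)
  refine NPC.Poly.length ?_
  exact NPC.Poly.filter (l := fun x : (List (List Bool) × List ℕ) × ℕ => List.range x.1.2.length)
    (p := fun x j => decide (x.2 < j) && me x.1.1 (x.1.2.getD x.2 0) (x.1.2.getD j 0)) h1.range
    (by fun_prop)

theorem okA_poly {α : Type} [TEnc α] {c : α → ℕ} (h : Poly c) : Poly (fun x => okA (c x)) := by
  unfold okA
  have : Poly (fun x => c x % 2) := NPC.Poly.mod h (NPC.Poly.const 2)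
  fun_prop

theorem okB_poly {α : Type} [TEnc α] {c c' : α → ℕ} (h : Poly c) (h' : Poly c') :
    Poly (fun x => okB (c x) (c' x)) := by
  unfold okB
  have h1 : Poly (fun x => c x % 2) := NPC.Poly.mod h (NPC.Poly.const 2)
  have h2 := okA_poly h
  fun_prop

theorem RvA_poly : Poly RvA := by
  unfold RvA
  have h1 : UPoly (fun x : List (List Bool) × List ℕ => x.2.length) :=
    UPoly.length (by fun_prop)
  refine NPC.Poly.and (NPC.Poly.and (wf_poly.comp (by fun_prop)) pm_poly) ?_
  exact NPC.Poly.all (l := fun x : List (List Bool) × List ℕ => List.range x.2.length)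
    (p := fun x i => okA (cb x.1 x.2 i)) h1.range (okA_poly cb_poly)

theorem RvB_poly : Poly RvB := by
  unfold RvB
  have h1 : UPoly (fun x : List (List Bool) × List ℕ => x.2.length) :=
    UPoly.length (by fun_prop)
  refine NPC.Poly.and (NPC.Poly.and (wf_poly.comp (by fun_prop)) pm_poly) ?_
  exact NPC.Poly.all (l := fun x : List (List Bool) × List ℕ => List.range x.2.length)
    (p := fun x i => okB (cb x.1 x.2 i) (ca x.1 x.2 i)) h1.range (okB_poly cb_poly ca_poly)

/-- certificates are short -/
theorem cert_short {M : List (List Bool)} {w : List ℕ} (h : pm M w = true) :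
    sz w ≤ (4 * Polynomial.X ^ 2 + 2 * Polynomial.X + 1 : Polynomial ℕ).eval (sz M) := by
  simp only [pm, Bool.and_eq_true, decide_eq_true_eq, List.all_eq_true, List.mem_range] at h
  obtain ⟨⟨h4, hlt⟩, _⟩ := h
  have hsz : ∀ a ∈ w, sz a ≤ 4 * M.length + 1 := by
    intro a ha
    have h1 := sz_nat_le a
    have h2 := Poly.size_le_self a
    have h3 := hlt a ha
    omega
  have h5 := sz_le_length_mul w _ hsz
  have h1 : M.length ≤ sz M := (length_lt_sz M).le
  simp only [Polynomial.eval_add, Polynomial.eval_mul, Polynomial.eval_pow, Polynomial.eval_X,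
    Polynomial.eval_ofNat, Polynomial.eval_one]
  rw [h4] at h5
  nlinarith

theorem admitsA_iff (M : List (List Bool)) : AdmitsA M ↔ ∃ w : List ℕ, RvA (M, w) = true := by
  unfold AdmitsA
  simp only [RvA_iff]
  constructor
  · rintro ⟨n, G, h1, pos, h2⟩
    exact ⟨orderList pos, n, G, pos, h1, rfl, h2⟩
  · rintro ⟨w, n, G, pos, h1, _, h2⟩
    exact ⟨n, G, h1, pos, h2⟩

theorem admitsB_iff (M : List (List Bool)) : AdmitsB M ↔ ∃ w : List ℕ, RvB (M, w) = true := by
  unfold AdmitsB
  simp only [RvB_iff]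
  constructor
  · rintro ⟨n, G, h1, pos, h2⟩
    exact ⟨orderList pos, n, G, pos, h1, rfl, h2⟩
  · rintro ⟨w, n, G, pos, h1, _, h2⟩
    exact ⟨n, G, h1, pos, h2⟩

theorem shortA {M : List (List Bool)} {w : List ℕ} (h : RvA (M, w) = true) :
    sz w ≤ (4 * Polynomial.X ^ 2 + 2 * Polynomial.X + 1 : Polynomial ℕ).eval (sz M) := by
  simp only [RvA, Bool.and_eq_true] at h
  exact cert_short h.1.2

theorem shortB {M : List (List Bool)} {w : List ℕ} (h : RvB (M, w) = true) :
    sz w ≤ (4 * Polynomial.X ^ 2 + 2 * Polynomial.X + 1 : Polynomial ℕ).eval (sz M) := by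
  simp only [RvB, Bool.and_eq_true] at h
  exact cert_short h.1.2

theorem inNPP_A : InNPP AdmitsA := by
  refine inNPP_of (R := RvA) RvA_poly (4 * Polynomial.X ^ 2 + 2 * Polynomial.X + 1) ?_
  intro M
  rw [admitsA_iff]
  exact exists_congr fun w => ⟨fun h => ⟨shortA h, h⟩, fun h => h.2⟩

theorem inNPP_B : InNPP AdmitsB := by
  refine inNPP_of (R := RvB) RvB_poly (4 * Polynomial.X ^ 2 + 2 * Polynomial.X + 1) ?_
  intro M
  rw [admitsB_iff]
  exact exists_congr fun w => ⟨fun h => ⟨shortB h, h⟩, fun h => h.2⟩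

end Pool.Agent.H671R2.Ord
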