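import Pool.Agent.NPC.Sat2
import Pool.Agent.H671R2.PolyAuto

/-!
# Satisfiability with bounded variable numbers
-/

namespace Pool.Agent.NPC.R671

/-- bounded satisfiability: every clause has a satisfied literal whose variable is smaller than
the number of literals of the formula -/
def BSat (φ : List (List (Bool × ℕ))) : Prop :=
  ∃ σ : ℕ → Bool, ∀ c ∈ φ, ∃ l ∈ c, l.2 < φ.flatten.length ∧ σ l.2 = l.1

theorem flatten_toLists_length (φ : List (Lit ℕ × Lit ℕ × Lit ℕ)) :
    (toLists φ).flatten.length = 3 * φ.length := by
  induction φ with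
  | nil => rfl
  | cons c φ ih =>
    unfold toLists at *
    rw [List.map_cons, List.flatten_cons, List.length_append, ih]
    simp
    omega

/-- Bounded satisfiability is hard, for formulas with at least one clause. -/
theorem hardPr_BSat : HardPr (fun φ => φ ≠ [] ∧ 0 < φ.flatten.length) BSat := by
  refine hardPr_SAT3b.trans toLists_poly ?_ ?_
  · rintro φ ⟨_, _, h⟩
    refine ⟨?_, ?_⟩
    · unfold toLists
      simpa using h
    · rw [flatten_toLists_length]
      have : 0 < φ.length := List.length_pos_iff.2 h
      omega
  · rintro φ ⟨_, hb, _⟩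
    unfold SAT3 Sat3V BSat
    rw [flatten_toLists_length]
    refine exists_congr fun τ => ?_
    constructor
    · intro h c hc
      unfold toLists at hc
      rw [List.mem_map] at hc
      obtain ⟨d, hd, rfl⟩ := hc
      obtain ⟨b1, b2, b3⟩ := hb d hd
      rcases h d hd with h1 | h1 | h1
      · exact ⟨d.1, by simp, b1, h1⟩
      · exact ⟨d.2.1, by simp, b2, h1⟩
      · exact ⟨d.2.2, by simp, b3, h1⟩
    · intro h c hc
      obtain ⟨l, hl, _, h2⟩ := h [c.1, c.2.1, c.2.2] (by
        unfold toLists
        exact List.mem_map.2 ⟨c, hc, rfl⟩)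
      simp only [List.mem_cons, List.not_mem_nil, or_false] at hl
      rcases hl with rfl | rfl | rfl
      · exact Or.inl h2
      · exact Or.inr (Or.inl h2)
      · exact Or.inr (Or.inr h2)

theorem hardI_BSat : HardI BSat := hardPr_BSat.toHardI

end Pool.Agent.NPC.R671
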