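import Pool.Agent.H622R2.CoNP
import Pool.Agent.H671R2.PolyAuto

/-!
# Search problems

* `search_of_collapse`: if `P = NP` then every polynomially bounded search problem with a
  polynomial-time checkable relation is solvable in polynomial time.
* `polyTime_check`: from a polynomial-time solver of a search problem and a polynomial-time
  reduction, a polynomial-time decision procedure.
-/

namespace Pool.Agent.NPC.R671

open Pool.Agent.NPC Pool.Agent.H622R2

/-- The code of a datum, as a list of bits. -/
theorem poly_bits {α : Type} [TEnc α] : Poly (fun a : α => bits a) := by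
  obtain ⟨c, p, h⟩ := PC.rawIn
  exact ⟨c, p, fun a => h (bits a)⟩

/-- one step of the search for a certificate -/
def sstep {α : Type} (d : α × List Bool → Bool) (a : α) (u : List Bool) : List Bool :=
  if d (a, u ++ [true]) = true then u ++ [true] else
    if d (a, u ++ [false]) = true then u ++ [false] else u

theorem sstep_length {α : Type} (d : α × List Bool → Bool) (a : α) (k : ℕ) :
    ((sstep d a)^[k] []).length ≤ k := by
  induction k with
  | zero => simp
  | succ k ih =>
    rw [Function.iterate_succ_apply']
    generalize (sstep d a)^[k] [] = u at ih ⊢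
    unfold sstep
    split_ifs
    · simpa using ih
    · simpa using ih
    · omega

/-- **From decision to search.**  If `P = NP`, then there is a polynomial-time algorithm which
finds, for every `a` such that `R (a, b) = true` for some `b`, such a `b`; here `R` is polynomial-time
computable and `b` is polynomially bounded in `a`. -/
theorem search_of_collapse {α β : Type} [TEnc α] [TDec α] [TEnc β] [TDec β] {R : α × β → Bool}
    (hR : Poly R) (p : Polynomial ℕ) (hp : ∀ a b, R (a, b) = true → sz b ≤ p.eval (sz a))
    (h : ∀ L : Set (List Bool), InNP L → InP L) :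
    ∃ A : List Bool → List Bool, PolyTime A ∧ ∀ a : α, (∃ b, R (a, b) = true) →
      ∃ b, R (a, b) = true ∧ A (bits a) = bits b := by
  -- the test of complete certificates
  let T : α × List Bool → Bool := fun x => (unbits β x.2).any (fun b => R (x.1, b))
  have hT : Poly T := NPC.Poly.optAny_fp (o := fun x : α × List Bool => unbits β x.2)
    (h := fun x b => R (x.1, b)) (poly_unbits.comp (NPC.Poly.snd NPC.Poly.id))
    (hR.comp (NPC.Poly.pair (NPC.Poly.fst (NPC.Poly.fst NPC.Poly.id))
      (NPC.Poly.snd NPC.Poly.id)))
  have hTlen : ∀ a w, T (a, w) = true → w.length ≤ p.eval (sz a) := by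
    intro a w hw
    simp only [T, Option.any_eq_true] at hw
    obtain ⟨b, hb, hb'⟩ := hw
    rw [← bits_of_unbits hb, bits_length]
    exact hp a b hb'
  -- extendability of partial certificates
  let E : α × List Bool → Prop := fun x => ∃ s : List Bool, T (x.1, x.2 ++ s) = true
  have hE : InNPP E := by
    refine inNPP_of (R := fun y : (α × List Bool) × List Bool => T (y.1.1, y.1.2 ++ y.2))
      (hT.comp (NPC.Poly.pair (NPC.Poly.fst (NPC.Poly.fst NPC.Poly.id))
        (NPC.Poly.append (NPC.Poly.snd (NPC.Poly.fst NPC.Poly.id)) (NPC.Poly.snd NPC.Poly.id))))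
      (Polynomial.C 4 * p + Polynomial.C 1) ?_
    rintro ⟨a, u⟩
    refine exists_congr fun s => ⟨fun hs => ⟨?_, hs⟩, fun hs => hs.2⟩
    have h1 := hTlen a (u ++ s) hs
    have h2 := sz_listBool_le s
    have h3 : p.eval (sz a) ≤ p.eval (sz (a, u)) := eval_mono p (by rw [sz_pair]; omega)
    rw [List.length_append] at h1
    simp only [Polynomial.eval_add, Polynomial.eval_mul, Polynomial.eval_C]
    omega
  have hE' : InPP E := h _ hE
  obtain ⟨V, hV, hV'⟩ := InPP.exists_test hE'
  let d : α × List Bool → Bool := fun x => decide (V (bits x) = [true])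
  have hd : Poly d := NPC.Poly.dec_eq ((poly_of_polyTime hV).comp poly_bits) (NPC.Poly.const _)
  have hdE : ∀ x, d x = true ↔ E x := by
    intro x
    rw [hV' x]
    simp [d]
  let l : α → List ℕ := fun a => List.range (p.eval (bits a).length)
  have hl : Poly l := ((UPoly.length poly_bits).eval p).range
  have hll : ∀ a, (l a).length = p.eval (sz a) := fun a => by
    simp only [l, List.length_range, bits_length]
  have hstep : Poly (fun x : α × List Bool => sstep d x.1 x.2) := by
    unfold sstep
    have e1 : Poly (fun x : α × List Bool => d (x.1, x.2 ++ [true])) :=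
      hd.comp (NPC.Poly.pair (NPC.Poly.fst NPC.Poly.id)
        (NPC.Poly.append (NPC.Poly.snd NPC.Poly.id) (NPC.Poly.const _)))
    have e2 : Poly (fun x : α × List Bool => d (x.1, x.2 ++ [false])) :=
      hd.comp (NPC.Poly.pair (NPC.Poly.fst NPC.Poly.id)
        (NPC.Poly.append (NPC.Poly.snd NPC.Poly.id) (NPC.Poly.const _)))
    fun_prop
  have hG : Poly (fun a => (sstep d a)^[(l a).length] []) := by
    refine NPC.Poly.iterLen hl (NPC.Poly.const []) hstep (Polynomial.C 4 * p + Polynomial.C 1) ?_
    intro a k hk
    rw [hll] at hk
    have h1 := sstep_length d a k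
    have h2 := sz_listBool_le ((sstep d a)^[k] [])
    simp only [Polynomial.eval_add, Polynomial.eval_mul, Polynomial.eval_C]
    omega
  refine ⟨fun x => ((unbits α x).map (fun a => (sstep d a)^[(l a).length] [])).getD [],
    polyTime_of_poly_list (NPC.Poly.optGetD (NPC.Poly.optMap_fp
      (h := fun _ a => (sstep d a)^[(l a).length] []) poly_unbits
        (hG.comp (NPC.Poly.snd NPC.Poly.id))) (NPC.Poly.const [])), fun a ha => ?_⟩
  -- the invariant
  have inv : ∀ k, E (a, (sstep d a)^[k] []) ∧ (((sstep d a)^[k] []).length = k ∨
      (¬ E (a, (sstep d a)^[k] [] ++ [true]) ∧ ¬ E (a, (sstep d a)^[k] [] ++ [false]))) := by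
    intro k
    induction k with
    | zero =>
      refine ⟨?_, Or.inl rfl⟩
      obtain ⟨b, hb⟩ := ha
      refine ⟨bits b, ?_⟩
      simp only [T, Function.iterate_zero, id_eq, List.nil_append, unbits_bits, Option.any_some]
      exact hb
    | succ k ih =>
      obtain ⟨ih1, ih2⟩ := ih
      rw [Function.iterate_succ_apply']
      generalize (sstep d a)^[k] [] = u at ih1 ih2 ⊢
      unfold sstep
      by_cases c1 : E (a, u ++ [true])
      · rw [if_pos ((hdE _).2 c1)]
        refine ⟨c1, ?_⟩
        rcases ih2 with h2 | h2
        · left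
          simp [h2]
        · exact absurd c1 h2.1
      · rw [if_neg (fun hc => c1 ((hdE _).1 hc))]
        by_cases c2 : E (a, u ++ [false])
        · rw [if_pos ((hdE _).2 c2)]
          refine ⟨c2, ?_⟩
          rcases ih2 with h2 | h2
          · left
            simp [h2]
          · exact absurd c2 h2.2
        · rw [if_neg (fun hc => c2 ((hdE _).1 hc))]
          exact ⟨ih1, Or.inr ⟨c1, c2⟩⟩
  obtain ⟨i1, i2⟩ := inv (l a).length
  have fin : T (a, (sstep d a)^[(l a).length] []) = true := by
    obtain ⟨s, hs⟩ := i1
    cases s with
    | nil => simpa using hs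
    | cons b s =>
      exfalso
      rcases i2 with h2 | h2
      · have h3 := hTlen a _ hs
        simp only [List.length_append, List.length_cons] at h3
        rw [h2, hll] at h3
        omega
      · cases b with
        | true =>
          apply h2.1
          exact ⟨s, by simpa using hs⟩
        | false =>
          apply h2.2
          exact ⟨s, by simpa using hs⟩
  simp only [T, Option.any_eq_true] at fin
  obtain ⟨b, hb, hb'⟩ := fin
  refine ⟨b, hb', ?_⟩
  change ((unbits α (bits a)).map (fun a => (sstep d a)^[(l a).length] [])).getD [] = bits b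
  rw [unbits_bits, Option.map_some, Option.getD_some, bits_of_unbits hb]

/-- If every instance of a hard language is turned in polynomial time into the code of an `a` such
that the instance is positive iff `R (a, b) = true` for some `b`, and a polynomial-time algorithm
finds such a `b` whenever one exists, then the language is in `P`. -/
theorem inP_of_search {α β : Type} [TEnc α] [TDec α] [TEnc β] [TDec β] {R : α × β → Bool}
    (hR : Poly R) {A : List Bool → List Bool} (hA : PolyTime A) {L : Set (List Bool)}
    {f : List Bool → List Bool} (hf : PolyTime f)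
    (h : ∀ w, ∃ a : α, f w = bits a ∧ (w ∈ L ↔ ∃ b, R (a, b) = true) ∧
      ((∃ b, R (a, b) = true) → ∃ b, R (a, b) = true ∧ A (f w) = bits b)) : InP L := by
  have hf' := poly_of_polyTime hf
  have hA' := poly_of_polyTime hA
  refine ⟨fun w => [(unbits α (f w)).any (fun a => (unbits β (A (f w))).any (fun b => R (a, b)))],
    polyTime_of_poly ?_, fun w => ?_⟩
  · refine NPC.Poly.optAny_fp (o := fun w => unbits α (f w))
      (h := fun w a => (unbits β (A (f w))).any (fun b => R (a, b))) (poly_unbits.comp hf') ?_
    refine NPC.Poly.optAny_fp (o := fun x : List Bool × α => unbits β (A (f x.1)))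
      (h := fun x b => R (x.2, b))
      (poly_unbits.comp (hA'.comp (hf'.comp (NPC.Poly.fst NPC.Poly.id)))) ?_
    exact hR.comp (NPC.Poly.pair (NPC.Poly.snd (NPC.Poly.fst NPC.Poly.id))
      (NPC.Poly.snd NPC.Poly.id))
  · obtain ⟨a, h1, h2, h3⟩ := h w
    change w ∈ L ↔ [(unbits α (f w)).any (fun a => (unbits β (A (f w))).any
      (fun b => R (a, b)))] = [true]
    rw [h1] at h3 ⊢
    simp only [unbits_bits, Option.any_some, List.cons.injEq, and_true, Option.any_eq_true]
    rw [h2]
    constructor
    · intro h4
      obtain ⟨b, h5, h6⟩ := h3 h4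
      exact ⟨b, by rw [h6, unbits_bits], h5⟩
    · rintro ⟨b, _, h5⟩
      exact ⟨b, h5⟩

end Pool.Agent.NPC.R671
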