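import Pool.Agent.NPC.Sat2
import Pool.Agent.H671R2.PolyAuto

/-!
# Subset sum is hard
-/

namespace Pool.Agent.NPC.R671.SS
open Pool.Agent.NPC

/-- formulas -/
abbrev Φ := List (Lit ℕ × Lit ℕ × Lit ℕ)

/-- the literals of clause `j` -/
def cl (φ : Φ) (j : ℕ) : List (Bool × ℕ) := (toLists φ).getD j []

/-- the digit (0 or 1) of item `i` at position `p` -/
def dgb (φ : Φ) (i : ℕ × Bool) (p : ℕ) : Bool :=
  decide (p = i.1) || (decide (i.1 < 3 * φ.length) && (decide (3 * φ.length ≤ p) &&
    decide ((i.2, i.1) ∈ cl φ (p - 3 * φ.length))))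

/-- the number of an item -/
def num (φ : Φ) (i : ℕ × Bool) : ℕ :=
  valB ((List.range (3 * φ.length + φ.length)).flatMap fun p => [dgb φ i p, false, false])

/-- the target -/
def target (φ : Φ) : ℕ :=
  valB ((List.range (3 * φ.length + φ.length)).flatMap fun p =>
    [true, decide (3 * φ.length ≤ p), false])

/-- the items -/
def items (φ : Φ) : List (ℕ × Bool) :=
  (List.range (3 * φ.length + φ.length)).flatMap fun k => [(k, true), (k, false)]

/-- the instance -/
def inst (φ : Φ) : List ℕ × ℕ := ((items φ).map (num φ), target φ)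

/-- Subset sum. -/
def SubsetSum (x : List ℕ × ℕ) : Prop := ∃ s : List ℕ, s.Sublist x.1 ∧ s.sum = x.2

theorem valB_flatMap (N : ℕ) (a b : ℕ → Bool) :
    valB ((List.range N).flatMap fun p => [a p, b p, false]) =
      ∑ p ∈ Finset.range N, ((a p).toNat + 2 * (b p).toNat) * 8 ^ p := by
  induction N with
  | zero => rfl
  | succ N ih =>
    rw [List.range_succ, List.flatMap_append, valB_append, ih, Finset.sum_range_succ]
    have hl : ((List.range N).flatMap fun p => [a p, b p, false]).length = 3 * N := by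
      rw [List.length_flatMap]
      simp [mul_comm]
    rw [hl]
    have h8 : (2:ℕ) ^ (3 * N) = 8 ^ N := by
      rw [pow_mul]; norm_num
    rw [h8]
    simp only [List.flatMap_cons, List.flatMap_nil, List.append_nil, valB_cons, valB_nil]
    cases a N <;> cases b N <;> simp <;> ring

theorem sum_lt_pow (N : ℕ) (x : ℕ → ℕ) (hx : ∀ p < N, x p ≤ 7) :
    ∑ p ∈ Finset.range N, x p * 8 ^ p < 8 ^ N := by
  induction N with
  | zero => simp
  | succ N ih =>
    rw [Finset.sum_range_succ, pow_succ]
    have h1 := ih (fun p hp => hx p (by omega))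
    have h2 : x N * 8 ^ N ≤ 7 * 8 ^ N := Nat.mul_le_mul_right _ (hx N (by omega))
    omega

theorem digits_unique (N : ℕ) (x y : ℕ → ℕ) (hx : ∀ p < N, x p ≤ 7) (hy : ∀ p < N, y p ≤ 7)
    (h : ∑ p ∈ Finset.range N, x p * 8 ^ p = ∑ p ∈ Finset.range N, y p * 8 ^ p) :
    ∀ p < N, x p = y p := by
  induction N with
  | zero => intro p hp; omega
  | succ N ih =>
    rw [Finset.sum_range_succ, Finset.sum_range_succ] at h
    have h1 := sum_lt_pow N x (fun p hp => hx p (by omega))
    have h2 := sum_lt_pow N y (fun p hp => hy p (by omega))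
    have h3 : x N = y N := by
      rcases Nat.lt_trichotomy (x N) (y N) with h3 | h3 | h3
      · have : (x N + 1) * 8 ^ N ≤ y N * 8 ^ N := Nat.mul_le_mul_right _ h3
        rw [add_mul] at this
        omega
      · exact h3
      · have : (y N + 1) * 8 ^ N ≤ x N * 8 ^ N := Nat.mul_le_mul_right _ h3
        rw [add_mul] at this
        omega
    intro p hp
    rcases Nat.lt_succ_iff_lt_or_eq.1 hp with hp' | rfl
    · exact ih (fun p hp => hx p (by omega)) (fun p hp => hy p (by omega)) (by
        rw [h3] at h; omega) p hp'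
    · exact h3

theorem num_eq (φ : Φ) (i : ℕ × Bool) :
    num φ i = ∑ p ∈ Finset.range (3 * φ.length + φ.length), (dgb φ i p).toNat * 8 ^ p := by
  unfold num
  rw [valB_flatMap (b := fun _ => false)]
  simp

/-- the digits of the target -/
def tdig (φ : Φ) (p : ℕ) : ℕ := if 3 * φ.length ≤ p then 3 else 1

theorem target_eq (φ : Φ) :
    target φ = ∑ p ∈ Finset.range (3 * φ.length + φ.length), tdig φ p * 8 ^ p := by
  unfold target
  rw [valB_flatMap (a := fun _ => true)]
  refine Finset.sum_congr rfl fun p _ => ?_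
  unfold tdig
  by_cases h : 3 * φ.length ≤ p <;> simp [h]

theorem mem_items {φ : Φ} {i : ℕ × Bool} : i ∈ items φ ↔ i.1 < 3 * φ.length + φ.length := by
  unfold items
  rw [List.mem_flatMap]
  constructor
  · rintro ⟨k, hk, hi⟩
    rw [List.mem_range] at hk
    simp only [List.mem_cons, List.not_mem_nil, or_false] at hi
    rcases hi with rfl | rfl <;> exact hk
  · intro h
    refine ⟨i.1, List.mem_range.2 h, ?_⟩
    obtain ⟨k, b⟩ := i
    cases b <;> simp

theorem items_nodup (φ : Φ) : (items φ).Nodup := by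
  unfold items
  rw [List.nodup_flatMap]
  constructor
  · intro k _
    simp
  · refine List.Pairwise.imp ?_ (List.nodup_range (n := 3 * φ.length + φ.length))
    intro a b hab
    simp [Function.onFun, List.Disjoint, hab]

/-- the number of selected items with digit one at position `p` -/
def cnt (φ : Φ) (S : Finset (ℕ × Bool)) (p : ℕ) : ℕ := (S.filter fun i => dgb φ i p = true).card

theorem sum_num (φ : Φ) (S : Finset (ℕ × Bool)) :
    ∑ i ∈ S, num φ i = ∑ p ∈ Finset.range (3 * φ.length + φ.length), cnt φ S p * 8 ^ p := by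
  simp only [num_eq]
  rw [Finset.sum_comm]
  refine Finset.sum_congr rfl fun p _ => ?_
  rw [← Finset.sum_mul]
  congr 1
  unfold cnt
  rw [Finset.card_filter]
  refine Finset.sum_congr rfl fun i _ => ?_
  cases dgb φ i p <;> simp

theorem cl_length (φ : Φ) (j : ℕ) : (cl φ j).length ≤ 3 := by
  unfold cl toLists
  rw [List.getD_eq_getElem?_getD, List.getElem?_map]
  cases h : φ[j]? <;> simp

/-- the items with digit one at position `p` -/
theorem cnt_subset (φ : Φ) (S : Finset (ℕ × Bool)) (p : ℕ) :
    (S.filter fun i => dgb φ i p = true) ⊆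
      {(p, true), (p, false)} ∪ ((cl φ (p - 3 * φ.length)).map Prod.swap).toFinset := by
  intro i hi
  rw [Finset.mem_filter] at hi
  obtain ⟨_, hd⟩ := hi
  unfold dgb at hd
  simp only [Bool.or_eq_true, decide_eq_true_eq, Bool.and_eq_true] at hd
  rw [Finset.mem_union]
  rcases hd with hd | ⟨_, _, hd⟩
  · left
    obtain ⟨k, b⟩ := i
    simp only at hd
    subst hd
    cases b <;> simp
  · right
    rw [List.mem_toFinset, List.mem_map]
    exact ⟨(i.2, i.1), hd, rfl⟩

theorem cnt_le (φ : Φ) (S : Finset (ℕ × Bool)) (p : ℕ) : cnt φ S p ≤ 7 := by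
  unfold cnt
  refine (Finset.card_le_card (cnt_subset φ S p)).trans ?_
  refine (Finset.card_union_le _ _).trans ?_
  have h1 : ({(p, true), (p, false)} : Finset (ℕ × Bool)).card ≤ 2 := Finset.card_le_two
  have h2 : ((cl φ (p - 3 * φ.length)).map Prod.swap).toFinset.card ≤ 3 :=
    (List.toFinset_card_le _).trans (by rw [List.length_map]; exact cl_length _ _)
  omega

theorem tdig_le (φ : Φ) (p : ℕ) : tdig φ p ≤ 7 := by
  unfold tdig; split_ifs <;> omega

/-- a selection sums to the target iff all digit sums are right -/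
theorem sum_eq_target_iff (φ : Φ) (S : Finset (ℕ × Bool)) :
    ∑ i ∈ S, num φ i = target φ ↔ ∀ p < 3 * φ.length + φ.length, cnt φ S p = tdig φ p := by
  rw [sum_num, target_eq]
  constructor
  · intro h
    exact digits_unique _ _ _ (fun p _ => cnt_le φ S p) (fun p _ => tdig_le φ p) h
  · intro h
    exact Finset.sum_congr rfl fun p hp => by rw [h p (Finset.mem_range.1 hp)]

theorem subsetSum_iff (φ : Φ) :
    SubsetSum (inst φ) ↔ ∃ S : Finset (ℕ × Bool), (∀ i ∈ S, i.1 < 3 * φ.length + φ.length) ∧
      ∀ p < 3 * φ.length + φ.length, cnt φ S p = tdig φ p := by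
  constructor
  · rintro ⟨s, hs, hsum⟩
    obtain ⟨s', hs', rfl⟩ := List.sublist_map_iff.1 hs
    refine ⟨s'.toFinset, fun i hi => mem_items.1 (hs'.subset (List.mem_toFinset.1 hi)), ?_⟩
    rw [← sum_eq_target_iff, List.sum_toFinset _ ((items_nodup φ).sublist hs')]
    exact hsum
  · rintro ⟨S, hS, hp⟩
    refine ⟨((items φ).filter (fun i => decide (i ∈ S))).map (num φ),
      List.filter_sublist.map _, ?_⟩
    rw [← sum_eq_target_iff] at hp
    rw [← List.sum_toFinset _ ((items_nodup φ).filter _)]
    have : ((items φ).filter (fun i => decide (i ∈ S))).toFinset = S := by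
      ext i
      simp only [List.mem_toFinset, List.mem_filter, decide_eq_true_eq, mem_items]
      exact ⟨fun h => h.2, fun h => ⟨hS i h, h⟩⟩
    rw [this]
    exact hp

theorem cl_eq {φ : Φ} {j : ℕ} (hj : j < φ.length) :
    cl φ j = [φ[j].1, φ[j].2.1, φ[j].2.2] := by
  unfold cl toLists
  rw [List.getD_eq_getElem?_getD, List.getElem?_map, List.getElem?_eq_getElem hj]
  rfl

theorem sat_iff (φ : Φ) (hb : Bounded3 φ) (σ : ℕ → Bool) :
    (∀ c ∈ φ, σ c.1.2 = c.1.1 ∨ σ c.2.1.2 = c.2.1.1 ∨ σ c.2.2.2 = c.2.2.1) ↔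
      ∀ j < φ.length, ∃ l ∈ cl φ j, l.2 < 3 * φ.length ∧ σ l.2 = l.1 := by
  constructor
  · intro h j hj
    obtain ⟨b1, b2, b3⟩ := hb φ[j] (List.getElem_mem hj)
    rw [cl_eq hj]
    rcases h φ[j] (List.getElem_mem hj) with h1 | h1 | h1
    · exact ⟨φ[j].1, by simp, b1, h1⟩
    · exact ⟨φ[j].2.1, by simp, b2, h1⟩
    · exact ⟨φ[j].2.2, by simp, b3, h1⟩
  · intro h c hc
    obtain ⟨j, hj, rfl⟩ := List.getElem_of_mem hc
    obtain ⟨l, hl, _, h2⟩ := h j hj
    rw [cl_eq hj] at hl
    simp only [List.mem_cons, List.not_mem_nil, or_false] at hl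
    rcases hl with rfl | rfl | rfl
    · exact Or.inl h2
    · exact Or.inr (Or.inl h2)
    · exact Or.inr (Or.inr h2)

theorem dgb_self (φ : Φ) (k : ℕ) (b : Bool) : dgb φ (k, b) k = true := by simp [dgb]

theorem dgb_var {φ : Φ} {i : ℕ × Bool} {p : ℕ} (hp : p < 3 * φ.length) :
    dgb φ i p = true ↔ i.1 = p := by
  unfold dgb
  simp only [Bool.or_eq_true, decide_eq_true_eq, Bool.and_eq_true]
  constructor
  · rintro (h | h)
    · exact h.symm
    · omega
  · intro h
    exact Or.inl h.symm

theorem dgb_cl {φ : Φ} {i : ℕ × Bool} {j : ℕ} :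
    dgb φ i (3 * φ.length + j) = true ↔ i.1 = 3 * φ.length + j ∨
      (i.1 < 3 * φ.length ∧ (i.2, i.1) ∈ cl φ j) := by
  unfold dgb
  simp only [Bool.or_eq_true, decide_eq_true_eq, Bool.and_eq_true, Nat.add_sub_cancel_left]
  constructor
  · rintro (h | ⟨h1, _, h2⟩)
    · exact Or.inl h.symm
    · exact Or.inr ⟨h1, h2⟩
  · rintro (h | ⟨h1, h2⟩)
    · exact Or.inl h.symm
    · exact Or.inr ⟨h1, by omega, h2⟩

theorem forward (φ : Φ) (S : Finset (ℕ × Bool))
    (hS : ∀ p < 3 * φ.length + φ.length, cnt φ S p = tdig φ p) :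
    ∀ j < φ.length, ∃ l ∈ cl φ j, l.2 < 3 * φ.length ∧ decide ((l.2, true) ∈ S) = l.1 := by
  intro j hj
  have h1 := hS (3 * φ.length + j) (by omega)
  have h2 : tdig φ (3 * φ.length + j) = 3 := by unfold tdig; simp
  rw [h2] at h1
  unfold cnt at h1
  have h3 : ∃ i ∈ S.filter (fun i => dgb φ i (3 * φ.length + j) = true),
      i ∉ ({(3 * φ.length + j, true), (3 * φ.length + j, false)} : Finset (ℕ × Bool)) := by
    by_contra hcon
    push Not at hcon
    have h4 : (S.filter (fun i => dgb φ i (3 * φ.length + j) = true)).card ≤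
      ({(3 * φ.length + j, true), (3 * φ.length + j, false)} : Finset (ℕ × Bool)).card :=
      Finset.card_le_card hcon
    have h5 : ({(3 * φ.length + j, true), (3 * φ.length + j, false)} :
      Finset (ℕ × Bool)).card ≤ 2 := Finset.card_le_two
    omega
  obtain ⟨⟨k, b⟩, hi, hi'⟩ := h3
  rw [Finset.mem_filter, dgb_cl] at hi
  obtain ⟨hiS, hi2⟩ := hi
  simp only at hi2
  rcases hi2 with rfl | ⟨hk, hmem⟩
  · cases b <;> simp at hi'
  · refine ⟨(b, k), hmem, hk, ?_⟩
    change decide ((k, true) ∈ S) = b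
    have h6 := hS k (by omega)
    have h7 : tdig φ k = 1 := by unfold tdig; rw [if_neg (by omega)]
    rw [h7] at h6
    unfold cnt at h6
    rw [Finset.card_eq_one] at h6
    obtain ⟨e, he⟩ := h6
    have h8 : (k, b) ∈ S.filter (fun i => dgb φ i k = true) :=
      Finset.mem_filter.2 ⟨hiS, dgb_self φ k b⟩
    rw [he, Finset.mem_singleton] at h8
    cases b
    · rw [decide_eq_false_iff_not]
      intro hcon
      have h9 : (k, true) ∈ S.filter (fun i => dgb φ i k = true) :=
        Finset.mem_filter.2 ⟨hcon, dgb_self φ k true⟩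
      rw [he, Finset.mem_singleton, ← h8] at h9
      simp at h9
    · rw [decide_eq_true_iff]
      exact hiS

/-- the satisfied literals of clause `j` -/
def sl (φ : Φ) (σ : ℕ → Bool) (j : ℕ) : Finset (ℕ × Bool) :=
  ((cl φ j).toFinset.filter fun l => l.2 < 3 * φ.length ∧ σ l.2 = l.1).image Prod.swap

theorem sl_card_le (φ : Φ) (σ : ℕ → Bool) (j : ℕ) : (sl φ σ j).card ≤ 3 := by
  unfold sl
  exact Finset.card_image_le.trans ((Finset.card_filter_le _ _).trans
    ((List.toFinset_card_le _).trans (cl_length φ j)))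

theorem mem_sl {φ : Φ} {σ : ℕ → Bool} {j : ℕ} {i : ℕ × Bool} :
    i ∈ sl φ σ j ↔ (i.2, i.1) ∈ cl φ j ∧ i.1 < 3 * φ.length ∧ σ i.1 = i.2 := by
  unfold sl
  rw [Finset.mem_image]
  constructor
  · rintro ⟨l, hl, rfl⟩
    rw [Finset.mem_filter, List.mem_toFinset] at hl
    exact hl
  · intro h
    refine ⟨(i.2, i.1), ?_, rfl⟩
    rw [Finset.mem_filter, List.mem_toFinset]
    exact h

/-- the selection from an assignment -/
def sel (φ : Φ) (σ : ℕ → Bool) : Finset (ℕ × Bool) :=
  (items φ).toFinset.filter fun i => (i.1 < 3 * φ.length ∧ σ i.1 = i.2) ∨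
    (3 * φ.length ≤ i.1 ∧ (sl φ σ (i.1 - 3 * φ.length)).card ≤ bif i.2 then 2 else 1)

theorem mem_sel {φ : Φ} {σ : ℕ → Bool} {i : ℕ × Bool} :
    i ∈ sel φ σ ↔ i.1 < 3 * φ.length + φ.length ∧ ((i.1 < 3 * φ.length ∧ σ i.1 = i.2) ∨
    (3 * φ.length ≤ i.1 ∧ (sl φ σ (i.1 - 3 * φ.length)).card ≤ bif i.2 then 2 else 1)) := by
  unfold sel
  rw [Finset.mem_filter, List.mem_toFinset, mem_items]

theorem backward (φ : Φ) (σ : ℕ → Bool)
    (h : ∀ j < φ.length, ∃ l ∈ cl φ j, l.2 < 3 * φ.length ∧ σ l.2 = l.1) :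
    ∀ p < 3 * φ.length + φ.length, cnt φ (sel φ σ) p = tdig φ p := by
  intro p hp
  by_cases hpn : p < 3 * φ.length
  · have h1 : (sel φ σ).filter (fun i => dgb φ i p = true) = {(p, σ p)} := by
      ext ⟨k, b⟩
      rw [Finset.mem_filter, dgb_var hpn, mem_sel, Finset.mem_singleton]
      simp only [Prod.mk.injEq]
      constructor
      · rintro ⟨⟨_, (⟨_, h2⟩ | ⟨h2, _⟩)⟩, rfl⟩
        · exact ⟨rfl, h2.symm⟩
        · omega
      · rintro ⟨rfl, rfl⟩
        exact ⟨⟨hp, Or.inl ⟨hpn, rfl⟩⟩, rfl⟩
    unfold cnt tdig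
    rw [h1, if_neg (by omega)]
    simp
  · obtain ⟨j, rfl⟩ : ∃ j, p = 3 * φ.length + j := ⟨p - 3 * φ.length, by omega⟩
    have hj : j < φ.length := by omega
    have hpos : 0 < (sl φ σ j).card := by
      obtain ⟨l, hl, hl1, hl2⟩ := h j hj
      exact Finset.card_pos.2 ⟨(l.2, l.1), mem_sl.2 ⟨hl, hl1, hl2⟩⟩
    have hle := sl_card_le φ σ j
    have h1 : (sel φ σ).filter (fun i => dgb φ i (3 * φ.length + j) = true) =
        sl φ σ j ∪ ((if (sl φ σ j).card ≤ 2 then {(3 * φ.length + j, true)} else ∅) ∪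
          (if (sl φ σ j).card ≤ 1 then {(3 * φ.length + j, false)} else ∅)) := by
      ext ⟨k, b⟩
      rw [Finset.mem_filter, dgb_cl, mem_sel, Finset.mem_union, Finset.mem_union, mem_sl]
      simp only
      constructor
      · rintro ⟨⟨h0, (⟨h2, h3⟩ | ⟨h2, h3⟩)⟩, (h4 | ⟨h4, h5⟩)⟩
        · omega
        · exact Or.inl ⟨h5, h4, h3⟩
        · right
          subst h4
          rw [Nat.add_sub_cancel_left] at h3
          cases b
          · right
            simp only [cond_false] at h3
            rw [if_pos h3]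
            simp
          · left
            simp only [cond_true] at h3
            rw [if_pos h3]
            simp
        · omega
      · rintro (⟨h2, h3, h4⟩ | h2 | h2)
        · exact ⟨⟨by omega, Or.inl ⟨h3, h4⟩⟩, Or.inr ⟨h3, h2⟩⟩
        · split_ifs at h2 with h3
          · simp only [Finset.mem_singleton, Prod.mk.injEq] at h2
            obtain ⟨rfl, rfl⟩ := h2
            refine ⟨⟨hp, Or.inr ⟨by omega, ?_⟩⟩, Or.inl rfl⟩
            rw [Nat.add_sub_cancel_left]
            exact h3
          · simp at h2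
        · split_ifs at h2 with h3
          · simp only [Finset.mem_singleton, Prod.mk.injEq] at h2
            obtain ⟨rfl, rfl⟩ := h2
            refine ⟨⟨hp, Or.inr ⟨by omega, ?_⟩⟩, Or.inl rfl⟩
            rw [Nat.add_sub_cancel_left]
            exact h3
          · simp at h2
    have ht : tdig φ (3 * φ.length + j) = 3 := by simp [tdig]
    rw [ht]
    unfold cnt
    rw [h1, Finset.card_union_of_disjoint, Finset.card_union_of_disjoint]
    · by_cases hc2 : (sl φ σ j).card ≤ 2 <;> by_cases hc1 : (sl φ σ j).card ≤ 1 <;>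
        simp only [hc2, hc1, if_true, if_false, Finset.card_singleton, Finset.card_empty] <;> omega
    · by_cases hc2 : (sl φ σ j).card ≤ 2 <;> by_cases hc1 : (sl φ σ j).card ≤ 1 <;>
        simp [hc2, hc1]
    · rw [Finset.disjoint_left]
      rintro ⟨k, b⟩ h2 h3
      rw [mem_sl] at h2
      simp only at h2
      have h4 : k = 3 * φ.length + j := by
        rw [Finset.mem_union] at h3
        by_cases hc2 : (sl φ σ j).card ≤ 2 <;> by_cases hc1 : (sl φ σ j).card ≤ 1 <;>
          simp [hc2, hc1] at h3 <;> omega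
      omega

/-- correctness of the reduction -/
theorem correct (φ : Φ) (hb : Bounded3 φ) : SAT3 φ ↔ SubsetSum (inst φ) := by
  rw [subsetSum_iff]
  unfold SAT3 Sat3V
  constructor
  · rintro ⟨σ, hσ⟩
    refine ⟨sel φ σ, fun i hi => (mem_sel.1 hi).1, backward φ σ ((sat_iff φ hb σ).1 hσ)⟩
  · rintro ⟨S, _, hS⟩
    exact ⟨fun v => decide ((v, true) ∈ S), (sat_iff φ hb (fun v => decide ((v, true) ∈ S))).2 (forward φ S hS)⟩

/-- the instances have positive items, smaller than the target, which is smaller than the sum of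
all items -/
def Nice (x : List ℕ × ℕ) : Prop := (∀ a ∈ x.1, 0 < a ∧ a < x.2) ∧ x.2 < x.1.sum

theorem num_pos (φ : Φ) (i : ℕ × Bool) (hi : i ∈ items φ) : 0 < num φ i := by
  rw [mem_items] at hi
  rw [num_eq]
  refine lt_of_lt_of_le ?_ (Finset.single_le_sum (f := fun p => (dgb φ i p).toNat * 8 ^ p)
    (fun _ _ => Nat.zero_le _) (Finset.mem_range.2 hi))
  have : dgb φ i i.1 = true := dgb_self φ i.1 i.2
  rw [this]
  simp

theorem num_lt (φ : Φ) (h : φ ≠ []) (i : ℕ × Bool) : num φ i < target φ := by
  have hm : 0 < φ.length := List.length_pos_iff.2 h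
  rw [num_eq, target_eq]
  refine Finset.sum_lt_sum ?_ ⟨3 * φ.length, Finset.mem_range.2 (by omega), ?_⟩
  · intro p _
    refine Nat.mul_le_mul_right _ ?_
    unfold tdig
    cases dgb φ i p <;> simp <;> split_ifs <;> omega
  · refine Nat.mul_lt_mul_of_pos_right ?_ (by positivity)
    have ht : tdig φ (3 * φ.length) = 3 := by simp [tdig]
    rw [ht]
    cases dgb φ i (3 * φ.length) <;> simp

theorem target_lt (φ : Φ) (h : φ ≠ []) (hb : Bounded3 φ) :
    target φ < ((items φ).map (num φ)).sum := by
  have hm : 0 < φ.length := List.length_pos_iff.2 h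
  rw [← List.sum_toFinset _ (items_nodup φ), sum_num, target_eq]
  have hvar : ∀ p < 3 * φ.length + φ.length, 2 ≤ cnt φ (items φ).toFinset p := by
    intro p hp
    unfold cnt
    have : ({(p, true), (p, false)} : Finset (ℕ × Bool)) ⊆
        (items φ).toFinset.filter (fun i => dgb φ i p = true) := by
      intro i hi
      simp only [Finset.mem_insert, Finset.mem_singleton] at hi
      rw [Finset.mem_filter, List.mem_toFinset, mem_items]
      rcases hi with rfl | rfl
      · exact ⟨hp, dgb_self _ _ _⟩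
      · exact ⟨hp, dgb_self _ _ _⟩
    have h2 := Finset.card_le_card this
    rw [Finset.card_pair (by simp)] at h2
    exact h2
  refine Finset.sum_lt_sum ?_ ⟨0, Finset.mem_range.2 (by omega), ?_⟩
  · intro p hp
    rw [Finset.mem_range] at hp
    refine Nat.mul_le_mul_right _ ?_
    unfold tdig
    split_ifs with hpn
    · obtain ⟨j, rfl⟩ : ∃ j, p = 3 * φ.length + j := ⟨p - 3 * φ.length, by omega⟩
      have hj : j < φ.length := by omega
      obtain ⟨b1, _, _⟩ := hb φ[j] (List.getElem_mem hj)
      unfold cnt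
      have : ({(3 * φ.length + j, true), (3 * φ.length + j, false),
          ((φ[j].1).2, (φ[j].1).1)} : Finset (ℕ × Bool)) ⊆
          (items φ).toFinset.filter (fun i => dgb φ i (3 * φ.length + j) = true) := by
        intro i hi
        simp only [Finset.mem_insert, Finset.mem_singleton] at hi
        rw [Finset.mem_filter, List.mem_toFinset, mem_items]
        rcases hi with rfl | rfl | rfl
        · exact ⟨hp, dgb_self _ _ _⟩
        · exact ⟨hp, dgb_self _ _ _⟩
        · refine ⟨by simp only; omega, ?_⟩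
          rw [dgb_cl]
          right
          exact ⟨b1, by rw [cl_eq hj]; simp⟩
      have h2 := Finset.card_le_card this
      rw [Finset.card_insert_of_notMem, Finset.card_pair] at h2
      · exact h2
      · intro hcon
        simp only [Prod.mk.injEq] at hcon
        omega
      · simp only [Finset.mem_insert, Finset.mem_singleton, Prod.mk.injEq, not_or]
        refine ⟨by simp, ?_⟩
        intro hcon
        omega
    · have := hvar p hp
      omega
  · have := hvar 0 (by omega)
    have ht : tdig φ 0 = 1 := by unfold tdig; rw [if_neg (by omega)]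
    rw [ht]
    simp only [pow_zero, mul_one]
    omega

theorem inst_nice (φ : Φ) (h : φ ≠ []) (hb : Bounded3 φ) : Nice (inst φ) := by
  refine ⟨?_, target_lt φ h hb⟩
  intro a ha
  unfold inst at ha
  simp only [List.mem_map] at ha
  obtain ⟨i, hi, rfl⟩ := ha
  exact ⟨num_pos φ i hi, num_lt φ h i⟩

/-! ### Polynomial time -/

theorem cl_poly {α : Type} [TEnc α] {φ : α → Φ} {j : α → ℕ} (h1 : Poly φ) (h2 : Poly j) :
    Poly (fun a => cl (φ a) (j a)) := by
  unfold cl
  exact Poly.getD (toLists_poly.comp h1) h2 (Poly.const _)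

attribute [fun_prop] cl_poly

theorem dgb_poly : Poly (fun x : (Φ × (ℕ × Bool)) × ℕ => dgb x.1.1 x.1.2 x.2) := by
  unfold dgb
  fun_prop

attribute [local irreducible] dgb cl

theorem N_uPoly {α : Type} [TEnc α] {φ : α → Φ} (h1 : Poly φ) :
    UPoly (fun a => 3 * (φ a).length + (φ a).length) := by
  have h2 : UPoly (fun a => (φ a).length) := UPoly.length h1
  exact ((UPoly.const 3).mul h2).add h2

theorem num_poly : Poly (fun x : Φ × (ℕ × Bool) => num x.1 x.2) := by
  unfold num
  refine Poly.valBits ?_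
  refine Poly.flatMap (l := fun x : Φ × (ℕ × Bool) => List.range (3 * x.1.length + x.1.length))
    (F := fun x p => [dgb x.1 x.2 p, false, false])
    (N_uPoly (Poly.fst Poly.id)).range ?_
  exact Poly.cons dgb_poly (Poly.const _)

theorem target_poly : Poly target := by
  unfold target
  refine Poly.valBits ?_
  refine Poly.flatMap (l := fun x : Φ => List.range (3 * x.length + x.length))
    (F := fun x p => [true, decide (3 * x.length ≤ p), false])
    (N_uPoly Poly.id).range ?_
  fun_prop

theorem items_poly : Poly items := by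
  unfold items
  refine Poly.flatMap (l := fun x : Φ => List.range (3 * x.length + x.length))
    (F := fun x k => [(k, true), (k, false)])
    (N_uPoly Poly.id).range ?_
  fun_prop

theorem inst_poly : Poly inst := by
  unfold inst
  exact Poly.pair (Poly.map (l := items) (F := fun φ i => num φ i) items_poly num_poly) target_poly

/-- Subset sum is hard, even when all items are positive and smaller than the target, and the
target is smaller than the sum of all the items. -/
theorem hardPr_SubsetSum : HardPr Nice SubsetSum :=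
  hardPr_SAT3b.trans inst_poly (fun φ h => inst_nice φ h.2.2 h.2.1) (fun φ h => correct φ h.2.1)

/-- Subset sum is `NP`-hard. -/
theorem npHard_SubsetSum : NPHardP SubsetSum := hardPr_SubsetSum.toHardI.toNPHardP

end Pool.Agent.NPC.R671.SS
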