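import Mathlib

/-!
# Two vertices on a common hole of a bipartite graph: the combinatorial reduction from SAT
-/

namespace Pool.Agent.H671R2.Hole

/-- vertex labels -/
inductive Lb : Type
  | x | x' | y
  | A (i : ℕ) | A' (i : ℕ)
  | P (i : ℕ) (b r : Bool) | P' (i : ℕ) (b r : Bool)
  | B (i : ℕ) | B' (i : ℕ)
  | c (j : ℕ) | v (j k : ℕ)
  deriving DecidableEq

open Lb

section
variable (n m : ℕ) (lit : ℕ → ℕ → Option (ℕ × Bool))

/-- half of the adjacency relation -/
def adj0 : Lb → Lb → Bool
  | x, A i => decide (i = 0)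
  | x, x' => true
  | x', A' i => decide (i = 0)
  | A i, P i' _ r => decide (i = i') && !r
  | P i b r, P i' b' r' => decide (i = i') && decide (b = b') && !r && r'
  | P i _ r, B i' => decide (i = i') && r
  | B i, A i' => decide (i' = i + 1)
  | A' i, P' i' _ r => decide (i = i') && !r
  | P' i b r, P' i' b' r' => decide (i = i') && decide (b = b') && !r && r'
  | P' i _ r, B' i' => decide (i = i') && r
  | B' i, A' i' => decide (i' = i + 1)
  | P i b r, P' i' b' r' => decide (i = i') && decide (b' = !b) && decide (r = r')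
  | v j k, P i b r => !r && decide (lit j k = some (i, !b))
  | v j k, P' i b r => r && decide (lit j k = some (i, !b))
  | A i, c j => decide (i = n) && decide (j = 0)
  | c j, v j' _ => decide (j = j')
  | v j _, c j' => decide (j' = j + 1)
  | c j, y => decide (j = m)
  | A' i, y => decide (i = n)
  | _, _ => false

/-- adjacency -/
def adj (a b : Lb) : Bool := adj0 n m lit a b || adj0 n m lit b a

/-- the vertices of the graph -/
def valid : Lb → Bool
  | x => true
  | x' => true
  | y => true
  | A i => decide (i ≤ n)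
  | A' i => decide (i ≤ n)
  | P i _ _ => decide (i < n)
  | P' i _ _ => decide (i < n)
  | B i => decide (i < n)
  | B' i => decide (i < n)
  | c j => decide (j ≤ m)
  | v j k => decide (j < m) && (lit j k).any (fun l => decide (l.1 < n))

/-- the proper two-colouring -/
def col : Lb → Bool
  | x => false
  | x' => true
  | y => true
  | A _ => true
  | A' _ => false
  | P _ _ r => r
  | P' _ _ r => !r
  | B _ => false
  | B' _ => true
  | c _ => false
  | v _ _ => true

theorem col_adj0 (a b : Lb) (h : adj0 n m lit a b = true) : col a ≠ col b := by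
  cases a <;> cases b <;> simp_all [adj0, col]

theorem col_adj (a b : Lb) (h : adj n m lit a b = true) : col a ≠ col b := by
  unfold adj at h
  rw [Bool.or_eq_true] at h
  rcases h with h | h
  · exact col_adj0 n m lit a b h
  · exact (col_adj0 n m lit b a h).symm

theorem adj_symm (a b : Lb) : adj n m lit a b = adj n m lit b a := by
  unfold adj
  rw [Bool.or_comm]

theorem adj_irrefl (a : Lb) : adj n m lit a a = false := by
  by_contra h
  rw [Bool.not_eq_false] at h
  exact col_adj n m lit a a h rfl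

/-- The data of a hole through `x` and `y`, written as a sequence starting at `x`. -/
structure HoleSeq (h : ℕ → Lb) (K t : ℕ) : Prop where
  hK : 4 ≤ K
  val : ∀ a, a < K → valid n m lit (h a) = true
  inj : ∀ a b, a < K → b < K → h a = h b → a = b
  adj_iff : ∀ a b, a < b → b < K →
    (adj n m lit (h a) (h b) = true ↔ b = a + 1 ∨ (a = 0 ∧ b + 1 = K))
  h0 : h 0 = x
  h1 : h 1 = A 0
  ht : h t = y
  ht0 : 0 < t
  htK : t < K

variable {n m lit}
variable {h : ℕ → Lb} {K t : ℕ}

theorem nb_A {i : ℕ} {z : Lb} (e : adj n m lit (A i) z = true) :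
    (z = x ∧ i = 0) ∨ (∃ b, z = P i b false) ∨ (∃ i', i = i' + 1 ∧ z = B i') ∨
      (i = n ∧ z = c 0) := by
  cases z <;> simp_all [adj, adj0]

theorem nb_A' {i : ℕ} {z : Lb} (e : adj n m lit (A' i) z = true) :
    (z = x' ∧ i = 0) ∨ (∃ b, z = P' i b false) ∨ (∃ i', i = i' + 1 ∧ z = B' i') ∨
      (i = n ∧ z = y) := by
  cases z <;> simp_all [adj, adj0]

theorem nb_P1 {i : ℕ} {b : Bool} {z : Lb} (e : adj n m lit (P i b false) z = true) :
    z = A i ∨ z = P i b true ∨ z = P' i (!b) false ∨
      (∃ j k, lit j k = some (i, !b) ∧ z = v j k) := by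
  cases z <;> simp_all [adj, adj0]

theorem nb_P2 {i : ℕ} {b : Bool} {z : Lb} (e : adj n m lit (P i b true) z = true) :
    z = P i b false ∨ z = B i ∨ z = P' i (!b) true := by
  cases z <;> simp_all [adj, adj0]

theorem nb_P'1 {i : ℕ} {b : Bool} {z : Lb} (e : adj n m lit (P' i b false) z = true) :
    z = A' i ∨ z = P' i b true ∨ z = P i (!b) false := by
  cases z <;> simp_all [adj, adj0]

theorem nb_P'2 {i : ℕ} {b : Bool} {z : Lb} (e : adj n m lit (P' i b true) z = true) :
    z = P' i b false ∨ z = B' i ∨ z = P i (!b) true ∨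
      (∃ j k, lit j k = some (i, !b) ∧ z = v j k) := by
  cases z <;> simp_all [adj, adj0]

theorem nb_B {i : ℕ} {z : Lb} (e : adj n m lit (B i) z = true) :
    (∃ b, z = P i b true) ∨ z = A (i + 1) := by
  cases z <;> simp_all [adj, adj0]

theorem nb_B' {i : ℕ} {z : Lb} (e : adj n m lit (B' i) z = true) :
    (∃ b, z = P' i b true) ∨ z = A' (i + 1) := by
  cases z <;> simp_all [adj, adj0]

theorem nb_c {j : ℕ} {z : Lb} (e : adj n m lit (c j) z = true) :
    (z = A n ∧ j = 0) ∨ (∃ k, z = v j k) ∨ (∃ j' k, j = j' + 1 ∧ z = v j' k) ∨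
      (z = y ∧ j = m) := by
  cases z <;> simp_all [adj, adj0]
  omega

theorem nb_v {j k : ℕ} {z : Lb} (e : adj n m lit (v j k) z = true) :
    z = c j ∨ z = c (j + 1) ∨ (∃ i b, lit j k = some (i, !b) ∧ z = P i b false) ∨
      (∃ i b, lit j k = some (i, !b) ∧ z = P' i b true) := by
  cases z <;> simp_all [adj, adj0]
  omega

theorem ad_A_P {i : ℕ} {b : Bool} : adj n m lit (A i) (P i b false) = true := by
  simp [adj, adj0]
theorem ad_A'_P' {i : ℕ} {b : Bool} : adj n m lit (A' i) (P' i b false) = true := by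
  simp [adj, adj0]
theorem ad_P_P {i : ℕ} {b : Bool} : adj n m lit (P i b false) (P i b true) = true := by
  simp [adj, adj0]
theorem ad_P'_P' {i : ℕ} {b : Bool} : adj n m lit (P' i b false) (P' i b true) = true := by
  simp [adj, adj0]
theorem ad_P_B {i : ℕ} {b : Bool} : adj n m lit (P i b true) (B i) = true := by
  simp [adj, adj0]
theorem ad_P'_B' {i : ℕ} {b : Bool} : adj n m lit (P' i b true) (B' i) = true := by
  simp [adj, adj0]
theorem ad_P_P' {i : ℕ} {b r : Bool} : adj n m lit (P i b r) (P' i (!b) r) = true := by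
  simp [adj, adj0]
theorem ad_P_P'2 {i : ℕ} {b r : Bool} : adj n m lit (P i (!b) r) (P' i b r) = true := by
  simp [adj, adj0]
theorem ad_v_P {i j k : ℕ} {b : Bool} (hl : lit j k = some (i, !b)) :
    adj n m lit (v j k) (P i b false) = true := by
  simp [adj, adj0, hl]
theorem ad_v_P' {i j k : ℕ} {b : Bool} (hl : lit j k = some (i, !b)) :
    adj n m lit (v j k) (P' i b true) = true := by
  simp [adj, adj0, hl]

theorem HoleSeq.succ (H : HoleSeq n m lit h K t) {p : ℕ} (hp : p + 1 < K) :
    adj n m lit (h p) (h (p + 1)) = true :=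
  (H.adj_iff p (p + 1) (by omega) hp).2 (Or.inl rfl)

theorem HoleSeq.cross (H : HoleSeq n m lit h K t) {p q : ℕ} (_hp : 0 < p) (hpq : p + 1 < q)
    (hq : q < K) : adj n m lit (h p) (h q) = false := by
  by_contra hc
  rw [Bool.not_eq_false] at hc
  rcases (H.adj_iff p q (by omega) hq).1 hc with h1 | h1 <;> omega

theorem HoleSeq.ne (H : HoleSeq n m lit h K t) {p q : ℕ} (hp : p < K) (hq : q < K) (hpq : p ≠ q) :
    h p ≠ h q := fun he => hpq (H.inj p q hp hq he)

/-- invariants of the traversal of the first `i` variable gadgets -/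
structure Inv (h : ℕ → Lb) (K t i : ℕ) : Prop where
  lt1 : 4 * i + 1 < t
  lt2 : t + (4 * i + 2) < K
  ha : h (4 * i + 1) = A i
  ha' : h (K - (4 * i + 2)) = A' i
  hb : ∀ i' < i, h (4 * i' + 4) = B i'
  hb' : ∀ i' < i, h (K - (4 * i' + 5)) = B' i'
  hx' : h (K - 1) = x'
  hP : ∀ i' < i, ∃ b, h (4 * i' + 2) = P i' b false ∧ h (4 * i' + 3) = P i' b true ∧
    h (K - (4 * i' + 3)) = P' i' b false ∧ h (K - (4 * i' + 4)) = P' i' b true

theorem HoleSeq.ne_t (H : HoleSeq n m lit h K t) {p : ℕ} (hp : p < K) (hy : h p ≠ y) : p ≠ t := by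
  rintro rfl
  exact hy H.ht

theorem HoleSeq.inv0 (H : HoleSeq n m lit h K t) : Inv h K t 0 := by
  have hK := H.hK
  have ht0 := H.ht0
  have htK := H.htK
  -- the other neighbour of `x`
  have hx' : h (K - 1) = x' := by
    have h1 : adj n m lit (h 0) (h (K - 1)) = true :=
      (H.adj_iff 0 (K - 1) (by omega) (by omega)).2 (Or.inr ⟨rfl, by omega⟩)
    have h2 : h (K - 1) ≠ h 1 := H.ne (by omega) (by omega) (by omega)
    rw [H.h0] at h1
    rw [H.h1] at h2
    revert h1 h2
    generalize h (K - 1) = z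
    intro h1 h2
    cases z <;> simp_all [adj, adj0]
  have ha' : h (K - 2) = A' 0 := by
    have h1 := H.succ (p := K - 2) (by omega)
    rw [show K - 2 + 1 = K - 1 by omega, hx'] at h1
    have h2 : h (K - 2) ≠ h 0 := H.ne (by omega) (by omega) (by omega)
    rw [H.h0] at h2
    revert h1 h2
    generalize h (K - 2) = z
    intro h1 h2
    cases z <;> simp_all [adj, adj0]
  have h1 : t ≠ 1 := (H.ne_t (by omega) (by rw [H.h1]; simp)).symm
  have h2 : t ≠ K - 1 := (H.ne_t (by omega) (by rw [hx']; simp)).symm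
  have h3 : t ≠ K - 2 := (H.ne_t (by omega) (by rw [ha']; simp)).symm
  refine ⟨by omega, by omega, H.h1, ha', ?_, ?_, hx', ?_⟩ <;>
  · intro i' hi'
    omega


theorem HoleSeq.nbr (H : HoleSeq n m lit h K t) {p q : ℕ} (hp : 0 < p) (hp' : p + 1 < K)
    (hq : q < K) (ha : adj n m lit (h p) (h q) = true) : q = p + 1 ∨ q + 1 = p := by
  rcases lt_trichotomy p q with h1 | h1 | h1
  · rcases (H.adj_iff p q h1 hq).1 ha with h2 | h2 <;> omega
  · subst h1
    rw [adj_irrefl] at ha
    exact absurd ha (by decide)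
  · rw [adj_symm] at ha
    rcases (H.adj_iff q p h1 (by omega)).1 ha with h2 | h2 <;> omega

theorem HoleSeq.invS (H : HoleSeq n m lit h K t) {i : ℕ} (hi : i < n) (I : Inv h K t i) :
    Inv h K t (i + 1) := by
  obtain ⟨lt1, lt2, ha, ha', hb, hb', hx', hP⟩ := I
  have hK := H.hK
  obtain ⟨p, hp⟩ : ∃ p, p = 4 * i + 1 := ⟨_, rfl⟩
  obtain ⟨q, hq⟩ : ∃ q, q = K - (4 * i + 2) := ⟨_, rfl⟩
  rw [← hp] at ha
  rw [← hq] at ha'
  have hpt : p < t := by omega
  have htq : t < q := by omega
  have h0 := H.h0
  -- step z1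
  have hz1 : ∃ b, h (p + 1) = P i b false := by
    have e1 := H.succ (p := p) (by omega)
    rw [ha] at e1
    rcases nb_A e1 with ⟨e2, _⟩ | e2 | ⟨i', e2, e3⟩ | ⟨e2, _⟩
    · exact absurd (H.inj (p + 1) 0 (by omega) (by omega) (by rw [e2, h0])) (by omega)
    · exact e2
    · exact absurd (H.inj (p + 1) (4 * i' + 4) (by omega) (by omega)
        (by rw [e3, hb i' (by omega)])) (by omega)
    · omega
  obtain ⟨b, hz1⟩ := hz1
  have t1 : p + 1 ≠ t := H.ne_t (by omega) (by rw [hz1]; simp)
  have hw1 : ∃ b', h (q - 1) = P' i b' false := by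
    have e1 := H.succ (p := q - 1) (by omega)
    rw [show q - 1 + 1 = q by omega] at e1
    rw [ha', adj_symm] at e1
    rcases nb_A' e1 with ⟨e2, _⟩ | e2 | ⟨i', e2, e3⟩ | ⟨e2, _⟩
    · exact absurd (H.inj (q - 1) (K - 1) (by omega) (by omega) (by rw [e2, hx'])) (by omega)
    · exact e2
    · exact absurd (H.inj (q - 1) (K - (4 * i' + 5)) (by omega) (by omega)
        (by rw [e3, hb' i' (by omega)])) (by omega)
    · omega
  obtain ⟨b', hw1⟩ := hw1
  have t2 : q - 1 ≠ t := H.ne_t (by omega) (by rw [hw1]; simp)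
  have hbb : b' = b := by
    have e := H.cross (p := p + 1) (q := q - 1) (by omega) (by omega) (by omega)
    rw [hz1, hw1] at e
    by_contra hne
    have : b' = !b := by revert hne; cases b <;> cases b' <;> simp
    rw [this, ad_P_P'] at e
    exact absurd e (by simp)
  subst hbb
  have hw2 : h (q - 2) = P' i b' true := by
    have e1 := H.succ (p := q - 2) (by omega)
    rw [show q - 2 + 1 = q - 1 by omega] at e1
    rw [hw1, adj_symm] at e1
    rcases nb_P'1 e1 with e2 | e2 | e2
    · exact absurd (H.inj (q - 2) q (by omega) (by omega) (by rw [e2, ha'])) (by omega)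
    · exact e2
    · have c1 := H.cross (p := p) (q := q - 2) (by omega) (by omega) (by omega)
      rw [ha, e2, ad_A_P] at c1
      exact absurd c1 (by simp)
  have t3 : q - 2 ≠ t := H.ne_t (by omega) (by rw [hw2]; simp)
  have hz2 : h (p + 2) = P i b' true := by
    have e1 := H.succ (p := p + 1) (by omega)
    rw [hz1, show p + 1 + 1 = p + 2 by omega] at e1
    rcases nb_P1 e1 with e2 | e2 | e2 | ⟨j, k, e2, e3⟩
    · exact absurd (H.inj (p + 2) p (by omega) (by omega) (by rw [e2, ha])) (by omega)
    · exact e2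
    · have c1 := H.cross (p := p + 2) (q := q) (by omega) (by omega) (by omega)
      rw [ha', e2, adj_symm, ad_A'_P'] at c1
      exact absurd c1 (by simp)
    · have t4 : p + 2 ≠ t := H.ne_t (by omega) (by rw [e3]; simp)
      have c1 := H.cross (p := p + 2) (q := q - 2) (by omega) (by omega) (by omega)
      rw [hw2, e3, ad_v_P' e2] at c1
      exact absurd c1 (by simp)
  have t4 : p + 2 ≠ t := H.ne_t (by omega) (by rw [hz2]; simp)
  have hw3 : h (q - 3) = B' i := by
    have e1 := H.succ (p := q - 3) (by omega)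
    rw [show q - 3 + 1 = q - 2 by omega] at e1
    rw [hw2, adj_symm] at e1
    rcases nb_P'2 e1 with e2 | e2 | e2 | ⟨j, k, e2, e3⟩
    · exact absurd (H.inj (q - 3) (q - 1) (by omega) (by omega) (by rw [e2, hw1])) (by omega)
    · exact e2
    · have t5 : q - 3 ≠ t := H.ne_t (by omega) (by rw [e2]; simp)
      have f1 := H.succ (p := q - 4) (by omega)
      rw [show q - 4 + 1 = q - 3 by omega] at f1
      rw [e2, adj_symm] at f1
      rcases nb_P2 f1 with f2 | f2 | f2
      · have c1 := H.cross (p := p) (q := q - 4) (by omega) (by omega) (by omega)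
        rw [ha, f2, ad_A_P] at c1
        exact absurd c1 (by simp)
      · have t6 : q - 4 ≠ t := H.ne_t (by omega) (by rw [f2]; simp)
        have c1 := H.cross (p := p + 2) (q := q - 4) (by omega) (by omega) (by omega)
        rw [hz2, f2, ad_P_B] at c1
        exact absurd c1 (by simp)
      · rw [Bool.not_not] at f2
        exact absurd (H.inj (q - 4) (q - 2) (by omega) (by omega) (by rw [f2, hw2])) (by omega)
    · have c1 := H.cross (p := p + 1) (q := q - 3) (by omega) (by omega) (by omega)
      rw [hz1, e3, adj_symm, ad_v_P e2] at c1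
      exact absurd c1 (by simp)
  have t5 : q - 3 ≠ t := H.ne_t (by omega) (by rw [hw3]; simp)
  have hz3 : h (p + 3) = B i := by
    have e1 := H.succ (p := p + 2) (by omega)
    rw [hz2, show p + 2 + 1 = p + 3 by omega] at e1
    rcases nb_P2 e1 with e2 | e2 | e2
    · exact absurd (H.inj (p + 3) (p + 1) (by omega) (by omega) (by rw [e2, hz1])) (by omega)
    · exact e2
    · have t6 : p + 3 ≠ t := H.ne_t (by omega) (by rw [e2]; simp)
      have c1 := H.cross (p := p + 3) (q := q - 3) (by omega) (by omega) (by omega)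
      rw [hw3, e2, ad_P'_B'] at c1
      exact absurd c1 (by simp)
  have t6 : p + 3 ≠ t := H.ne_t (by omega) (by rw [hz3]; simp)
  have hz4 : h (p + 4) = A (i + 1) := by
    have e1 := H.succ (p := p + 3) (by omega)
    rw [hz3, show p + 3 + 1 = p + 4 by omega] at e1
    rcases nb_B e1 with ⟨b, e2⟩ | e2
    · by_cases hbb : b = b'
      · subst hbb
        exact absurd (H.inj (p + 4) (p + 2) (by omega) (by omega) (by rw [e2, hz2])) (by omega)
      · have hb2 : b = !b' := by revert hbb; cases b <;> cases b' <;> simp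
        have c1 := H.cross (p := p + 4) (q := q - 2) (by omega) (by omega) (by omega)
        rw [hw2, e2, hb2, ad_P_P'2] at c1
        exact absurd c1 (by simp)
    · exact e2
  have t7 : p + 4 ≠ t := H.ne_t (by omega) (by rw [hz4]; simp)
  have hw4 : h (q - 4) = A' (i + 1) := by
    have e1 := H.succ (p := q - 4) (by omega)
    rw [show q - 4 + 1 = q - 3 by omega] at e1
    rw [hw3, adj_symm] at e1
    rcases nb_B' e1 with ⟨b, e2⟩ | e2
    · by_cases hbb : b = b'
      · subst hbb
        exact absurd (H.inj (q - 4) (q - 2) (by omega) (by omega) (by rw [e2, hw2])) (by omega)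
      · have hb2 : b = !b' := by revert hbb; cases b <;> cases b' <;> simp
        have c1 := H.cross (p := p + 2) (q := q - 4) (by omega) (by omega) (by omega)
        rw [hz2, e2, hb2, ad_P_P'] at c1
        exact absurd c1 (by simp)
    · exact e2
  have t8 : q - 4 ≠ t := H.ne_t (by omega) (by rw [hw4]; simp)
  refine ⟨by omega, by omega, ?_, ?_, ?_, ?_, hx', ?_⟩
  · rw [show 4 * (i + 1) + 1 = p + 4 by omega]
    exact hz4
  · rw [show K - (4 * (i + 1) + 2) = q - 4 by omega]
    exact hw4
  · intro i' hi'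
    rcases Nat.lt_succ_iff_lt_or_eq.1 hi' with h1 | h1
    · exact hb i' h1
    · subst h1
      rw [show 4 * i' + 4 = p + 3 by omega]
      exact hz3
  · intro i' hi'
    rcases Nat.lt_succ_iff_lt_or_eq.1 hi' with h1 | h1
    · exact hb' i' h1
    · subst h1
      rw [show K - (4 * i' + 5) = q - 3 by omega]
      exact hw3
  · intro i' hi'
    rcases Nat.lt_succ_iff_lt_or_eq.1 hi' with h1 | h1
    · exact hP i' h1
    · subst h1
      refine ⟨b', ?_, ?_, ?_, ?_⟩
      · rw [show 4 * i' + 2 = p + 1 by omega]; exact hz1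
      · rw [show 4 * i' + 3 = p + 2 by omega]; exact hz2
      · rw [show K - (4 * i' + 3) = q - 1 by omega]; exact hw1
      · rw [show K - (4 * i' + 4) = q - 2 by omega]; exact hw2

theorem HoleSeq.invn (H : HoleSeq n m lit h K t) : ∀ i, i ≤ n → Inv h K t i := by
  intro i
  induction i with
  | zero => intro _; exact H.inv0
  | succ i ih => intro hi; exact H.invS (by omega) (ih (by omega))

/-- Soundness: a hole through `x` and `y` gives a satisfying assignment. -/
theorem HoleSeq.sat (H : HoleSeq n m lit h K t) :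
    ∃ σ : ℕ → Bool, ∀ j < m, ∃ k l, lit j k = some l ∧ l.1 < n ∧ σ l.1 = l.2 := by
  obtain ⟨lt1, lt2, ha, ha', hb, hb', hx', hP⟩ := H.invn n le_rfl
  have hK := H.hK
  choose! σ hσ using hP
  refine ⟨σ, ?_⟩
  have hA : ∀ i < n, h (4 * i + 1) = A i := fun i hi => (H.invn i (by omega)).ha
  -- clause vertices of the hole are satisfied
  have hv : ∀ s < K, ∀ j k, h s = v j k → ∃ l, lit j k = some l ∧ l.1 < n ∧ σ l.1 = l.2 := by
    intro s hs j k hsv
    have e := H.val s hs
    rw [hsv] at e
    simp only [valid, Bool.and_eq_true, decide_eq_true_eq] at e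
    cases hl : lit j k with
    | none => rw [hl] at e; simp at e
    | some l =>
      rw [hl] at e
      simp at e
      refine ⟨l, rfl, e.2, ?_⟩
      by_contra hne
      have h2 : l.2 = !(σ l.1) := by
        revert hne
        cases σ l.1 <;> cases l.2 <;> simp
      have e1 := (hσ l.1 e.2).1
      have e2 : adj n m lit (h (4 * l.1 + 2)) (h s) = true := by
        rw [e1, hsv]
        simp [adj, adj0, hl, ← h2]
      rcases H.nbr (by omega) (by omega) hs e2 with h3 | h3
      · rw [h3, show 4 * l.1 + 2 + 1 = 4 * l.1 + 3 by omega, (hσ l.1 e.2).2.1] at hsv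
        exact absurd hsv (by simp)
      · rw [show s = 4 * l.1 + 1 by omega, hA l.1 e.2] at hsv
        exact absurd hsv (by simp)
  -- traversal of the clause gadgets
  have key : ∀ j, j ≤ m → (∀ j' ≤ j, h (4 * n + 2 + 2 * j') = c j') ∧ 4 * n + 2 + 2 * j < t ∧
      ∀ j' < j, ∃ k, h (4 * n + 3 + 2 * j') = v j' k := by
    intro j
    induction j with
    | zero =>
      intro _
      have hz : h (4 * n + 2) = c 0 := by
        have e1 := H.succ (p := 4 * n + 1) (by omega)
        rw [ha, show 4 * n + 1 + 1 = 4 * n + 2 by omega] at e1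
        rcases nb_A e1 with ⟨e2, _⟩ | ⟨b, e2⟩ | ⟨i', e2, e3⟩ | ⟨_, e2⟩
        · exact absurd (H.inj (4 * n + 2) 0 (by omega) (by omega) (by rw [e2, H.h0])) (by omega)
        · have := H.val (4 * n + 2) (by omega)
          rw [e2] at this
          simp [valid] at this
        · exact absurd (H.inj (4 * n + 2) (4 * i' + 4) (by omega) (by omega)
            (by rw [e3, hb i' (by omega)])) (by omega)
        · exact e2
      have t1 : 4 * n + 2 ≠ t := H.ne_t (by omega) (by rw [hz]; simp)
      refine ⟨?_, by omega, fun j' hj' => absurd hj' (by omega)⟩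
      intro j' hj'
      have : j' = 0 := by omega
      subst this
      exact hz
    | succ j ih =>
      intro hj
      obtain ⟨hc, hlt, hvs⟩ := ih (by omega)
      have hz : ∃ k, h (4 * n + 2 + 2 * j + 1) = v j k := by
        have e1 := H.succ (p := 4 * n + 2 + 2 * j) (by omega)
        rw [hc j le_rfl] at e1
        rcases nb_c e1 with ⟨e2, _⟩ | e2 | ⟨j', k, e2, e3⟩ | ⟨_, e2⟩
        · exact absurd (H.inj (4 * n + 2 + 2 * j + 1) (4 * n + 1) (by omega) (by omega)
            (by rw [e2, ha])) (by omega)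
        · exact e2
        · have e4 : adj n m lit (h (4 * n + 2 + 2 * j')) (h (4 * n + 2 + 2 * j + 1)) = true := by
            rw [hc j' (by omega), e3]
            simp [adj, adj0]
          rcases H.nbr (by omega) (by omega) (by omega) e4 with h3 | h3 <;> omega
        · omega
      obtain ⟨k, hz⟩ := hz
      have t1 : 4 * n + 2 + 2 * j + 1 ≠ t := H.ne_t (by omega) (by rw [hz]; simp)
      obtain ⟨l, hl1, hl2, hl3⟩ := hv _ (by omega) j k hz
      have hz2 : h (4 * n + 2 + 2 * (j + 1)) = c (j + 1) := by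
        have e1 := H.succ (p := 4 * n + 2 + 2 * j + 1) (by omega)
        rw [hz] at e1
        rw [show 4 * n + 2 + 2 * j + 1 + 1 = 4 * n + 2 + 2 * (j + 1) by omega] at e1
        rcases nb_v e1 with e2 | e2 | ⟨i, b, e2, e3⟩ | ⟨i, b, e2, e3⟩
        · exact absurd (H.inj (4 * n + 2 + 2 * (j + 1)) (4 * n + 2 + 2 * j) (by omega) (by omega)
            (by rw [e2, hc j le_rfl])) (by omega)
        · exact e2
        · rw [hl1] at e2
          simp only [Option.some.injEq] at e2
          subst e2
          have e4 : adj n m lit (h (4 * i + 1)) (h (4 * n + 2 + 2 * (j + 1))) = true := by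
            rw [hA i hl2, e3]
            exact ad_A_P
          simp only at hl2
          rcases H.nbr (by omega) (by omega) (by omega) e4 with h3 | h3 <;> omega
        · rw [hl1] at e2
          simp only [Option.some.injEq] at e2
          subst e2
          simp only at hl2 hl3
          have e4 : adj n m lit (h (4 * i + 3)) (h (4 * n + 2 + 2 * (j + 1))) = true := by
            rw [(hσ i hl2).2.1, e3, hl3]
            exact ad_P_P'2
          rcases H.nbr (by omega) (by omega) (by omega) e4 with h3 | h3 <;> omega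
      have t2 : 4 * n + 2 + 2 * (j + 1) ≠ t := H.ne_t (by omega) (by rw [hz2]; simp)
      refine ⟨?_, by omega, ?_⟩
      · intro j' hj'
        rcases Nat.le_succ_iff.1 hj' with h1 | h1
        · exact hc j' h1
        · rw [h1]
          exact hz2
      intro j' hj'
      rcases Nat.lt_succ_iff_lt_or_eq.1 hj' with h1 | h1
      · exact hvs j' h1
      · subst h1
        exact ⟨k, by rw [show 4 * n + 3 + 2 * j' = 4 * n + 2 + 2 * j' + 1 by omega]; exact hz⟩
  intro j hj
  obtain ⟨k, hk⟩ := (key m le_rfl).2.2 j hj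
  obtain ⟨l, hl⟩ := hv _ (by have := (key m le_rfl).2.1; omega) j k hk
  exact ⟨k, l, hl⟩

/-! ### From embeddings of cycles to sequences -/

open Fin.NatCast Fin.CommRing

/-- The graph on a type of vertices labelled by `lab`. -/
def LG (n m : ℕ) (lit : ℕ → ℕ → Option (ℕ × Bool)) {V : Type*} (lab : V → Lb) : SimpleGraph V where
  Adj u w := adj n m lit (lab u) (lab w) = true
  symm := ⟨fun u w h => by rw [adj_symm]; exact h⟩
  loopless := ⟨fun u h => by rw [adj_irrefl] at h; exact absurd h (by simp)⟩

theorem fin_cast_sub {k : ℕ} {a b : ℕ} (hab : a < b) (hb : b < k + 2) :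
    (((b : ℕ) : Fin (k + 2)) - ((a : ℕ) : Fin (k + 2)) = 1 ↔ b = a + 1) ∧
    (((a : ℕ) : Fin (k + 2)) - ((b : ℕ) : Fin (k + 2)) = 1 ↔ (a = 0 ∧ b + 1 = k + 2)) := by
  constructor
  · rw [sub_eq_iff_eq_add, Fin.ext_iff, Fin.val_add, Fin.val_natCast, Fin.val_natCast]
    rw [Nat.mod_eq_of_lt hb, Nat.mod_eq_of_lt (show a < k + 2 by omega)]
    have : ((1 : Fin (k + 2)) : ℕ) = 1 := by simp
    rw [this, Nat.mod_eq_of_lt (by omega)]
    omega
  · rw [sub_eq_iff_eq_add, Fin.ext_iff, Fin.val_add, Fin.val_natCast, Fin.val_natCast]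
    rw [Nat.mod_eq_of_lt hb, Nat.mod_eq_of_lt (show a < k + 2 by omega)]
    have : ((1 : Fin (k + 2)) : ℕ) = 1 := by simp
    rw [this]
    rcases Nat.lt_or_ge (1 + b) (k + 2) with h | h
    · rw [Nat.mod_eq_of_lt h]
      omega
    · have : 1 + b = k + 2 := by omega
      rw [this, Nat.mod_self]
      omega

theorem exists_seq {V : Type*} {lab : V → Lb} (hlab : Function.Injective lab)
    (hval : ∀ u, valid n m lit (lab u) = true)
    {K : ℕ} (hK : 4 ≤ K) (e : SimpleGraph.cycleGraph K ↪g LG n m lit lab)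
    {i j : Fin K} (hi : lab (e i) = x) (hj : lab (e j) = y) :
    ∃ h t, HoleSeq n m lit h K t := by
  obtain ⟨k, rfl⟩ : ∃ k, K = k + 2 := ⟨K - 2, by omega⟩
  -- a general sequence
  have gen : ∀ ε : Fin (k + 2), (ε = 1 ∨ ε = -1) → lab (e (i + ε)) = A 0 →
      ∃ h t, HoleSeq n m lit h (k + 2) t := by
    intro ε hε hA
    have hεε : ε * ε = 1 := by rcases hε with h | h <;> rw [h] <;> ring
    refine ⟨fun s => lab (e (i + ε * (s : Fin (k + 2)))), (ε * (j - i)).val, ?_⟩
    have hinj : ∀ a b, a < k + 2 → b < k + 2 →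
        lab (e (i + ε * (a : Fin (k + 2)))) = lab (e (i + ε * (b : Fin (k + 2)))) → a = b := by
      intro a b ha hb hab
      have h1 := e.injective (hlab hab)
      have h2 : ε * (a : Fin (k + 2)) = ε * (b : Fin (k + 2)) := add_left_cancel h1
      have h3 : ε * (ε * (a : Fin (k + 2))) = ε * (ε * (b : Fin (k + 2))) := by rw [h2]
      rw [← mul_assoc, ← mul_assoc, hεε, one_mul, one_mul] at h3
      rw [Fin.ext_iff, Fin.val_natCast, Fin.val_natCast, Nat.mod_eq_of_lt ha,
        Nat.mod_eq_of_lt hb] at h3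
      exact h3
    have hadj : ∀ a b, a < b → b < k + 2 →
        (adj n m lit (lab (e (i + ε * (a : Fin (k + 2))))) (lab (e (i + ε * (b : Fin (k + 2)))))
          = true ↔ b = a + 1 ∨ (a = 0 ∧ b + 1 = k + 2)) := by
      intro a b hab hb
      have h1 : adj n m lit (lab (e (i + ε * (a : Fin (k + 2)))))
          (lab (e (i + ε * (b : Fin (k + 2))))) = true ↔
          (LG n m lit lab).Adj (e (i + ε * (a : Fin (k + 2)))) (e (i + ε * (b : Fin (k + 2)))) :=
        Iff.rfl
      rw [h1, e.map_adj_iff, SimpleGraph.cycleGraph_adj]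
      obtain ⟨f1, f2⟩ := fin_cast_sub (k := k) hab hb
      rw [← f1, ← f2]
      rcases hε with h | h
      · rw [h]
        constructor
        · rintro (h2 | h2)
          · right; linear_combination h2
          · left; linear_combination h2
        · rintro (h2 | h2)
          · right; linear_combination h2
          · left; linear_combination h2
      · rw [h]
        constructor
        · rintro (h2 | h2)
          · left; linear_combination h2
          · right; linear_combination h2
        · rintro (h2 | h2)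
          · left; linear_combination h2
          · right; linear_combination h2
    have ht : lab (e (i + ε * (((ε * (j - i)).val : ℕ) : Fin (k + 2)))) = y := by
      rw [Fin.cast_val_eq_self, ← mul_assoc, hεε, one_mul, add_sub_cancel]
      exact hj
    refine ⟨hK, fun a _ => hval _, hinj, hadj, ?_, ?_, ht, ?_, ?_⟩
    · simp [hi]
    · simp [hA]
    · rcases Nat.eq_zero_or_pos (ε * (j - i)).val with h0 | h0
      · rw [h0] at ht
        simp [hi] at ht
      · exact h0
    · exact (ε * (j - i)).isLt
  have hne : (1 : Fin (k + 2)) ≠ -1 := by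
    intro h
    have h1 : (1 : Fin (k + 2)) - (-1) = 0 := by rw [← h, sub_self]
    have h2 : ((2 : ℕ) : Fin (k + 2)) = 0 := by
      rw [← h1]; push_cast; ring
    rw [Fin.ext_iff, Fin.val_natCast, Nat.mod_eq_of_lt (by omega)] at h2
    simp at h2
  have hadj1 : ∀ ε : Fin (k + 2), (ε = 1 ∨ ε = -1) →
      adj n m lit x (lab (e (i + ε))) = true := by
    intro ε hε
    rw [← hi]
    change (LG n m lit lab).Adj (e i) (e (i + ε))
    rw [e.map_adj_iff, SimpleGraph.cycleGraph_adj]
    rcases hε with h | h
    · right; rw [h]; ring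
    · left; rw [h]; ring
  have hx : ∀ z, adj n m lit x z = true → z = A 0 ∨ z = x' := by
    intro z hz
    cases z <;> simp_all [adj, adj0]
  rcases hx _ (hadj1 1 (Or.inl rfl)) with h1 | h1
  · exact gen 1 (Or.inl rfl) h1
  · rcases hx _ (hadj1 (-1) (Or.inr rfl)) with h2 | h2
    · exact gen (-1) (Or.inr rfl) h2
    · exfalso
      have h3 := e.injective (hlab (h1.trans h2.symm))
      exact hne (add_left_cancel h3)

/-! ### Completeness: from a satisfying assignment to a hole -/

section compl

variable (n m) (σ : ℕ → Bool) (κ : ℕ → ℕ)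

/-- the length of the hole -/
def len : ℕ := 8 * n + 2 * m + 6

/-- the vertices of the hole in cyclic order -/
def sq (s : ℕ) : Lb :=
  if s = 0 then x
  else if s ≤ 4 * n + 1 then
    (if (s - 1) % 4 = 0 then A ((s - 1) / 4)
    else if (s - 1) % 4 = 1 then P ((s - 1) / 4) (σ ((s - 1) / 4)) false
    else if (s - 1) % 4 = 2 then P ((s - 1) / 4) (σ ((s - 1) / 4)) true
    else B ((s - 1) / 4))
  else if s ≤ 4 * n + 2 * m + 2 then
    (if (s - (4 * n + 2)) % 2 = 0 then c ((s - (4 * n + 2)) / 2)
    else v ((s - (4 * n + 2)) / 2) (κ ((s - (4 * n + 2)) / 2)))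
  else if s = 4 * n + 2 * m + 3 then y
  else if s + 1 = len n m then x'
  else
    (if (len n m - 2 - s) % 4 = 0 then A' ((len n m - 2 - s) / 4)
    else if (len n m - 2 - s) % 4 = 1 then P' ((len n m - 2 - s) / 4)
      (σ ((len n m - 2 - s) / 4)) false
    else if (len n m - 2 - s) % 4 = 2 then P' ((len n m - 2 - s) / 4)
      (σ ((len n m - 2 - s) / 4)) true
    else B' ((len n m - 2 - s) / 4))

/-- position of a vertex on the hole -/
def pos : Lb → ℕ
  | x => 0
  | A i => 4 * i + 1
  | P i _ false => 4 * i + 2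
  | P i _ true => 4 * i + 3
  | B i => 4 * i + 4
  | c j => 4 * n + 2 + 2 * j
  | v j _ => 4 * n + 3 + 2 * j
  | y => 4 * n + 2 * m + 3
  | x' => len n m - 1
  | A' i => len n m - 2 - 4 * i
  | P' i _ false => len n m - 2 - (4 * i + 1)
  | P' i _ true => len n m - 2 - (4 * i + 2)
  | B' i => len n m - 2 - (4 * i + 3)

/-- the vertices on the hole -/
def inS : Lb → Prop
  | x => True
  | x' => True
  | y => True
  | A i => i ≤ n
  | A' i => i ≤ n
  | P i b _ => i < n ∧ b = σ i
  | P' i b _ => i < n ∧ b = σ i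
  | B i => i < n
  | B' i => i < n
  | c j => j ≤ m
  | v j k => j < m ∧ k = κ j

theorem sq_spec (s : ℕ) (hs : s < len n m) :
    inS n m σ κ (sq n m σ κ s) ∧ pos n m (sq n m σ κ s) = s := by
  unfold sq
  unfold len at *
  split_ifs <;> simp only [inS, pos, len, and_true, true_and] <;> omega

theorem pos_spec (z : Lb) (hz : inS n m σ κ z) :
    pos n m z < len n m ∧ sq n m σ κ (pos n m z) = z := by
  cases z with
  | x => exact ⟨by simp [pos, len], by simp [pos, sq]⟩
  | x' =>
    refine ⟨by simp only [pos, len]; omega, ?_⟩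
    have : (len n m - 1) + 1 = len n m := by simp only [len]; omega
    have h1 : ¬ (len n m - 1 = 0) := by simp only [len]; omega
    have h2 : ¬ (len n m - 1 ≤ 4 * n + 1) := by simp only [len]; omega
    have h3 : ¬ (len n m - 1 ≤ 4 * n + 2 * m + 2) := by simp only [len]; omega
    have h4 : ¬ (len n m - 1 = 4 * n + 2 * m + 3) := by simp only [len]; omega
    simp [pos, sq, this, h1, h2, h3, h4]
  | y =>
    refine ⟨by simp only [pos, len]; omega, ?_⟩
    have h2 : ¬ (4 * n + 2 * m + 3 ≤ 4 * n + 1) := by omega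
    simp [pos, sq, h2]
  | A i =>
    simp only [inS] at hz
    refine ⟨by simp only [pos, len]; omega, ?_⟩
    have h2 : (4 * i + 1 ≤ 4 * n + 1) := by omega
    have h3 : (4 * i + 1 - 1) % 4 = 0 := by omega
    have h4 : (4 * i + 1 - 1) / 4 = i := by omega
    simp only [pos, sq, h2, h3, h4, if_true]
    simp
  | A' i =>
    simp only [inS] at hz
    refine ⟨by simp only [pos, len]; omega, ?_⟩
    have h1 : ¬ (len n m - 2 - 4 * i = 0) := by simp only [len]; omega
    have h2 : ¬ (len n m - 2 - 4 * i ≤ 4 * n + 1) := by simp only [len]; omega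
    have h3 : ¬ (len n m - 2 - 4 * i ≤ 4 * n + 2 * m + 2) := by simp only [len]; omega
    have h4 : ¬ (len n m - 2 - 4 * i = 4 * n + 2 * m + 3) := by simp only [len]; omega
    have h5 : ¬ (len n m - 2 - 4 * i + 1 = len n m) := by simp only [len]; omega
    have h6 : (len n m - 2 - (len n m - 2 - 4 * i)) % 4 = 0 := by simp only [len]; omega
    have h7 : (len n m - 2 - (len n m - 2 - 4 * i)) / 4 = i := by simp only [len]; omega
    simp only [pos, sq, h1, h2, h3, h4, h5, h6, h7, if_true, if_false]
  | P i b r =>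
    simp only [inS] at hz
    obtain ⟨hz, rfl⟩ := hz
    cases r
    · refine ⟨by simp only [pos, len]; omega, ?_⟩
      have h2 : (4 * i + 2 ≤ 4 * n + 1) := by omega
      have h3 : (4 * i + 2 - 1) % 4 = 1 := by omega
      have h4 : (4 * i + 2 - 1) / 4 = i := by omega
      simp only [pos, sq, h2, h3, h4, if_true]
      simp
    · refine ⟨by simp only [pos, len]; omega, ?_⟩
      have h2 : (4 * i + 3 ≤ 4 * n + 1) := by omega
      have h3 : (4 * i + 3 - 1) % 4 = 2 := by omega
      have h4 : (4 * i + 3 - 1) / 4 = i := by omega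
      simp only [pos, sq, h2, h3, h4, if_true]
      simp
  | P' i b r =>
    simp only [inS] at hz
    obtain ⟨hz, rfl⟩ := hz
    cases r
    · refine ⟨by simp only [pos, len]; omega, ?_⟩
      have h1 : ¬ (len n m - 2 - (4 * i + 1) = 0) := by simp only [len]; omega
      have h2 : ¬ (len n m - 2 - (4 * i + 1) ≤ 4 * n + 1) := by simp only [len]; omega
      have h3 : ¬ (len n m - 2 - (4 * i + 1) ≤ 4 * n + 2 * m + 2) := by simp only [len]; omega
      have h4 : ¬ (len n m - 2 - (4 * i + 1) = 4 * n + 2 * m + 3) := by simp only [len]; omega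
      have h5 : ¬ (len n m - 2 - (4 * i + 1) + 1 = len n m) := by simp only [len]; omega
      have h6 : (len n m - 2 - (len n m - 2 - (4 * i + 1))) % 4 = 1 := by simp only [len]; omega
      have h7 : (len n m - 2 - (len n m - 2 - (4 * i + 1))) / 4 = i := by simp only [len]; omega
      simp only [pos, sq, h1, h2, h3, h4, h5, h6, h7, if_true, if_false]
      simp
    · refine ⟨by simp only [pos, len]; omega, ?_⟩
      have h1 : ¬ (len n m - 2 - (4 * i + 2) = 0) := by simp only [len]; omega
      have h2 : ¬ (len n m - 2 - (4 * i + 2) ≤ 4 * n + 1) := by simp only [len]; omega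
      have h3 : ¬ (len n m - 2 - (4 * i + 2) ≤ 4 * n + 2 * m + 2) := by simp only [len]; omega
      have h4 : ¬ (len n m - 2 - (4 * i + 2) = 4 * n + 2 * m + 3) := by simp only [len]; omega
      have h5 : ¬ (len n m - 2 - (4 * i + 2) + 1 = len n m) := by simp only [len]; omega
      have h6 : (len n m - 2 - (len n m - 2 - (4 * i + 2))) % 4 = 2 := by simp only [len]; omega
      have h7 : (len n m - 2 - (len n m - 2 - (4 * i + 2))) / 4 = i := by simp only [len]; omega
      simp only [pos, sq, h1, h2, h3, h4, h5, h6, h7, if_true, if_false]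
      simp
  | B i =>
    simp only [inS] at hz
    refine ⟨by simp only [pos, len]; omega, ?_⟩
    have h2 : (4 * i + 4 ≤ 4 * n + 1) := by omega
    have h3 : (4 * i + 4 - 1) % 4 = 3 := by omega
    have h4 : (4 * i + 4 - 1) / 4 = i := by omega
    simp only [pos, sq, h2, h3, h4, if_true]
    simp
  | B' i =>
    simp only [inS] at hz
    refine ⟨by simp only [pos, len]; omega, ?_⟩
    have h1 : ¬ (len n m - 2 - (4 * i + 3) = 0) := by simp only [len]; omega
    have h2 : ¬ (len n m - 2 - (4 * i + 3) ≤ 4 * n + 1) := by simp only [len]; omega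
    have h3 : ¬ (len n m - 2 - (4 * i + 3) ≤ 4 * n + 2 * m + 2) := by simp only [len]; omega
    have h4 : ¬ (len n m - 2 - (4 * i + 3) = 4 * n + 2 * m + 3) := by simp only [len]; omega
    have h5 : ¬ (len n m - 2 - (4 * i + 3) + 1 = len n m) := by simp only [len]; omega
    have h6 : (len n m - 2 - (len n m - 2 - (4 * i + 3))) % 4 = 3 := by simp only [len]; omega
    have h7 : (len n m - 2 - (len n m - 2 - (4 * i + 3))) / 4 = i := by simp only [len]; omega
    simp only [pos, sq, h1, h2, h3, h4, h5, h6, h7, if_true, if_false]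
    simp
  | c j =>
    simp only [inS] at hz
    refine ⟨by simp only [pos, len]; omega, ?_⟩
    have h1 : ¬ (4 * n + 2 + 2 * j = 0) := by omega
    have h2 : ¬ (4 * n + 2 + 2 * j ≤ 4 * n + 1) := by omega
    have h3 : (4 * n + 2 + 2 * j ≤ 4 * n + 2 * m + 2) := by omega
    have h4 : (4 * n + 2 + 2 * j - (4 * n + 2)) % 2 = 0 := by omega
    have h5 : (4 * n + 2 + 2 * j - (4 * n + 2)) / 2 = j := by omega
    simp only [pos, sq, h1, h2, h3, h4, h5, if_true, if_false]
  | v j k =>
    simp only [inS] at hz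
    obtain ⟨hz, rfl⟩ := hz
    refine ⟨by simp only [pos, len]; omega, ?_⟩
    have h1 : ¬ (4 * n + 3 + 2 * j = 0) := by omega
    have h2 : ¬ (4 * n + 3 + 2 * j ≤ 4 * n + 1) := by omega
    have h3 : (4 * n + 3 + 2 * j ≤ 4 * n + 2 * m + 2) := by omega
    have h4 : (4 * n + 3 + 2 * j - (4 * n + 2)) % 2 = 1 := by omega
    have h5 : (4 * n + 3 + 2 * j - (4 * n + 2)) / 2 = j := by omega
    simp only [pos, sq, h1, h2, h3, h4, h5, if_true, if_false]
    simp

variable {n m σ κ}

theorem adj0_pos (hκ : ∀ j < m, ∃ l, lit j (κ j) = some l ∧ l.1 < n ∧ σ l.1 = l.2)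
    (u w : Lb) (hu : inS n m σ κ u) (hw : inS n m σ κ w) (h : adj0 n m lit u w = true) :
    pos n m w = pos n m u + 1 ∨ pos n m u = pos n m w + 1 ∨
      (pos n m u = 0 ∧ pos n m w + 1 = len n m) := by
  cases u <;> cases w <;> simp only [adj0, Bool.false_eq_true] at h
  case x.A i => simp only [decide_eq_true_eq] at h; subst h; left; rfl
  case x.x' => right; right; exact ⟨rfl, by simp only [pos, len]; omega⟩
  case x'.A' i =>
    simp only [decide_eq_true_eq] at h; subst h; right; left; simp only [pos, len]; omega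
  case A.P i i' b r =>
    simp only [Bool.and_eq_true, decide_eq_true_eq, Bool.not_eq_true'] at h
    obtain ⟨rfl, rfl⟩ := h
    left; rfl
  case A.c i j =>
    simp only [Bool.and_eq_true, decide_eq_true_eq] at h
    obtain ⟨rfl, rfl⟩ := h
    left; simp only [pos]
  case A'.y i =>
    simp only [decide_eq_true_eq] at h; subst h; right; left; simp only [pos, len]; omega
  case A'.P' i i' b r =>
    simp only [Bool.and_eq_true, decide_eq_true_eq, Bool.not_eq_true'] at h
    obtain ⟨rfl, rfl⟩ := h
    simp only [inS] at hu hw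
    right; left; simp only [pos, len]; omega
  case P.P i b r i' b' r' =>
    simp only [Bool.and_eq_true, decide_eq_true_eq, Bool.not_eq_true'] at h
    obtain ⟨⟨⟨rfl, rfl⟩, rfl⟩, rfl⟩ := h
    left; rfl
  case P.P' i b r i' b' r' =>
    simp only [Bool.and_eq_true, decide_eq_true_eq] at h
    obtain ⟨⟨rfl, rfl⟩, rfl⟩ := h
    simp only [inS] at hu hw
    have h1 := hw.2
    rw [hu.2] at h1
    cases hb : σ i <;> simp [hb] at h1
  case P.B i b r i' =>
    simp only [Bool.and_eq_true, decide_eq_true_eq] at h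
    obtain ⟨rfl, rfl⟩ := h
    left; rfl
  case P'.P' i b r i' b' r' =>
    simp only [Bool.and_eq_true, decide_eq_true_eq, Bool.not_eq_true'] at h
    obtain ⟨⟨⟨rfl, rfl⟩, rfl⟩, rfl⟩ := h
    simp only [inS] at hu hw
    right; left; simp only [pos, len]; omega
  case P'.B' i b r i' =>
    simp only [Bool.and_eq_true, decide_eq_true_eq] at h
    obtain ⟨rfl, rfl⟩ := h
    simp only [inS] at hu hw
    right; left; simp only [pos, len]; omega
  case B.A i i' =>
    simp only [decide_eq_true_eq] at h; subst h; left; simp only [pos]; omega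
  case B'.A' i i' =>
    simp only [decide_eq_true_eq] at h; subst h
    simp only [inS] at hu hw
    right; left; simp only [pos, len]; omega
  case c.y j =>
    simp only [decide_eq_true_eq] at h; subst h; left; simp only [pos]; omega
  case c.v j j' k =>
    simp only [decide_eq_true_eq] at h; subst h; left; simp only [pos]; omega
  case v.c j k j' =>
    simp only [decide_eq_true_eq] at h; subst h; left; simp only [pos]; omega
  case v.P j k i b r =>
    simp only [Bool.and_eq_true, decide_eq_true_eq, Bool.not_eq_true'] at h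
    simp only [inS] at hu hw
    obtain ⟨l, hl1, hl2, hl3⟩ := hκ j hu.1
    rw [hu.2, hl1] at h
    simp only [Option.some.injEq] at h
    rw [h.2] at hl3
    simp only at hl3
    rw [hw.2] at hl3
    cases hb : σ i <;> simp [hb] at hl3
  case v.P' j k i b r =>
    simp only [Bool.and_eq_true, decide_eq_true_eq] at h
    simp only [inS] at hu hw
    obtain ⟨l, hl1, hl2, hl3⟩ := hκ j hu.1
    rw [hu.2, hl1] at h
    simp only [Option.some.injEq] at h
    rw [h.2] at hl3
    simp only at hl3
    rw [hw.2] at hl3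
    cases hb : σ i <;> simp [hb] at hl3

/-- every vertex of the hole is adjacent to the next one -/
theorem next_adj (u : Lb) (hu : inS n m σ κ u) (hlt : pos n m u + 1 < len n m) :
    ∃ w, inS n m σ κ w ∧ pos n m w = pos n m u + 1 ∧ adj n m lit u w = true := by
  cases u with
  | x => exact ⟨A 0, by simp [inS], rfl, by simp [adj, adj0]⟩
  | x' => simp only [pos, len] at hlt; omega
  | y =>
    refine ⟨A' n, by simp [inS], ?_, by simp [adj, adj0]⟩
    simp only [pos, len]; omega
  | A i =>
    simp only [inS] at hu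
    rcases Nat.lt_or_ge i n with h | h
    · exact ⟨P i (σ i) false, by simp [inS, h], rfl, by simp [adj, adj0]⟩
    · have : i = n := by omega
      subst this
      exact ⟨c 0, by simp [inS], by simp only [pos], by simp [adj, adj0]⟩
  | A' i =>
    simp only [inS] at hu
    cases i with
    | zero =>
      refine ⟨x', by simp [inS], ?_, by simp [adj, adj0]⟩
      simp only [pos, len]; omega
    | succ i =>
      refine ⟨B' i, by simp only [inS]; omega, ?_, by simp [adj, adj0]⟩
      simp only [pos, len]; omega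
  | P i b r =>
    simp only [inS] at hu
    obtain ⟨hi, rfl⟩ := hu
    cases r
    · exact ⟨P i (σ i) true, by simp [inS, hi], rfl, by simp [adj, adj0]⟩
    · exact ⟨B i, by simp [inS, hi], rfl, by simp [adj, adj0]⟩
  | P' i b r =>
    simp only [inS] at hu
    obtain ⟨hi, rfl⟩ := hu
    cases r
    · refine ⟨A' i, by simp only [inS]; omega, ?_, by simp [adj, adj0]⟩
      simp only [pos, len]; omega
    · refine ⟨P' i (σ i) false, by simp [inS, hi], ?_, by simp [adj, adj0]⟩
      simp only [pos, len]; omega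
  | B i =>
    simp only [inS] at hu
    refine ⟨A (i + 1), by simp only [inS]; omega, ?_, by simp [adj, adj0]⟩
    simp only [pos]; omega
  | B' i =>
    simp only [inS] at hu
    refine ⟨P' i (σ i) true, by simp [inS, hu], ?_, by simp [adj, adj0]⟩
    simp only [pos, len]; omega
  | c j =>
    simp only [inS] at hu
    rcases Nat.lt_or_ge j m with h | h
    · refine ⟨v j (κ j), by simp [inS, h], ?_, by simp [adj, adj0]⟩
      simp only [pos]; omega
    · have : j = m := by omega
      subst this
      refine ⟨y, by simp [inS], ?_, by simp [adj, adj0]⟩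
      simp only [pos]; omega
  | v j k =>
    simp only [inS] at hu
    refine ⟨c (j + 1), by simp only [inS]; omega, ?_, by simp [adj, adj0]⟩
    simp only [pos]; omega

theorem sq_inj {a b : ℕ} (ha : a < len n m) (hb : b < len n m)
    (h : sq n m σ κ a = sq n m σ κ b) : a = b := by
  rw [← (sq_spec n m σ κ a ha).2, h, (sq_spec n m σ κ b hb).2]

theorem sq_adj (hκ : ∀ j < m, ∃ l, lit j (κ j) = some l ∧ l.1 < n ∧ σ l.1 = l.2)
    {a b : ℕ} (hab : a < b) (hb : b < len n m) :
    adj n m lit (sq n m σ κ a) (sq n m σ κ b) = true ↔ b = a + 1 ∨ (a = 0 ∧ b + 1 = len n m) := by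
  obtain ⟨ha1, ha2⟩ := sq_spec n m σ κ a (by omega)
  obtain ⟨hb1, hb2⟩ := sq_spec n m σ κ b hb
  constructor
  · intro h
    unfold adj at h
    rw [Bool.or_eq_true] at h
    rcases h with h | h
    · have := adj0_pos hκ _ _ ha1 hb1 h
      rw [ha2, hb2] at this
      omega
    · have := adj0_pos hκ _ _ hb1 ha1 h
      rw [ha2, hb2] at this
      omega
  · rintro (rfl | ⟨rfl, h⟩)
    · obtain ⟨w, hw1, hw2, hw3⟩ := next_adj (lit := lit) _ ha1 (by rw [ha2]; exact hb)
      have := (pos_spec n m σ κ w hw1).2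
      rw [hw2, ha2] at this
      rw [this]
      exact hw3
    · have h1 : sq n m σ κ 0 = x := by simp [sq]
      have h2 : sq n m σ κ b = x' := by
        have := (pos_spec n m σ κ x' trivial).2
        have h3 : pos n m x' = b := by simp only [pos]; omega
        rw [h3] at this
        exact this
      rw [h1, h2]
      simp [adj, adj0]

theorem inS_valid (hκ : ∀ j < m, ∃ l, lit j (κ j) = some l ∧ l.1 < n ∧ σ l.1 = l.2)
    (u : Lb) (hu : inS n m σ κ u) : valid n m lit u = true := by
  cases u <;> simp only [inS] at hu <;> simp only [valid, decide_eq_true_eq] <;>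
    (first | exact hu | exact hu.1 | skip)
  obtain ⟨h1, rfl⟩ := hu
  obtain ⟨l, hl1, hl2, _⟩ := hκ _ h1
  simp [h1, hl1, hl2]

/-- Completeness: a satisfying assignment gives a hole through `x` and `y`. -/
theorem exists_hole (hκ : ∀ j < m, ∃ l, lit j (κ j) = some l ∧ l.1 < n ∧ σ l.1 = l.2)
    {V : Type*} {lab : V → Lb} (hlab : Function.Injective lab)
    (hsurj : ∀ z, valid n m lit z = true → ∃ u, lab u = z) :
    ∃ K, 4 ≤ K ∧ ∃ e : SimpleGraph.cycleGraph K ↪g LG n m lit lab,
      (∃ i, lab (e i) = x) ∧ (∃ j, lab (e j) = y) := by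
  obtain ⟨u0, _⟩ := hsurj x rfl
  haveI : Nonempty V := ⟨u0⟩
  choose! g hg using hsurj
  have hgs : ∀ s < len n m, lab (g (sq n m σ κ s)) = sq n m σ κ s := fun s hs =>
    hg _ (inS_valid hκ _ (sq_spec n m σ κ s hs).1)
  obtain ⟨k, hk⟩ : ∃ k, len n m = k + 2 := ⟨len n m - 2, by simp only [len]; omega⟩
  have hinj : Function.Injective (fun s : Fin (k + 2) => g (sq n m σ κ s)) := by
    intro a b hab
    have h1 := congrArg lab hab
    simp only at h1
    rw [hgs _ (by rw [hk]; exact a.isLt), hgs _ (by rw [hk]; exact b.isLt)] at h1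
    exact Fin.ext (sq_inj (by rw [hk]; exact a.isLt) (by rw [hk]; exact b.isLt) h1)
  have hlt : ∀ a b : Fin (k + 2), a < b →
      ((LG n m lit lab).Adj (g (sq n m σ κ a)) (g (sq n m σ κ b)) ↔
        (SimpleGraph.cycleGraph (k + 2)).Adj a b) := by
    intro a b hab
    have h1 : (LG n m lit lab).Adj (g (sq n m σ κ a)) (g (sq n m σ κ b)) ↔
      adj n m lit (lab (g (sq n m σ κ a))) (lab (g (sq n m σ κ b))) = true := Iff.rfl
    rw [h1, hgs _ (by rw [hk]; exact a.isLt), hgs _ (by rw [hk]; exact b.isLt)]
    rw [sq_adj hκ (show (a : ℕ) < b from hab) (by rw [hk]; exact b.isLt)]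
    rw [SimpleGraph.cycleGraph_adj, hk]
    obtain ⟨f1, f2⟩ := fin_cast_sub (k := k) (show (a : ℕ) < b from hab) b.isLt
    rw [Fin.cast_val_eq_self, Fin.cast_val_eq_self] at f1 f2
    rw [← f1, ← f2]
    tauto
  refine ⟨k + 2, by rw [← hk]; simp only [len]; omega,
    ⟨⟨fun s => g (sq n m σ κ s), hinj⟩, ?_⟩, ?_, ?_⟩
  · intro a b
    simp only [Function.Embedding.coeFn_mk]
    rcases lt_trichotomy a b with h | h | h
    · exact hlt a b h
    · subst h
      simp
    · rw [SimpleGraph.adj_comm, hlt b a h, SimpleGraph.adj_comm]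
  · refine ⟨0, ?_⟩
    change lab (g (sq n m σ κ ((0 : Fin (k + 2)) : ℕ))) = x
    rw [hgs _ (by simp [hk])]
    simp [sq]
  · refine ⟨⟨4 * n + 2 * m + 3, by rw [← hk]; simp only [len]; omega⟩, ?_⟩
    change lab (g (sq n m σ κ (4 * n + 2 * m + 3))) = y
    rw [hgs _ (by simp only [len]; omega)]
    have := (pos_spec n m σ κ y trivial).2
    simpa [pos] using this

end compl

/-- The main combinatorial statement. -/
theorem main {V : Type*} {lab : V → Lb} (hlab : Function.Injective lab)
    (hsurj : ∀ z, valid n m lit z = true ↔ ∃ u, lab u = z) :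
    (∃ K, 4 ≤ K ∧ ∃ e : SimpleGraph.cycleGraph K ↪g LG n m lit lab,
      (∃ i, lab (e i) = x) ∧ (∃ j, lab (e j) = y)) ↔
    ∃ σ : ℕ → Bool, ∀ j < m, ∃ k l, lit j k = some l ∧ l.1 < n ∧ σ l.1 = l.2 := by
  constructor
  · rintro ⟨K, hK, e, ⟨i, hi⟩, ⟨j, hj⟩⟩
    obtain ⟨h, t, H⟩ := exists_seq hlab (fun u => (hsurj _).2 ⟨u, rfl⟩) hK e hi hj
    exact H.sat
  · rintro ⟨σ, hσ⟩
    choose! κ hκ using hσ
    exact exists_hole (σ := σ) (κ := κ) hκ hlab fun z hz => (hsurj z).1 hz

end

end Pool.Agent.H671R2.Hole
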