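import Pool.Agent.H671R2.Hole
import Pool.Agent.H671R2.BSat

/-!
# Codes for the labels of the common-hole reduction; polynomial time
-/

namespace Pool.Agent.H671R2.Hole

open Pool.Agent.NPC Pool.Agent.NPC.R671 Lb

/-- label codes: a tag, two numbers and two booleans -/
abbrev Cd := ℕ × (ℕ × ℕ) × (Bool × Bool)

/-- the code of a label -/
def code : Lb → Cd
  | x => (0, (0, 0), (false, false))
  | x' => (1, (0, 0), (false, false))
  | y => (2, (0, 0), (false, false))
  | A i => (3, (i, 0), (false, false))
  | A' i => (4, (i, 0), (false, false))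
  | P i b r => (5, (i, 0), (b, r))
  | P' i b r => (6, (i, 0), (b, r))
  | B i => (7, (i, 0), (false, false))
  | B' i => (8, (i, 0), (false, false))
  | c j => (9, (j, 0), (false, false))
  | v j k => (10, (j, k), (false, false))

/-- formulas -/
abbrev Φ := List (List (Bool × ℕ))

/-- the literal in position `k` of clause `j` -/
def lit (φ : Φ) (j k : ℕ) : Option (ℕ × Bool) := ((φ.getD j [])[k]?).map (fun l => (l.2, l.1))

/-- the tag test -/
def tg (a b : Cd) (s t : ℕ) : Bool := decide (a.1 = s) && decide (b.1 = t)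

/-- half of the adjacency on codes -/
def ad0 (φ : Φ) (n m : ℕ) (a b : Cd) : Bool :=
  (tg a b 0 3 && decide (b.2.1.1 = 0)) ||
  (tg a b 0 1) ||
  (tg a b 1 4 && decide (b.2.1.1 = 0)) ||
  (tg a b 3 5 && (decide (a.2.1.1 = b.2.1.1) && !b.2.2.2)) ||
  (tg a b 5 5 && (decide (a.2.1.1 = b.2.1.1) && decide (a.2.2.1 = b.2.2.1) && !a.2.2.2 &&
    b.2.2.2)) ||
  (tg a b 5 7 && (decide (a.2.1.1 = b.2.1.1) && a.2.2.2)) ||
  (tg a b 7 3 && decide (b.2.1.1 = a.2.1.1 + 1)) ||
  (tg a b 4 6 && (decide (a.2.1.1 = b.2.1.1) && !b.2.2.2)) ||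
  (tg a b 6 6 && (decide (a.2.1.1 = b.2.1.1) && decide (a.2.2.1 = b.2.2.1) && !a.2.2.2 &&
    b.2.2.2)) ||
  (tg a b 6 8 && (decide (a.2.1.1 = b.2.1.1) && a.2.2.2)) ||
  (tg a b 8 4 && decide (b.2.1.1 = a.2.1.1 + 1)) ||
  (tg a b 5 6 && (decide (a.2.1.1 = b.2.1.1) && decide (b.2.2.1 = !a.2.2.1) &&
    decide (a.2.2.2 = b.2.2.2))) ||
  (tg a b 10 5 && (!b.2.2.2 && decide (lit φ a.2.1.1 a.2.1.2 = some (b.2.1.1, !b.2.2.1)))) ||
  (tg a b 10 6 && (b.2.2.2 && decide (lit φ a.2.1.1 a.2.1.2 = some (b.2.1.1, !b.2.2.1)))) ||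
  (tg a b 3 9 && (decide (a.2.1.1 = n) && decide (b.2.1.1 = 0))) ||
  (tg a b 9 10 && decide (a.2.1.1 = b.2.1.1)) ||
  (tg a b 10 9 && decide (b.2.1.1 = a.2.1.1 + 1)) ||
  (tg a b 9 2 && decide (a.2.1.1 = m)) ||
  (tg a b 4 2 && decide (a.2.1.1 = n))

theorem ad0_code (φ : Φ) (n m : ℕ) (u w : Lb) :
    ad0 φ n m (code u) (code w) = adj0 n m (lit φ) u w := by
  cases u <;> cases w <;> simp [ad0, code, adj0, tg] <;> congr

/-- adjacency on codes -/
def ad (φ : Φ) (n m : ℕ) (a b : Cd) : Bool := ad0 φ n m a b || ad0 φ n m b a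

theorem ad_code (φ : Φ) (n m : ℕ) (u w : Lb) :
    ad φ n m (code u) (code w) = adj n m (lit φ) u w := by
  unfold ad adj
  rw [ad0_code, ad0_code]

/-- the list of vertices -/
def vl (φ : Φ) (n m : ℕ) : List Lb :=
  [x, y, x'] ++ ((List.range (n + 1)).map A ++ ((List.range (n + 1)).map A' ++
  ((List.range n).flatMap (fun i => [P i false false, P i false true, P i true false,
    P i true true]) ++
  ((List.range n).flatMap (fun i => [P' i false false, P' i false true, P' i true false,
    P' i true true]) ++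
  ((List.range n).map B ++ ((List.range n).map B' ++ ((List.range (m + 1)).map c ++
  (List.range m).flatMap (fun j => ((List.range n).filter (fun k =>
    (lit φ j k).any (fun l => decide (l.1 < n)))).map (fun k => v j k)))))))))

/-- the list of the codes of the vertices -/
def vc (φ : Φ) (n m : ℕ) : List Cd :=
  [(0, (0, 0), (false, false)), (2, (0, 0), (false, false)), (1, (0, 0), (false, false))] ++
  ((List.range (n + 1)).map (fun i => (3, (i, 0), (false, false))) ++
  ((List.range (n + 1)).map (fun i => (4, (i, 0), (false, false))) ++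
  ((List.range n).flatMap (fun i => [(5, (i, 0), (false, false)), (5, (i, 0), (false, true)),
    (5, (i, 0), (true, false)), (5, (i, 0), (true, true))]) ++
  ((List.range n).flatMap (fun i => [(6, (i, 0), (false, false)), (6, (i, 0), (false, true)),
    (6, (i, 0), (true, false)), (6, (i, 0), (true, true))]) ++
  ((List.range n).map (fun i => (7, (i, 0), (false, false))) ++
  ((List.range n).map (fun i => (8, (i, 0), (false, false))) ++
  ((List.range (m + 1)).map (fun i => (9, (i, 0), (false, false))) ++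
  (List.range m).flatMap (fun j => ((List.range n).filter (fun k =>
    (lit φ j k).any (fun l => decide (l.1 < n)))).map
      (fun k => (10, (j, k), (false, false)))))))))))

theorem vl_map (φ : Φ) (n m : ℕ) : (vl φ n m).map code = vc φ n m := by
  simp [vl, vc, code, List.map_flatMap, Function.comp_def]

theorem lit_lt {φ : Φ} {j k : ℕ} {l : ℕ × Bool} (h : lit φ j k = some l) :
    k < φ.flatten.length := by
  unfold lit at h
  rw [Option.map_eq_some_iff] at h
  obtain ⟨l', h, _⟩ := h
  obtain ⟨h1, _⟩ := List.getElem?_eq_some_iff.1 h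
  rw [List.getD_eq_getElem?_getD] at h1
  cases hj : φ[j]? with
  | none => rw [hj] at h1; simp at h1
  | some cl =>
    rw [hj] at h1
    simp only [Option.getD_some] at h1
    have h2 : cl ∈ φ := List.mem_of_getElem? hj
    exact lt_of_lt_of_le h1 (List.Sublist.length_le (List.sublist_flatten_of_mem h2))

theorem mem_vl (φ : Φ) (m : ℕ) (z : Lb) :
    z ∈ vl φ φ.flatten.length m ↔ valid φ.flatten.length m (lit φ) z = true := by
  unfold vl
  cases z with
  | x => simp [valid]
  | x' => simp [valid]
  | y => simp [valid]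
  | A i => simp [valid]
  | A' i => simp [valid]
  | P i b r => cases b <;> cases r <;> simp [valid]
  | P' i b r => cases b <;> cases r <;> simp [valid]
  | B i => simp [valid]
  | B' i => simp [valid]
  | c i => simp [valid]
  | v j k =>
    simp only [List.cons_append, List.nil_append, List.mem_cons, reduceCtorEq, List.mem_append,
      List.mem_map, List.mem_range, and_false, exists_false, List.mem_flatMap, List.not_mem_nil,
      or_self, false_or, List.mem_filter, Lb.v.injEq, valid, Bool.and_eq_true, decide_eq_true_eq]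
    constructor
    · rintro ⟨j', hj', k', ⟨h1, h2⟩, rfl, rfl⟩
      exact ⟨hj', h2⟩
    · rintro ⟨h1, h2⟩
      refine ⟨j, h1, k, ⟨?_, h2⟩, rfl, rfl⟩
      rw [Option.any_eq_true] at h2
      obtain ⟨l, hl, _⟩ := h2
      exact lit_lt hl

theorem vl_nodup (φ : Φ) (n m : ℕ) : (vl φ n m).Nodup := by
  unfold vl
  have hr : ∀ {f : ℕ → Lb} {N : ℕ}, Function.Injective f → ((List.range N).map f).Nodup :=
    fun hf => (List.nodup_range).map hf
  simp only [List.nodup_append]
  refine ⟨by simp, ⟨hr (fun a b h => by simpa using h), ⟨hr (fun a b h => by simpa using h),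
    ⟨?_, ⟨?_, ⟨hr (fun a b h => by simpa using h), ⟨hr (fun a b h => by simpa using h),
    ⟨hr (fun a b h => by simpa using h), ?_, ?_⟩, ?_⟩, ?_⟩, ?_⟩, ?_⟩, ?_⟩, ?_⟩, ?_⟩
  · rw [List.nodup_flatMap]
    refine ⟨fun i _ => by simp, ?_⟩
    refine List.Pairwise.imp ?_ (List.nodup_range (n := n))
    intro a b hab
    simp [Function.onFun, List.Disjoint, hab]
  · rw [List.nodup_flatMap]
    refine ⟨fun i _ => by simp, ?_⟩
    refine List.Pairwise.imp ?_ (List.nodup_range (n := n))
    intro a b hab
    simp [Function.onFun, List.Disjoint, hab]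
  · rw [List.nodup_flatMap]
    refine ⟨fun i _ => ?_, ?_⟩
    · exact ((List.nodup_range).filter _).map (fun a b h => by simpa using h)
    · refine List.Pairwise.imp ?_ (List.nodup_range (n := m))
      intro a b hab
      simp only [Function.onFun, List.Disjoint, List.mem_map, List.mem_filter]
      rintro z ⟨k, _, rfl⟩ ⟨k', _, h⟩
      simp only [Lb.v.injEq] at h
      exact hab h.1.symm
  all_goals
    simp only [List.mem_append, List.mem_map, List.mem_flatMap, List.mem_range, List.mem_filter,
      List.mem_cons, List.not_mem_nil, or_false]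
    intro a ha b hb hab
    subst hab
    cases a <;> simp at ha hb

/-! ### Polynomial time -/

theorem lit_poly {α : Type} [TEnc α] {φ : α → Φ} {j k : α → ℕ} (h1 : Poly φ) (h2 : Poly j)
    (h3 : Poly k) : Poly (fun a => lit (φ a) (j a) (k a)) := by
  unfold lit
  fun_prop

attribute [fun_prop] lit_poly

theorem tg_poly {α : Type} [TEnc α] {a b : α → Cd} {s t : ℕ} (h1 : Poly a) (h2 : Poly b) :
    Poly (fun x => tg (a x) (b x) s t) := by
  unfold tg
  fun_prop

attribute [fun_prop] tg_poly

theorem ad0_poly : Poly (fun x : (Φ × ℕ × ℕ) × Cd × Cd =>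
    ad0 x.1.1 x.1.2.1 x.1.2.2 x.2.1 x.2.2) := by
  unfold ad0
  fun_prop

attribute [local irreducible] ad0

theorem ad_poly : Poly (fun x : (Φ × ℕ × ℕ) × Cd × Cd =>
    ad x.1.1 x.1.2.1 x.1.2.2 x.2.1 x.2.2) := by
  unfold ad
  exact Poly.or ad0_poly (ad0_poly.comp (Poly.pair (Poly.fst Poly.id)
    (Poly.pair (Poly.snd (Poly.snd Poly.id)) (Poly.fst (Poly.snd Poly.id)))))

attribute [local irreducible] lit

/-- the test for the literal vertices -/
def tst (φ : Φ) (j k : ℕ) : Bool := (lit φ j k).any (fun l => decide (l.1 < φ.flatten.length))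

theorem tst_poly : Poly (fun x : (Φ × ℕ) × ℕ => tst x.1.1 x.1.2 x.2) := by
  unfold tst
  exact NPC.Poly.optAny_fp (o := fun x : (Φ × ℕ) × ℕ => lit x.1.1 x.1.2 x.2)
    (h := fun x l => decide (l.1 < x.1.1.flatten.length)) (by fun_prop) (by fun_prop)

attribute [local irreducible] tst

/-- the part of the vertex list with fixed clause -/
def vp1 (φ : Φ) (j : ℕ) : List Cd :=
  ((List.range φ.flatten.length).filter (fun k => tst φ j k)).map
      (fun k => (10, (j, k), (false, false)))

theorem vp1_poly : Poly (fun x : Φ × ℕ => vp1 x.1 x.2) := by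
  have h1 : UPoly (fun φ : Φ => φ.flatten.length) :=
    UPoly.length (by fun_prop)
  unfold vp1
  refine NPC.Poly.map (l := fun x : Φ × ℕ => (List.range x.1.flatten.length).filter
      (fun k => tst x.1 x.2 k))
    (F := fun x k => ((10, (x.2, k), (false, false)) : Cd)) ?_ (by fun_prop)
  exact NPC.Poly.filter (l := fun x : Φ × ℕ => List.range x.1.flatten.length)
    (p := fun x k => tst x.1 x.2 k)
    (h1.range.comp (NPC.Poly.fst NPC.Poly.id)) tst_poly

attribute [local irreducible] vp1

theorem vpart_poly : Poly (fun φ : Φ => (List.range φ.length).flatMap (fun j => vp1 φ j)) := by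
  have h2 : UPoly (fun φ : Φ => φ.length) :=
    UPoly.length (by fun_prop)
  exact NPC.Poly.flatMap (l := fun φ : Φ => List.range φ.length)
    (F := fun φ j => vp1 φ j) h2.range vp1_poly

theorem vc_poly : Poly (fun φ : Φ => vc φ φ.flatten.length φ.length) := by
  have h1 : UPoly (fun φ : Φ => φ.flatten.length) :=
    UPoly.length (by fun_prop)
  have h2 : UPoly (fun φ : Φ => φ.length) :=
    UPoly.length (by fun_prop)
  have h3 : UPoly (fun φ : Φ => φ.flatten.length + 1) := h1.add (UPoly.const 1)
  have h5 : UPoly (fun φ : Φ => φ.length + 1) := h2.add (UPoly.const 1)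
  have g1 := h1.range
  have g2 := h2.range
  have g3 := h3.range
  have g5 := h5.range
  have g6 := vpart_poly
  unfold vp1 tst at g6
  unfold vc
  refine NPC.Poly.append (NPC.Poly.const _) ?_
  refine NPC.Poly.append (by fun_prop) ?_
  refine NPC.Poly.append (by fun_prop) ?_
  refine NPC.Poly.append (by fun_prop) ?_
  refine NPC.Poly.append (by fun_prop) ?_
  refine NPC.Poly.append (by fun_prop) ?_
  refine NPC.Poly.append (by fun_prop) ?_
  refine NPC.Poly.append (by fun_prop) ?_
  exact g6

attribute [local irreducible] ad vc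

theorem row_poly : Poly (fun x : Φ × Cd =>
    (vc x.1 x.1.flatten.length x.1.length).map
      (fun w => ad x.1 x.1.flatten.length x.1.length x.2 w)) :=
  NPC.Poly.map (l := fun x : Φ × Cd => vc x.1 x.1.flatten.length x.1.length)
    (F := fun x w => ad x.1 x.1.flatten.length x.1.length x.2 w)
    (vc_poly.comp (Poly.fst Poly.id))
    (ad_poly.comp (Poly.pair (Poly.pair (Poly.fst (Poly.fst Poly.id))
      (Poly.pair (Poly.length (Poly.flatten (Poly.fst (Poly.fst Poly.id))))
        (Poly.length (Poly.fst (Poly.fst Poly.id)))))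
      (Poly.pair (Poly.snd (Poly.fst Poly.id)) (Poly.snd Poly.id))))

theorem adj_poly : Poly (fun φ : Φ =>
    (vc φ φ.flatten.length φ.length).map (fun u =>
      (vc φ φ.flatten.length φ.length).map (fun w => ad φ φ.flatten.length φ.length u w))) :=
  NPC.Poly.map vc_poly (F := fun φ u => (vc φ φ.flatten.length φ.length).map
    (fun w => ad φ φ.flatten.length φ.length u w)) row_poly

end Pool.Agent.H671R2.Hole
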