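import Pool.Agent.NPC.Dec
import Pool.Agent.H671R2.ZDefs

/-!
# Definitions: perfect graphs, holes, and the algorithmic problem
-/

namespace Pool.Agent.H671R2.Hole

open Pool.Agent.NPC Pool.Agent.NPC.R671

/-- `G` is perfect: every induced subgraph has chromatic number equal to its clique number. -/
def Perfect {V : Type*} (G : SimpleGraph V) : Prop :=
  ∀ s : Set V, (G.induce s).chromaticNumber = ((G.induce s).cliqueNum : ℕ∞)

/-- `u` and `v` lie on a common hole of `G`: some induced cycle with at least four vertices
contains both of them. -/
def OnCommonHole {V : Type*} (G : SimpleGraph V) (u v : V) : Prop :=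
  ∃ k, 4 ≤ k ∧ ∃ e : SimpleGraph.cycleGraph k ↪g G, u ∈ Set.range e ∧ v ∈ Set.range e

/-- The input, as a bit string: the adjacency matrix of `G` followed by the two vertices. -/
noncomputable def input {n : ℕ} (G : SimpleGraph (Fin n)) (u v : Fin n) : List Bool :=
  bits (adjMatrix G, (u : ℕ), (v : ℕ))

/-- There is a polynomial-time algorithm that decides, given a graph `G` with the property `C`
(the promise) and two distinct vertices of `G`, whether they lie on a common hole of `G`. -/
def PolyTimeSolvable (C : ∀ n : ℕ, SimpleGraph (Fin n) → Prop) : Prop :=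
  ∃ A : List Bool → List Bool, PolyTime A ∧ ∀ (n : ℕ) (G : SimpleGraph (Fin n)) (u v : Fin n),
    C n G → u ≠ v → (A (input G u v) = [true] ↔ OnCommonHole G u v)

/-- `P = NP`. -/
def PEqNP : Prop := ∀ L : Set (List Bool), InNP L → InP L

end Pool.Agent.H671R2.Hole
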