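import Pool.Agent.H671R2.HoleDefs

/-!
# Bipartite graphs are perfect
-/

namespace Pool.Agent.H671R2.Hole

theorem chi_eq_omega {V : Type*} [Finite V] (G : SimpleGraph V) (h : G.Colorable 2) :
    G.chromaticNumber = (G.cliqueNum : ℕ∞) := by
  classical
  apply le_antisymm _ G.cliqueNum_le_chromaticNumber
  by_cases he : ∃ a b, G.Adj a b
  · obtain ⟨a, b, hab⟩ := he
    have h1 : G.IsNClique 2 {a, b} := by
      refine ⟨?_, ?_⟩
      · rw [SimpleGraph.isClique_iff]
        intro p hp q hq hpq
        simp only [Finset.coe_insert, Finset.coe_singleton, Set.mem_insert_iff,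
          Set.mem_singleton_iff] at hp hq
        rcases hp with rfl | rfl <;> rcases hq with rfl | rfl
        · exact absurd rfl hpq
        · exact hab
        · exact hab.symm
        · exact absurd rfl hpq
      · exact Finset.card_pair hab.ne
    have h2 : 2 ≤ G.cliqueNum := by
      have := h1.isClique.card_le_cliqueNum
      rwa [h1.card_eq] at this
    calc G.chromaticNumber ≤ (2 : ℕ) := h.chromaticNumber_le
      _ ≤ (G.cliqueNum : ℕ∞) := by exact_mod_cast h2
  · push Not at he
    by_cases hne : Nonempty V
    · obtain ⟨a⟩ := hne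
      have h1 : G.IsNClique 1 {a} := by
        refine ⟨?_, by simp⟩
        simp
      have h2 : 1 ≤ G.cliqueNum := by
        have := h1.isClique.card_le_cliqueNum
        rwa [h1.card_eq] at this
      have h3 : G.Colorable 1 := ⟨SimpleGraph.Coloring.mk (fun _ => 0) (fun {p q} hpq =>
        absurd hpq (he p q))⟩
      calc G.chromaticNumber ≤ (1 : ℕ) := h3.chromaticNumber_le
        _ ≤ (G.cliqueNum : ℕ∞) := by exact_mod_cast h2
    · rw [not_nonempty_iff] at hne
      have h3 : G.Colorable 0 := ⟨SimpleGraph.Coloring.mk (fun v => (hne.false v).elim)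
        (fun {p q} hpq => absurd hpq (he p q))⟩
      calc G.chromaticNumber ≤ (0 : ℕ) := h3.chromaticNumber_le
        _ ≤ (G.cliqueNum : ℕ∞) := by simp

/-- Bipartite graphs are perfect. -/
theorem perfect_of_colorable {V : Type*} [Finite V] (G : SimpleGraph V) (h : G.Colorable 2) :
    Perfect G := by
  intro s
  apply chi_eq_omega
  obtain ⟨C⟩ := h
  exact ⟨C.comp (SimpleGraph.Embedding.induce s).toHom⟩

end Pool.Agent.H671R2.Hole
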