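import Pool.Agent.H671R2.HoleCode
import Pool.Agent.H671R2.HolePerfect

/-!
# Hardness of the common hole problem for bipartite graphs
-/

namespace Pool.Agent.H671R2.Hole

open Pool.Agent.NPC Pool.Agent.NPC.R671 Lb

theorem bsat_iff (φ : Φ) : BSat φ ↔ ∃ σ : ℕ → Bool, ∀ j < φ.length,
    ∃ k l, lit φ j k = some l ∧ l.1 < φ.flatten.length ∧ σ l.1 = l.2 := by
  unfold BSat
  refine exists_congr fun σ => ?_
  constructor
  · intro h j hj
    obtain ⟨l, hl, h1, h2⟩ := h φ[j] (List.getElem_mem hj)
    obtain ⟨k, hk, hk'⟩ := List.getElem_of_mem hl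
    refine ⟨k, (l.2, l.1), ?_, h1, h2⟩
    unfold lit
    rw [List.getD_eq_getElem?_getD, List.getElem?_eq_getElem hj, Option.getD_some,
      List.getElem?_eq_getElem hk, hk']
    rfl
  · intro h c hc
    obtain ⟨j, hj, rfl⟩ := List.getElem_of_mem hc
    obtain ⟨k, l, hl, h1, h2⟩ := h j hj
    unfold lit at hl
    rw [List.getD_eq_getElem?_getD, List.getElem?_eq_getElem hj, Option.getD_some,
      Option.map_eq_some_iff] at hl
    obtain ⟨l', hl', rfl⟩ := hl
    exact ⟨l', List.mem_of_getElem? hl', h1, h2⟩

/-- the graph of a formula -/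
def gr (φ : Φ) : SimpleGraph (Fin (vl φ φ.flatten.length φ.length).length) :=
  listGraph (vl φ φ.flatten.length φ.length) (adj φ.flatten.length φ.length (lit φ))
    (adj_symm _ _ _) (adj_irrefl _ _ _)

theorem vl_len (φ : Φ) (n m : ℕ) : 1 < (vl φ n m).length := by
  simp [vl]

/-- the first vertex -/
def v0 (φ : Φ) : Fin (vl φ φ.flatten.length φ.length).length :=
  ⟨0, lt_trans Nat.one_pos (vl_len _ _ _)⟩

/-- the second vertex -/
def v1 (φ : Φ) : Fin (vl φ φ.flatten.length φ.length).length := ⟨1, vl_len _ _ _⟩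

theorem gr_matrix (φ : Φ) : adjMatrix (gr φ) = (vc φ φ.flatten.length φ.length).map (fun u =>
      (vc φ φ.flatten.length φ.length).map (fun w => ad φ φ.flatten.length φ.length u w)) := by
  unfold gr
  rw [adjMatrix_listGraph, ← vl_map]
  simp [List.map_map, Function.comp_def, ad_code]

theorem gr_colorable (φ : Φ) : (gr φ).Colorable 2 := by
  refine ⟨SimpleGraph.Coloring.mk (fun i => if col (vl φ φ.flatten.length φ.length)[i] = true
    then (0 : Fin 2) else 1) ?_⟩
  intro i j hij
  have h1 : adj φ.flatten.length φ.length (lit φ) (vl φ φ.flatten.length φ.length)[i]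
    (vl φ φ.flatten.length φ.length)[j] = true := hij
  have h2 := col_adj _ _ _ _ _ h1
  cases hi : col (vl φ φ.flatten.length φ.length)[i] <;>
    cases hj : col (vl φ φ.flatten.length φ.length)[j]
  · exact absurd (hi.trans hj.symm) h2
  · simp
  · simp
  · exact absurd (hi.trans hj.symm) h2

theorem gr_correct (φ : Φ) : OnCommonHole (gr φ) (v0 φ) (v1 φ) ↔ BSat φ := by
  rw [bsat_iff]
  have hinj : Function.Injective (fun i : Fin (vl φ φ.flatten.length φ.length).length =>
      (vl φ φ.flatten.length φ.length)[i]) := by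
    intro i j hij
    exact Fin.ext ((List.Nodup.getElem_inj_iff (vl_nodup φ _ _)).1 hij)
  rw [← main (lab := fun i : Fin (vl φ φ.flatten.length φ.length).length =>
      (vl φ φ.flatten.length φ.length)[i]) hinj]
  · have h0 : ∀ i : Fin (vl φ φ.flatten.length φ.length).length,
        (vl φ φ.flatten.length φ.length)[i] = x ↔ i = v0 φ := by
      intro i
      have h2 : (vl φ φ.flatten.length φ.length)[v0 φ] = x := rfl
      constructor
      · intro h
        exact hinj (h.trans h2.symm)
      · rintro rfl
        exact h2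
    have h1 : ∀ i : Fin (vl φ φ.flatten.length φ.length).length,
        (vl φ φ.flatten.length φ.length)[i] = y ↔ i = v1 φ := by
      intro i
      have h2 : (vl φ φ.flatten.length φ.length)[v1 φ] = y := rfl
      constructor
      · intro h
        exact hinj (h.trans h2.symm)
      · rintro rfl
        exact h2
    simp only [h0, h1]
    rfl
  · intro z
    rw [← mem_vl]
    constructor
    · intro hz
      obtain ⟨i, hi, hi'⟩ := List.getElem_of_mem hz
      exact ⟨⟨i, hi⟩, hi'⟩
    · rintro ⟨i, rfl⟩
      exact List.getElem_mem _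

/-- Every language in `NP` is reduced, in polynomial time, to instances of the common hole problem
on bipartite graphs. -/
theorem hard (L : Set (List Bool)) (hL : InNP L) :
    ∃ f : List Bool → List Bool, PolyTime f ∧ ∀ w, ∃ (n : ℕ) (G : SimpleGraph (Fin n))
      (u v : Fin n), f w = input G u v ∧ u ≠ v ∧ G.Colorable 2 ∧ Perfect G ∧
        (w ∈ L ↔ OnCommonHole G u v) := by
  obtain ⟨g, hg, hgL⟩ := hardI_BSat L hL
  have hp : Poly (fun φ : Φ => (((vc φ φ.flatten.length φ.length).map (fun u =>
      (vc φ φ.flatten.length φ.length).map (fun w => ad φ φ.flatten.length φ.length u w)),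
      (0 : ℕ), (1 : ℕ)) : List (List Bool) × ℕ × ℕ)) :=
    NPC.Poly.pair adj_poly (NPC.Poly.const _)
  refine ⟨fun w => bits (((vc (g w) (g w).flatten.length (g w).length).map (fun u =>
      (vc (g w) (g w).flatten.length (g w).length).map
        (fun w' => ad (g w) (g w).flatten.length (g w).length u w')),
      (0 : ℕ), (1 : ℕ)) : List (List Bool) × ℕ × ℕ), PC.toPolyTime_bits hp g hg, fun w => ?_⟩
  refine ⟨_, gr (g w), v0 (g w), v1 (g w), ?_, ?_, gr_colorable _,
    perfect_of_colorable _ (gr_colorable _), ?_⟩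
  · unfold input
    rw [gr_matrix]
    rfl
  · intro h
    have := congrArg Fin.val h
    simp [v0, v1] at this
  · rw [gr_correct, hgL w]

end Pool.Agent.H671R2.Hole
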