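import Pool.Agent.H671R2.HoleDefs
import Pool.Agent.H671R2.PolyAuto
import Pool.Agent.H671R2.Hole

/-!
# The common hole problem is in `NP`
-/

namespace Pool.Agent.H671R2.Hole.NPm

open Pool.Agent.NPC Pool.Agent.NPC.R671

/-- adjacency in the cycle with vertices `0, ..., k - 1` -/
def cyc (k i j : ℕ) : Bool :=
  decide (i + 1 = j) || decide (j + 1 = i) || (decide (i = 0) && decide (j + 1 = k)) ||
    (decide (j = 0) && decide (i + 1 = k))

open Fin.NatCast Fin.CommRing in
theorem cyc_adj_lt {k : ℕ} (a b : Fin (k + 2)) (hab : a < b) :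
    (SimpleGraph.cycleGraph (k + 2)).Adj a b ↔ cyc (k + 2) a b = true := by
  rw [SimpleGraph.cycleGraph_adj]
  obtain ⟨f1, f2⟩ := fin_cast_sub (k := k) (show (a : ℕ) < b from hab) b.isLt
  rw [Fin.cast_val_eq_self, Fin.cast_val_eq_self] at f1 f2
  rw [f1, f2]
  have : (a : ℕ) < b := hab
  simp only [cyc, Bool.or_eq_true, decide_eq_true_eq, Bool.and_eq_true]
  omega

theorem cyc_symm (k i j : ℕ) : cyc k i j = cyc k j i := by
  rw [Bool.eq_iff_iff]
  simp only [cyc, Bool.or_eq_true, decide_eq_true_eq, Bool.and_eq_true]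
  omega

theorem cyc_adj {k : ℕ} (a b : Fin (k + 2)) :
    (SimpleGraph.cycleGraph (k + 2)).Adj a b ↔ cyc (k + 2) a b = true := by
  rcases lt_trichotomy a b with h | h | h
  · exact cyc_adj_lt a b h
  · subst h
    simp only [SimpleGraph.irrefl, false_iff, Bool.not_eq_true]
    simp only [cyc, Bool.or_eq_false_iff, decide_eq_false_iff_not, Bool.and_eq_false_iff]
    omega
  · rw [SimpleGraph.adj_comm, cyc_adj_lt b a h, cyc_symm]

/-- the test of positions `i`, `j` of a certificate -/
def tst (M : List (List Bool)) (c : List ℕ) (i j : ℕ) : Bool :=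
  (!decide (c.getD i 0 = c.getD j 0) || decide (i = j)) &&
    decide ((M.getD (c.getD i 0) []).getD (c.getD j 0) false = cyc c.length i j)

/-- the verifier -/
def R (x : (List (List Bool) × ℕ × ℕ) × List ℕ) : Bool :=
  decide (4 ≤ x.2.length) && (x.2.all (fun a => decide (a < x.1.1.length)) &&
    ((List.range x.2.length).all (fun i => (List.range x.2.length).all
      (fun j => tst x.1.1 x.2 i j)) && (decide (x.1.2.1 ∈ x.2) && decide (x.1.2.2 ∈ x.2))))

theorem adj_matrix_length {n : ℕ} (G : SimpleGraph (Fin n)) : (adjMatrix G).length = n := by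
  simp [adjMatrix]

theorem adjMatrix_getD {n : ℕ} (G : SimpleGraph (Fin n)) (a b : Fin n) :
    (((adjMatrix G).getD a []).getD b false = true) ↔ G.Adj a b := by
  simp [adjMatrix, List.getD_eq_getElem?_getD]

/-- correctness of the verifier -/
theorem correct {n : ℕ} (G : SimpleGraph (Fin n)) (u v : Fin n) :
    OnCommonHole G u v ↔ ∃ w : List ℕ, R ((adjMatrix G, (u : ℕ), (v : ℕ)), w) = true := by
  constructor
  · rintro ⟨K, hK, e, ⟨i, hi⟩, ⟨j, hj⟩⟩
    obtain ⟨k, rfl⟩ : ∃ k, K = k + 2 := ⟨K - 2, by omega⟩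
    refine ⟨List.ofFn (fun s : Fin (k + 2) => (e s : ℕ)), ?_⟩
    have hget : ∀ s : ℕ, ∀ hs : s < k + 2,
        (List.ofFn (fun s : Fin (k + 2) => (e s : ℕ))).getD s 0 = (e ⟨s, hs⟩ : ℕ) := by
      intro s hs
      rw [List.getD_eq_getElem?_getD, List.getElem?_eq_getElem (by
        rw [List.length_ofFn]; exact hs), List.getElem_ofFn]
      rfl
    simp only [R, Bool.and_eq_true, decide_eq_true_eq, List.all_eq_true, List.mem_range,
      List.length_ofFn]
    refine ⟨hK, ?_, ?_, ?_, ?_⟩
    · intro a ha
      rw [List.mem_ofFn] at ha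
      obtain ⟨s, rfl⟩ := ha
      rw [adj_matrix_length]
      exact (e s).isLt
    · intro a ha b hb
      simp only [tst, Bool.and_eq_true, Bool.or_eq_true, Bool.not_eq_true', decide_eq_true_eq,
        decide_eq_false_iff_not, List.length_ofFn]
      rw [hget a ha, hget b hb]
      refine ⟨?_, ?_⟩
      · by_cases hab : a = b
        · exact Or.inr hab
        · left
          intro h
          have := e.injective (Fin.ext h)
          exact hab (congrArg Fin.val this)
      · rw [Bool.eq_iff_iff, adjMatrix_getD, e.map_adj_iff, cyc_adj]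
    · rw [List.mem_ofFn]
      exact ⟨i, by rw [hi]⟩
    · rw [List.mem_ofFn]
      exact ⟨j, by rw [hj]⟩
  · rintro ⟨w, hc⟩
    simp only [R, Bool.and_eq_true, decide_eq_true_eq, List.all_eq_true, List.mem_range] at hc
    obtain ⟨h4, hlt, htst, hu, hv⟩ := hc
    rw [adj_matrix_length] at hlt
    obtain ⟨k, hk⟩ : ∃ k, w.length = k + 2 := ⟨w.length - 2, by omega⟩
    have hget : ∀ s : ℕ, ∀ hs : s < w.length, w.getD s 0 = w[s] := by
      intro s hs
      rw [List.getD_eq_getElem?_getD, List.getElem?_eq_getElem hs]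
      rfl
    have hl : ∀ s : Fin (k + 2), (s : ℕ) < w.length := fun s => by rw [hk]; exact s.isLt
    let f : Fin (k + 2) → Fin n := fun s => ⟨w[(s : ℕ)]'(hl s), hlt _ (List.getElem_mem _)⟩
    have hf : ∀ s : Fin (k + 2), ((f s : Fin n) : ℕ) = w.getD s 0 := fun s => (hget s (hl s)).symm
    have hinj : Function.Injective f := by
      intro a b hab
      have h1 := htst a (hl a) b (hl b)
      simp only [tst, Bool.and_eq_true, Bool.or_eq_true, Bool.not_eq_true', decide_eq_true_eq,
        decide_eq_false_iff_not] at h1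
      have h2 : w.getD a 0 = w.getD b 0 := by rw [← hf a, ← hf b, hab]
      rcases h1.1 with h3 | h3
      · exact absurd h2 h3
      · exact Fin.ext h3
    refine ⟨k + 2, by omega, ⟨⟨f, hinj⟩, ?_⟩, ?_, ?_⟩
    · intro a b
      have h1 := htst a (hl a) b (hl b)
      simp only [tst, Bool.and_eq_true, Bool.or_eq_true, Bool.not_eq_true', decide_eq_true_eq,
        decide_eq_false_iff_not] at h1
      have h2 := h1.2
      rw [← hf a, ← hf b, Bool.eq_iff_iff, adjMatrix_getD, hk, ← cyc_adj] at h2
      exact h2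
    · obtain ⟨s, hs, hs'⟩ := List.getElem_of_mem hu
      exact ⟨⟨s, by omega⟩, Fin.ext hs'⟩
    · obtain ⟨s, hs, hs'⟩ := List.getElem_of_mem hv
      exact ⟨⟨s, by omega⟩, Fin.ext hs'⟩

/-- certificates are short -/
theorem cert_short {x : List (List Bool) × ℕ × ℕ} {w : List ℕ} (h : R (x, w) = true) :
    sz w ≤ x.1.length * (4 * x.1.length + 2) + 1 := by
  simp only [R, Bool.and_eq_true, decide_eq_true_eq, List.all_eq_true, List.mem_range] at h
  obtain ⟨h4, hlt, htst, _, _⟩ := h
  have hnd : w.Nodup := by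
    rw [List.nodup_iff_injective_get]
    intro a b hab
    have h1 := htst a a.isLt b b.isLt
    simp only [tst, Bool.and_eq_true, Bool.or_eq_true, Bool.not_eq_true', decide_eq_true_eq,
      decide_eq_false_iff_not] at h1
    have hget : ∀ s : Fin w.length, w.getD s 0 = w.get s := by
      intro s
      rw [List.getD_eq_getElem?_getD, List.getElem?_eq_getElem s.isLt]
      rfl
    rcases h1.1 with h2 | h2
    · exact absurd (by rw [hget a, hget b]; exact hab) h2
    · exact Fin.ext h2
  have hlen : w.length ≤ x.1.length := by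
    have h1 : w.toFinset ⊆ Finset.range x.1.length := by
      intro a ha
      rw [List.mem_toFinset] at ha
      exact Finset.mem_range.2 (hlt a ha)
    have h2 := Finset.card_le_card h1
    rw [List.toFinset_card_of_nodup hnd, Finset.card_range] at h2
    exact h2
  have hsz : ∀ a ∈ w, sz a ≤ 4 * x.1.length + 1 := by
    intro a ha
    have h1 := sz_nat_le a
    have h2 := Poly.size_le_self a
    have h3 := hlt a ha
    omega
  have h5 := sz_le_length_mul w _ hsz
  refine h5.trans ?_
  have : w.length * (4 * x.1.length + 1 + 1) ≤ x.1.length * (4 * x.1.length + 2) :=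
    Nat.mul_le_mul_right _ hlen
  omega

theorem cyc_poly {α : Type} [TEnc α] {k i j : α → ℕ} (h1 : Poly k) (h2 : Poly i) (h3 : Poly j) :
    Poly (fun a => cyc (k a) (i a) (j a)) := by
  unfold cyc
  fun_prop

attribute [fun_prop] cyc_poly

theorem tst_poly : Poly (fun x : (((List (List Bool) × ℕ × ℕ) × List ℕ) × ℕ) × ℕ =>
    tst x.1.1.1.1 x.1.1.2 x.1.2 x.2) := by
  unfold tst
  fun_prop

attribute [local irreducible] tst

theorem all_poly : Poly (fun x : (List (List Bool) × ℕ × ℕ) × List ℕ =>
    (List.range x.2.length).all (fun i => (List.range x.2.length).all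
      (fun j => tst x.1.1 x.2 i j))) := by
  have h1 : UPoly (fun x : (List (List Bool) × ℕ × ℕ) × List ℕ => x.2.length) :=
    UPoly.length (by fun_prop)
  refine NPC.Poly.all (l := fun x : (List (List Bool) × ℕ × ℕ) × List ℕ =>
    List.range x.2.length) (p := fun x i => (List.range x.2.length).all
      (fun j => tst x.1.1 x.2 i j)) h1.range ?_
  exact NPC.Poly.all (l := fun x : ((List (List Bool) × ℕ × ℕ) × List ℕ) × ℕ =>
    List.range x.1.2.length) (p := fun x j => tst x.1.1.1 x.1.2 x.2 j)
    (h1.range.comp (NPC.Poly.fst NPC.Poly.id)) tst_poly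

theorem R_poly : Poly R := by
  unfold R
  have := all_poly
  fun_prop

/-- the decision problem on arbitrary data -/
def Q (x : List (List Bool) × ℕ × ℕ) : Prop := ∃ w : List ℕ, R (x, w) = true

theorem inNPP_Q : InNPP Q := by
  refine inNPP_of (R := R) R_poly (4 * Polynomial.X ^ 2 + 2 * Polynomial.X + 1) ?_
  intro x
  unfold Q
  refine exists_congr fun w => ?_
  constructor
  · intro h
    refine ⟨(cert_short h).trans ?_, h⟩
    have h1 : x.1.length ≤ sz x := by
      obtain ⟨M, u, v⟩ := x
      have := length_lt_sz M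
      rw [sz_pair]
      simp only at this ⊢
      omega
    simp only [Polynomial.eval_add, Polynomial.eval_mul, Polynomial.eval_pow, Polynomial.eval_X,
      Polynomial.eval_ofNat, Polynomial.eval_one]
    nlinarith
  · exact fun h => h.2

/-- If `P = NP` then the common hole problem is solvable in polynomial time. -/
theorem solvable_of (h : PEqNP) : PolyTimeSolvable (fun _ _ => True) := by
  obtain ⟨A, hA, hA'⟩ := h _ inNPP_Q
  refine ⟨A, hA, fun n G u v _ _ => ?_⟩
  rw [← hA', correct]
  unfold input
  rw [bits_mem_lang]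
  rfl

end Pool.Agent.H671R2.Hole.NPm
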