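import Mathlib

/-!
# The graph of a formula: labels, adjacency, gadget analysis

Every vertex has a label; the graph `G'` has vertex set `Lb × {0,...,4}`.
-/

namespace Pool.Agent.H671R2.Ord

/-- labels of the base vertices -/
inductive Lb where
  | L (i : ℕ) (s : Bool)
  | C (j : ℕ)
  | T (j : ℕ) (b : Bool)
  | P (j k : ℕ)
  | H (j k : ℕ) (b : Bool)
  | p (j k : ℕ)
  | q (j k : ℕ)
  | r (j k : ℕ)
deriving DecidableEq

open Lb

/-- which occurrences are present -/
def occ (n m : ℕ) (lit : ℕ → ℕ → Option (ℕ × Bool)) (j k : ℕ) : Bool :=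
  decide (j < m) && (lit j k).any (fun l => decide (l.1 < n))

/-- which labels are present -/
def valid (n m : ℕ) (lit : ℕ → ℕ → Option (ℕ × Bool)) : Lb → Bool
  | L i _ => decide (i < n)
  | C j => decide (j < m)
  | T j _ => decide (j < m)
  | P j k => occ n m lit j k
  | H j k _ => occ n m lit j k
  | p j k => occ n m lit j k
  | q j k => occ n m lit j k
  | r j k => occ n m lit j k

/-- half of the adjacency -/
def adj0 (lit : ℕ → ℕ → Option (ℕ × Bool)) : Lb → Lb → Bool
  | L i false, L i' true => decide (i = i')
  | T j false, T j' true => decide (j = j')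
  | T j _, C j' => decide (j = j')
  | P j _, C j' => decide (j = j')
  | H j k false, H j' k' true => decide (j = j') && decide (k = k')
  | H j k _, p j' k' => decide (j = j') && decide (k = k')
  | H j k _, q j' k' => decide (j = j') && decide (k = k')
  | H j k _, r j' k' => decide (j = j') && decide (k = k')
  | p j k, q j' k' => decide (j = j') && decide (k = k')
  | q j k, P j' k' => decide (j = j') && decide (k = k')
  | r j k, P j' k' => decide (j = j') && decide (k = k')
  | p j k, L i s => decide (lit j k = some (i, s))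
  | r j k, L i s => decide (lit j k = some (i, s))
  | _, _ => false

/-- adjacency -/
def adj (lit : ℕ → ℕ → Option (ℕ × Bool)) (u w : Lb) : Bool := adj0 lit u w || adj0 lit w u

theorem adj_symm (lit : ℕ → ℕ → Option (ℕ × Bool)) (u w : Lb) : adj lit u w = adj lit w u := by
  unfold adj
  rw [Bool.or_comm]

theorem adj_irrefl (lit : ℕ → ℕ → Option (ℕ × Bool)) (u : Lb) : adj lit u u = false := by
  cases u with
  | L i s => cases s <;> rfl
  | T i s => cases s <;> rfl
  | H i k s => cases s <;> rfl
  | _ => rfl

/-! ### Neighbourhoods -/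

section nb

variable {n m : ℕ} {lit : ℕ → ℕ → Option (ℕ × Bool)}

theorem nb_H {j k : ℕ} (b : Bool) (ho : occ n m lit j k = true) (z : Lb) :
    z ∈ ({H j k (!b), p j k, q j k, r j k} : Finset Lb) ↔
      (valid n m lit z = true ∧ adj lit (H j k b) z = true) := by
  cases b <;> cases z with
  | H j' k' b' =>
    cases b' <;> simp [adj, adj0, valid] <;> grind
  | _ => simp [adj, adj0, valid] <;> grind

theorem nb_p {j k i : ℕ} {s : Bool} (hl : lit j k = some (i, s)) (ho : occ n m lit j k = true)
    (z : Lb) : z ∈ ({H j k false, H j k true, q j k, L i s} : Finset Lb) ↔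
      (valid n m lit z = true ∧ adj lit (p j k) z = true) := by
  have hi : i < n := by
    simp only [occ, hl, Option.any_some, Bool.and_eq_true, decide_eq_true_eq] at ho
    exact ho.2
  cases z with
  | H j' k' b' =>
    cases b' <;> simp [adj, adj0, valid] <;> grind
  | _ => simp [adj, adj0, valid] <;> grind

theorem nb_q {j k : ℕ} (ho : occ n m lit j k = true)
    (z : Lb) : z ∈ ({H j k false, H j k true, p j k, P j k} : Finset Lb) ↔
      (valid n m lit z = true ∧ adj lit (q j k) z = true) := by
  cases z with
  | H j' k' b' =>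
    cases b' <;> simp [adj, adj0, valid] <;> grind
  | _ => simp [adj, adj0, valid] <;> grind

theorem nb_r {j k i : ℕ} {s : Bool} (hl : lit j k = some (i, s)) (ho : occ n m lit j k = true)
    (z : Lb) : z ∈ ({H j k false, H j k true, P j k, L i s} : Finset Lb) ↔
      (valid n m lit z = true ∧ adj lit (r j k) z = true) := by
  have hi : i < n := by
    simp only [occ, hl, Option.any_some, Bool.and_eq_true, decide_eq_true_eq] at ho
    exact ho.2
  cases z with
  | H j' k' b' =>
    cases b' <;> simp [adj, adj0, valid] <;> grind
  | _ => simp [adj, adj0, valid] <;> grind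

theorem nb_P {j k : ℕ} (ho : occ n m lit j k = true)
    (z : Lb) : z ∈ ({C j, q j k, r j k} : Finset Lb) ↔
      (valid n m lit z = true ∧ adj lit (P j k) z = true) := by
  have hi : j < m := by
    simp only [occ, Bool.and_eq_true, decide_eq_true_eq] at ho
    exact ho.1
  cases z with
  | H j' k' b' =>
    cases b' <;> simp [adj, adj0, valid]
  | _ => simp [adj, adj0, valid] <;> grind

theorem nb_T {j : ℕ} (b : Bool) (hj : j < m)
    (z : Lb) : z ∈ ({T j (!b), C j} : Finset Lb) ↔
      (valid n m lit z = true ∧ adj lit (T j b) z = true) := by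
  cases b <;> cases z with
  | T j' b' =>
    cases b' <;> simp [adj, adj0, valid] <;> grind
  | _ => simp [adj, adj0, valid] <;> grind

theorem nb_C {j : ℕ} (hj : j < m) (hlit : ∀ j k l, lit j k = some l → k < n)
    (z : Lb) : z ∈ ({T j false, T j true} ∪ ((Finset.range n).filter
      (fun k => occ n m lit j k = true)).image (fun k => P j k) : Finset Lb) ↔
      (valid n m lit z = true ∧ adj lit (C j) z = true) := by
  cases z with
  | T j' b' =>
    cases b' <;> simp [adj, adj0, valid] <;> grind
  | P j' k' =>
    have key : occ n m lit j' k' = true → k' < n := by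
      intro h1
      simp only [occ, Bool.and_eq_true, Option.any_eq_true] at h1
      obtain ⟨_, l, hl, _⟩ := h1
      exact hlit _ _ _ hl
    simp [adj, adj0, valid]
    grind
  | _ => simp [adj, adj0, valid] <;> grind

theorem nb_L {i : ℕ} (s : Bool) (hi : i < n) (hlit : ∀ j k l, lit j k = some l → k < n)
    (z : Lb) : z ∈ ({L i (!s)} ∪ ((Finset.range m ×ˢ Finset.range n).filter
      (fun x => lit x.1 x.2 = some (i, s))).biUnion (fun x => {p x.1 x.2, r x.1 x.2}) :
        Finset Lb) ↔ (valid n m lit z = true ∧ adj lit (L i s) z = true) := by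
  cases z with
  | p j k =>
    simp [adj, adj0, valid, occ]
    intro h1 h2
    have h3 := hlit _ _ _ h1
    simp [h1, h3, hi]
  | r j k =>
    simp [adj, adj0, valid, occ]
    intro h1 h2
    have h3 := hlit _ _ _ h1
    simp [h1, h3, hi]
  | L i' s' =>
    cases s <;> cases s' <;> simp [adj, adj0, valid] <;> grind
  | _ => cases s <;> simp [adj, adj0, valid]

end nb

end Pool.Agent.H671R2.Ord
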