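import Pool.Agent.H671R2.OrdMain
import Pool.Agent.H671R2.BSat
import Pool.Agent.H671R2.GraphEnc

/-!
# Codes for the labels; polynomial time
-/

namespace Pool.Agent.H671R2.Ord

open Pool.Agent.NPC Pool.Agent.NPC.R671 Lb

/-- label codes: a tag, two numbers and a boolean -/
abbrev Cd := ℕ × (ℕ × ℕ) × Bool

/-- the code of a label -/
def code : Lb → Cd
  | L i s => (0, (i, 0), s)
  | C j => (1, (j, 0), false)
  | .T j b => (2, (j, 0), b)
  | P j k => (3, (j, k), false)
  | H j k b => (4, (j, k), b)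
  | p j k => (5, (j, k), false)
  | q j k => (6, (j, k), false)
  | r j k => (7, (j, k), false)

theorem code_inj : Function.Injective code := by
  intro u w h
  cases u <;> cases w <;> simp_all [code]

/-- formulas -/
abbrev Φ := List (List (Bool × ℕ))

/-- the literal in position `k` of clause `j` -/
def lit (φ : Φ) (j k : ℕ) : Option (ℕ × Bool) := ((φ.getD j [])[k]?).map (fun l => (l.2, l.1))

/-- the tag test -/
def tg (a b : Cd) (s t : ℕ) : Bool := decide (a.1 = s) && decide (b.1 = t)

/-- half of the adjacency on codes -/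
def ad0 (φ : Φ) (a b : Cd) : Bool :=
  (tg a b 0 0 && (decide (a.2.1.1 = b.2.1.1) && !a.2.2 && b.2.2)) ||
  (tg a b 2 2 && (decide (a.2.1.1 = b.2.1.1) && !a.2.2 && b.2.2)) ||
  (tg a b 2 1 && decide (a.2.1.1 = b.2.1.1)) ||
  (tg a b 3 1 && decide (a.2.1.1 = b.2.1.1)) ||
  (tg a b 4 4 && (decide (a.2.1 = b.2.1) && !a.2.2 && b.2.2)) ||
  (tg a b 4 5 && decide (a.2.1 = b.2.1)) ||
  (tg a b 4 6 && decide (a.2.1 = b.2.1)) ||
  (tg a b 4 7 && decide (a.2.1 = b.2.1)) ||
  (tg a b 5 6 && decide (a.2.1 = b.2.1)) ||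
  (tg a b 6 3 && decide (a.2.1 = b.2.1)) ||
  (tg a b 7 3 && decide (a.2.1 = b.2.1)) ||
  (tg a b 5 0 && decide (lit φ a.2.1.1 a.2.1.2 = some (b.2.1.1, b.2.2))) ||
  (tg a b 7 0 && decide (lit φ a.2.1.1 a.2.1.2 = some (b.2.1.1, b.2.2)))

theorem ad0_code (φ : Φ) (u w : Lb) :
    ad0 φ (code u) (code w) = adj0 (lit φ) u w := by
  rcases u with ⟨i, _ | _⟩ | ⟨j⟩ | ⟨j, _ | _⟩ | ⟨j, k⟩ | ⟨j, k, _ | _⟩ | ⟨j, k⟩ | ⟨j, k⟩ | ⟨j, k⟩ <;>
  rcases w with ⟨i, _ | _⟩ | ⟨j⟩ | ⟨j, _ | _⟩ | ⟨j, k⟩ | ⟨j, k, _ | _⟩ | ⟨j, k⟩ | ⟨j, k⟩ | ⟨j, k⟩ <;>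
  simp [ad0, code, adj0, tg] <;> congr

/-- adjacency on codes -/
def ad (φ : Φ) (a b : Cd) : Bool := ad0 φ a b || ad0 φ b a

theorem ad_code (φ : Φ) (u w : Lb) : ad φ (code u) (code w) = adj (lit φ) u w := by
  unfold ad adj
  rw [ad0_code, ad0_code]

/-- the attachment, on numbers -/
def pkn (a b : ℕ) : Bool :=
  decide (a ≠ b) && (decide (a ≠ 0) || decide (b = 1)) && (decide (b ≠ 0) || decide (a = 1))

/-- the Boolean form of the extended adjacency -/
def aX (φ : Φ) (x y : Lb × Fin 5) : Bool :=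
  (decide (x.2 = 0) && decide (y.2 = 0) && adj (lit φ) x.1 y.1) ||
    (decide (x.1 = y.1) && pk x.2 y.2)

/-- the extended adjacency on codes -/
def adX (φ : Φ) (x y : Cd × ℕ) : Bool :=
  (decide (x.2 = 0) && decide (y.2 = 0) && ad φ x.1 y.1) ||
    (decide (x.1 = y.1) && pkn x.2 y.2)

/-- the code of an extended label -/
def codeX (x : Lb × Fin 5) : Cd × ℕ := (code x.1, (x.2 : ℕ))

theorem adX_code (φ : Φ) (x y : Lb × Fin 5) : adX φ (codeX x) (codeX y) = aX φ x y := by
  obtain ⟨u, i⟩ := x
  obtain ⟨w, j⟩ := y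
  have h1 : ∀ i j : Fin 5, pkn (i : ℕ) (j : ℕ) = pk i j := by decide
  have h2 : ∀ i : Fin 5, ((i : ℕ) = 0) ↔ (i = 0) := by decide
  rw [Bool.eq_iff_iff]
  simp only [adX, aX, codeX, h1, ad_code, Bool.or_eq_true, Bool.and_eq_true, decide_eq_true_eq,
    code_inj.eq_iff, h2]

theorem aX_symm (φ : Φ) (x y : Lb × Fin 5) : aX φ x y = aX φ y x := by
  unfold aX
  have h1 : ∀ i j : Fin 5, pk i j = pk j i := by decide
  rw [adj_symm, h1, Bool.and_comm (decide (x.2 = 0))]
  congr 2
  simp [eq_comm]

theorem aX_irrefl (φ : Φ) (x : Lb × Fin 5) : aX φ x x = false := by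
  unfold aX
  have h1 : ∀ i : Fin 5, pk i i = false := by decide
  rw [adj_irrefl, h1]
  simp

/-- the list of base vertices -/
def vl (φ : Φ) (n m : ℕ) : List Lb :=
  (List.range n).flatMap (fun i => [L i false, L i true]) ++
  ((List.range m).map C ++
  ((List.range m).flatMap (fun j => [.T j false, .T j true]) ++
  (List.range m).flatMap (fun j => ((List.range n).filter (fun k =>
    (lit φ j k).any (fun l => decide (l.1 < n)))).flatMap (fun k =>
      [P j k, H j k false, H j k true, p j k, q j k, r j k]))))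

/-- the list of the codes of the base vertices -/
def vc (φ : Φ) (n m : ℕ) : List Cd :=
  (List.range n).flatMap (fun i => [(0, (i, 0), false), (0, (i, 0), true)]) ++
  ((List.range m).map (fun j => (1, (j, 0), false)) ++
  ((List.range m).flatMap (fun j => [(2, (j, 0), false), (2, (j, 0), true)]) ++
  (List.range m).flatMap (fun j => ((List.range n).filter (fun k =>
    (lit φ j k).any (fun l => decide (l.1 < n)))).flatMap (fun k =>
      [(3, (j, k), false), (4, (j, k), false), (4, (j, k), true), (5, (j, k), false),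
        (6, (j, k), false), (7, (j, k), false)]))))

theorem vl_map (φ : Φ) (n m : ℕ) : (vl φ n m).map code = vc φ n m := by
  simp [vl, vc, code, List.map_flatMap, Function.comp_def]

/-- the list of all vertices -/
def vX (φ : Φ) (n m : ℕ) : List (Lb × Fin 5) :=
  (vl φ n m).flatMap (fun z => [(z, 0), (z, 1), (z, 2), (z, 3), (z, 4)])

/-- the list of the codes of all vertices -/
def vcX (φ : Φ) (n m : ℕ) : List (Cd × ℕ) :=
  (vc φ n m).flatMap (fun z => [(z, 0), (z, 1), (z, 2), (z, 3), (z, 4)])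

theorem vX_map (φ : Φ) (n m : ℕ) : (vX φ n m).map codeX = vcX φ n m := by
  unfold vX vcX
  rw [← vl_map, List.map_flatMap, List.flatMap_map]
  rfl

theorem lit_lt {φ : Φ} {j k : ℕ} {l : ℕ × Bool} (h : lit φ j k = some l) :
    k < φ.flatten.length := by
  unfold lit at h
  rw [Option.map_eq_some_iff] at h
  obtain ⟨l', h, _⟩ := h
  obtain ⟨h1, _⟩ := List.getElem?_eq_some_iff.1 h
  rw [List.getD_eq_getElem?_getD] at h1
  cases hj : φ[j]? with
  | none => rw [hj] at h1; simp at h1
  | some cl =>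
    rw [hj] at h1
    simp only [Option.getD_some] at h1
    have h2 : cl ∈ φ := List.mem_of_getElem? hj
    exact lt_of_lt_of_le h1 (List.Sublist.length_le (List.sublist_flatten_of_mem h2))

theorem mem_vl' (φ : Φ) (N m : ℕ) (key : ∀ j k, (lit φ j k).any (fun l => decide (l.1 < N)) = true →
      k < N) (z : Lb) : z ∈ vl φ N m ↔ valid N m (lit φ) z = true := by
  unfold vl
  cases z with
  | L i s => cases s <;> simp [valid]
  | C i => simp [valid]
  | T i s => cases s <;> simp [valid]
  | H j k s =>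
    have := key j k
    cases s <;> simp [valid, occ] <;> grind
  | _ j k =>
    have := key j k
    simp [valid, occ]
    grind

theorem mem_vl (φ : Φ) (m : ℕ) (z : Lb) :
    z ∈ vl φ φ.flatten.length m ↔ valid φ.flatten.length m (lit φ) z = true := by
  refine mem_vl' φ _ _ ?_ z
  intro j k h
  rw [Option.any_eq_true] at h
  obtain ⟨l, hl, _⟩ := h
  exact lit_lt hl

theorem vl_nodup (φ : Φ) (n m : ℕ) : (vl φ n m).Nodup := by
  unfold vl
  simp only [List.nodup_append]
  refine ⟨?_, ⟨?_, ⟨?_, ?_, ?_⟩, ?_⟩, ?_⟩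
  · rw [List.nodup_flatMap]
    refine ⟨fun i _ => by simp, ?_⟩
    refine List.Pairwise.imp ?_ (List.nodup_range (n := n))
    intro a b hab
    simp [Function.onFun, List.Disjoint, hab]
  · exact (List.nodup_range).map fun a b h => by simpa using h
  · rw [List.nodup_flatMap]
    refine ⟨fun i _ => by simp, ?_⟩
    refine List.Pairwise.imp ?_ (List.nodup_range (n := m))
    intro a b hab
    simp [Function.onFun, List.Disjoint, hab]
  · rw [List.nodup_flatMap]
    refine ⟨fun i _ => ?_, ?_⟩
    · rw [List.nodup_flatMap]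
      refine ⟨fun i _ => by simp, ?_⟩
      refine List.Pairwise.imp ?_ ((List.nodup_range (n := n)).filter _)
      intro a b hab
      simp [Function.onFun, List.Disjoint, hab]
    · refine List.Pairwise.imp ?_ (List.nodup_range (n := m))
      intro a b hab
      simp only [Function.onFun, List.Disjoint, List.mem_flatMap, List.mem_filter]
      rintro z ⟨k, _, h1⟩ ⟨k', _, h2⟩
      simp only [List.mem_cons, List.not_mem_nil, or_false] at h1 h2
      rcases h1 with rfl | rfl | rfl | rfl | rfl | rfl <;> simp at h2 <;> exact hab h2.1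
  all_goals
    simp only [List.mem_append, List.mem_map, List.mem_flatMap, List.mem_range, List.mem_filter,
      List.mem_cons, List.not_mem_nil, or_false]
    intro a ha b hb hab
    subst hab
    cases a <;> simp at ha hb

theorem vX_nodup (φ : Φ) (n m : ℕ) : (vX φ n m).Nodup := by
  unfold vX
  rw [List.nodup_flatMap]
  refine ⟨fun z _ => by simp, ?_⟩
  refine List.Pairwise.imp ?_ (vl_nodup φ n m)
  intro a b hab
  simp [Function.onFun, List.Disjoint, hab]

theorem mem_vX (φ : Φ) (m : ℕ) (x : Lb × Fin 5) :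
    x ∈ vX φ φ.flatten.length m ↔ valid φ.flatten.length m (lit φ) x.1 = true := by
  unfold vX
  rw [← mem_vl, List.mem_flatMap]
  obtain ⟨z, i⟩ := x
  constructor
  · rintro ⟨w, hw, h⟩
    simp only [List.mem_cons, Prod.mk.injEq, List.not_mem_nil, or_false] at h
    rcases h with h | h | h | h | h <;> (rw [h.1]; exact hw)
  · intro h
    refine ⟨z, h, ?_⟩
    have : ∀ i : Fin 5, i = 0 ∨ i = 1 ∨ i = 2 ∨ i = 3 ∨ i = 4 := by decide
    simpa using this i

/-! ### Polynomial time -/

theorem lit_poly {α : Type} [TEnc α] {φ : α → Φ} {j k : α → ℕ} (h1 : Poly φ) (h2 : Poly j)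
    (h3 : Poly k) : Poly (fun a => lit (φ a) (j a) (k a)) := by
  unfold lit
  fun_prop

attribute [fun_prop] lit_poly

theorem tg_poly {α : Type} [TEnc α] {a b : α → Cd} {s t : ℕ} (h1 : Poly a) (h2 : Poly b) :
    Poly (fun x => tg (a x) (b x) s t) := by
  unfold tg
  fun_prop

attribute [fun_prop] tg_poly

theorem ad0_poly : Poly (fun x : Φ × Cd × Cd => ad0 x.1 x.2.1 x.2.2) := by
  unfold ad0
  fun_prop

attribute [local irreducible] ad0

theorem ad_poly {α : Type} [TEnc α] {φ : α → Φ} {a b : α → Cd} (h1 : Poly φ) (h2 : Poly a)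
    (h3 : Poly b) : Poly (fun x => ad (φ x) (a x) (b x)) := by
  unfold ad
  exact Poly.or (ad0_poly.comp (Poly.pair h1 (Poly.pair h2 h3)))
    (ad0_poly.comp (Poly.pair h1 (Poly.pair h3 h2)))

attribute [fun_prop] ad_poly
attribute [local irreducible] ad

theorem pkn_poly {α : Type} [TEnc α] {a b : α → ℕ} (h1 : Poly a) (h2 : Poly b) :
    Poly (fun x => pkn (a x) (b x)) := by
  unfold pkn
  fun_prop

attribute [fun_prop] pkn_poly

theorem adX_poly : Poly (fun x : Φ × (Cd × ℕ) × (Cd × ℕ) => adX x.1 x.2.1 x.2.2) := by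
  unfold adX
  fun_prop

attribute [local irreducible] adX lit

/-- the test for the literal vertices -/
def tst (φ : Φ) (j k : ℕ) : Bool := (lit φ j k).any (fun l => decide (l.1 < φ.flatten.length))

theorem tst_poly : Poly (fun x : (Φ × ℕ) × ℕ => tst x.1.1 x.1.2 x.2) := by
  unfold tst
  exact NPC.Poly.optAny_fp (o := fun x : (Φ × ℕ) × ℕ => lit x.1.1 x.1.2 x.2)
    (h := fun x l => decide (l.1 < x.1.1.flatten.length)) (by fun_prop) (by fun_prop)

attribute [local irreducible] tst

/-- the part of the vertex list with fixed clause -/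
def vp1 (φ : Φ) (j : ℕ) : List Cd :=
  ((List.range φ.flatten.length).filter (fun k => tst φ j k)).flatMap
      (fun k => [(3, (j, k), false), (4, (j, k), false), (4, (j, k), true), (5, (j, k), false),
        (6, (j, k), false), (7, (j, k), false)])

theorem vp1_poly : Poly (fun x : Φ × ℕ => vp1 x.1 x.2) := by
  have h1 : UPoly (fun φ : Φ => φ.flatten.length) :=
    UPoly.length (by fun_prop)
  unfold vp1
  refine NPC.Poly.flatMap (l := fun x : Φ × ℕ => (List.range x.1.flatten.length).filter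
      (fun k => tst x.1 x.2 k))
    (F := fun x k => ([(3, (x.2, k), false), (4, (x.2, k), false), (4, (x.2, k), true),
      (5, (x.2, k), false), (6, (x.2, k), false), (7, (x.2, k), false)] : List Cd)) ?_
      (by fun_prop)
  exact NPC.Poly.filter (l := fun x : Φ × ℕ => List.range x.1.flatten.length)
    (p := fun x k => tst x.1 x.2 k)
    (h1.range.comp (NPC.Poly.fst NPC.Poly.id)) tst_poly

attribute [local irreducible] vp1

theorem vpart_poly : Poly (fun φ : Φ => (List.range φ.length).flatMap (fun j => vp1 φ j)) := by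
  have h2 : UPoly (fun φ : Φ => φ.length) :=
    UPoly.length (by fun_prop)
  exact NPC.Poly.flatMap (l := fun φ : Φ => List.range φ.length)
    (F := fun φ j => vp1 φ j) h2.range vp1_poly

theorem vc_poly : Poly (fun φ : Φ => vc φ φ.flatten.length φ.length) := by
  have h1 : UPoly (fun φ : Φ => φ.flatten.length) :=
    UPoly.length (by fun_prop)
  have h2 : UPoly (fun φ : Φ => φ.length) :=
    UPoly.length (by fun_prop)
  have g1 := h1.range
  have g2 := h2.range
  have g6 := vpart_poly
  unfold vp1 tst at g6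
  unfold vc
  refine NPC.Poly.append (by fun_prop) ?_
  refine NPC.Poly.append (by fun_prop) ?_
  refine NPC.Poly.append (by fun_prop) ?_
  exact g6

attribute [local irreducible] vc

theorem vcX_poly : Poly (fun φ : Φ => vcX φ φ.flatten.length φ.length) := by
  unfold vcX
  exact NPC.Poly.flatMap (l := fun φ : Φ => vc φ φ.flatten.length φ.length)
    (F := fun φ z => ([(z, 0), (z, 1), (z, 2), (z, 3), (z, 4)] : List (Cd × ℕ)))
    vc_poly (by fun_prop)

attribute [local irreducible] vcX

theorem row_poly : Poly (fun x : Φ × (Cd × ℕ) =>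
    (vcX x.1 x.1.flatten.length x.1.length).map (fun w => adX x.1 x.2 w)) :=
  NPC.Poly.map (l := fun x : Φ × (Cd × ℕ) => vcX x.1 x.1.flatten.length x.1.length)
    (F := fun x w => adX x.1 x.2 w)
    (vcX_poly.comp (Poly.fst Poly.id))
    (adX_poly.comp (Poly.pair (Poly.fst (Poly.fst Poly.id))
      (Poly.pair (Poly.snd (Poly.fst Poly.id)) (Poly.snd Poly.id))))

theorem adj_poly : Poly (fun φ : Φ =>
    (vcX φ φ.flatten.length φ.length).map (fun u =>
      (vcX φ φ.flatten.length φ.length).map (fun w => adX φ u w))) :=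
  NPC.Poly.map vcX_poly (F := fun φ u => (vcX φ φ.flatten.length φ.length).map
    (fun w => adX φ u w)) row_poly

end Pool.Agent.H671R2.Ord
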