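import Pool.Agent.NPC.Dec
import Pool.Agent.H671R2.ZDefs

/-!
# Definitions: Type-A and Type-B vertex orders

A linear order of the vertex set `Fin n` is given by the bijection `pos` that sends each vertex
to its position.
-/

namespace Pool.Agent.H671R2.Ord

open Pool.Agent.NPC Pool.Agent.NPC.R671

/-- `d⁻(v)`: the number of neighbours of `v` placed before `v`. -/
noncomputable def dMinus {n : ℕ} (G : SimpleGraph (Fin n)) (pos : Fin n ≃ Fin n) (v : Fin n) : ℕ :=
  {w | G.Adj v w ∧ pos w < pos v}.ncard

/-- `d⁺(v)`: the number of neighbours of `v` placed after `v`. -/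
noncomputable def dPlus {n : ℕ} (G : SimpleGraph (Fin n)) (pos : Fin n ≃ Fin n) (v : Fin n) : ℕ :=
  {w | G.Adj v w ∧ pos v < pos w}.ncard

/-- Type-A orders: every vertex has `d⁻` odd or zero. -/
def IsTypeA {n : ℕ} (G : SimpleGraph (Fin n)) (pos : Fin n ≃ Fin n) : Prop :=
  ∀ v, Odd (dMinus G pos v) ∨ dMinus G pos v = 0

/-- Type-B orders: every vertex has `d⁻` odd or zero, or `d⁻` even and `d⁺ = 0`. -/
def IsTypeB {n : ℕ} (G : SimpleGraph (Fin n)) (pos : Fin n ≃ Fin n) : Prop :=
  ∀ v, (Odd (dMinus G pos v) ∨ dMinus G pos v = 0) ∨ (Even (dMinus G pos v) ∧ dPlus G pos v = 0)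

/-- The decision problem: given an adjacency matrix, is it the matrix of a graph which admits a
Type-A order? -/
def AdmitsA (M : List (List Bool)) : Prop :=
  ∃ (n : ℕ) (G : SimpleGraph (Fin n)), adjMatrix G = M ∧ ∃ pos, IsTypeA G pos

/-- The decision problem: given an adjacency matrix, is it the matrix of a graph which admits a
Type-B order? -/
def AdmitsB (M : List (List Bool)) : Prop :=
  ∃ (n : ℕ) (G : SimpleGraph (Fin n)), adjMatrix G = M ∧ ∃ pos, IsTypeB G pos

/-- The list of the vertices in the given order. -/
def orderList {n : ℕ} (pos : Fin n ≃ Fin n) : List ℕ := List.ofFn (fun i => ((pos.symm i : Fin n) : ℕ))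

/-- There is a polynomial-time algorithm which decides, given (the adjacency matrix of) a graph,
whether the graph admits a Type-A order. -/
def RecognisableA : Prop :=
  ∃ A : List Bool → List Bool, PolyTime A ∧ ∀ (n : ℕ) (G : SimpleGraph (Fin n)),
    A (bits (adjMatrix G)) = [true] ↔ ∃ pos, IsTypeA G pos

/-- There is a polynomial-time algorithm which decides, given (the adjacency matrix of) a graph,
whether the graph admits a Type-B order. -/
def RecognisableB : Prop :=
  ∃ A : List Bool → List Bool, PolyTime A ∧ ∀ (n : ℕ) (G : SimpleGraph (Fin n)),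
    A (bits (adjMatrix G)) = [true] ↔ ∃ pos, IsTypeB G pos

/-- There is a polynomial-time algorithm which, given any graph that has a Type-A order, outputs
a Type-A order of it (the list of the vertices in this order). -/
def FindableA : Prop :=
  ∃ A : List Bool → List Bool, PolyTime A ∧ ∀ (n : ℕ) (G : SimpleGraph (Fin n)),
    (∃ pos, IsTypeA G pos) → ∃ pos, IsTypeA G pos ∧ A (bits (adjMatrix G)) = bits (orderList pos)

/-- There is a polynomial-time algorithm which, given any graph that has a Type-B order, outputs
a Type-B order of it (the list of the vertices in this order). -/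
def FindableB : Prop :=
  ∃ A : List Bool → List Bool, PolyTime A ∧ ∀ (n : ℕ) (G : SimpleGraph (Fin n)),
    (∃ pos, IsTypeB G pos) → ∃ pos, IsTypeB G pos ∧ A (bits (adjMatrix G)) = bits (orderList pos)

/-- `P = NP`. -/
def PEqNP : Prop := ∀ L : Set (List Bool), InNP L → InP L

end Pool.Agent.H671R2.Ord
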