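import Pool.Agent.H671R2.OrdHard
import Pool.Agent.H671R2.OrdNP2
import Pool.Agent.H671R2.Search

/-!
# Type-A and Type-B orders: equivalences with `P = NP`
-/

namespace Pool.Agent.H671R2.Ord

open Pool.Agent.NPC Pool.Agent.NPC.R671

theorem recognisableA_iff : RecognisableA ↔ PEqNP := by
  constructor
  · rintro ⟨A, hA, hA'⟩ L hL
    obtain ⟨f, hf, hfL⟩ := hard L hL
    refine ⟨fun w => A (f w), Pool.Agent.H642R2.TMSim.polyTime_comp hA hf, fun w => ?_⟩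
    obtain ⟨n, G, h1, h2, _⟩ := hfL w
    change w ∈ L ↔ A (f w) = [true]
    rw [h2, h1, hA' n G]
  · intro h
    obtain ⟨A, hA, hA'⟩ := h _ inNPP_A
    refine ⟨A, hA, fun n G => ?_⟩
    rw [← hA', bits_mem_lang]
    exact matrix_iff G (fun n G => ∃ pos, IsTypeA G pos)

theorem recognisableB_iff : RecognisableB ↔ PEqNP := by
  constructor
  · rintro ⟨A, hA, hA'⟩ L hL
    obtain ⟨f, hf, hfL⟩ := hard L hL
    refine ⟨fun w => A (f w), Pool.Agent.H642R2.TMSim.polyTime_comp hA hf, fun w => ?_⟩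
    obtain ⟨n, G, h1, _, h2⟩ := hfL w
    change w ∈ L ↔ A (f w) = [true]
    rw [h2, h1, hA' n G]
  · intro h
    obtain ⟨A, hA, hA'⟩ := h _ inNPP_B
    refine ⟨A, hA, fun n G => ?_⟩
    rw [← hA', bits_mem_lang]
    exact matrix_iff G (fun n G => ∃ pos, IsTypeB G pos)

theorem RvA_matrix {n : ℕ} (G : SimpleGraph (Fin n)) (l : List ℕ) :
    RvA (adjMatrix G, l) = true ↔ ∃ pos, orderList pos = l ∧ IsTypeA G pos := by
  rw [RvA_iff]
  constructor
  · rintro ⟨n', H, pos, h1, h2, h3⟩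
    exact (matrix_iff G (fun n G => ∃ pos : Fin n ≃ Fin n, orderList pos = l ∧
      IsTypeA G pos)).1 ⟨n', H, h1, pos, h2, h3⟩
  · rintro ⟨pos, h1, h2⟩
    exact ⟨n, G, pos, rfl, h1, h2⟩

theorem RvB_matrix {n : ℕ} (G : SimpleGraph (Fin n)) (l : List ℕ) :
    RvB (adjMatrix G, l) = true ↔ ∃ pos, orderList pos = l ∧ IsTypeB G pos := by
  rw [RvB_iff]
  constructor
  · rintro ⟨n', H, pos, h1, h2, h3⟩
    exact (matrix_iff G (fun n G => ∃ pos : Fin n ≃ Fin n, orderList pos = l ∧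
      IsTypeB G pos)).1 ⟨n', H, h1, pos, h2, h3⟩
  · rintro ⟨pos, h1, h2⟩
    exact ⟨n, G, pos, rfl, h1, h2⟩

theorem findableA_iff : FindableA ↔ PEqNP := by
  constructor
  · rintro ⟨A, hA, hA'⟩ L hL
    obtain ⟨f, hf, hfL⟩ := hard L hL
    refine inP_of_search RvA_poly hA hf fun w => ?_
    obtain ⟨n, G, h1, h2, _⟩ := hfL w
    have key : (∃ l, RvA (adjMatrix G, l) = true) ↔ ∃ pos, IsTypeA G pos := by
      simp only [RvA_matrix]
      constructor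
      · rintro ⟨l, pos, _, h⟩
        exact ⟨pos, h⟩
      · rintro ⟨pos, h⟩
        exact ⟨_, pos, rfl, h⟩
    refine ⟨adjMatrix G, h1, by rw [h2, key], fun h => ?_⟩
    obtain ⟨pos, h3, h4⟩ := hA' n G (key.1 h)
    exact ⟨orderList pos, (RvA_matrix G _).2 ⟨pos, rfl, h3⟩, by rw [h1, h4]⟩
  · intro h
    obtain ⟨A, hA, hA'⟩ := search_of_collapse RvA_poly
      (4 * Polynomial.X ^ 2 + 2 * Polynomial.X + 1) (fun M w h => shortA h) h
    refine ⟨A, hA, fun n G hG => ?_⟩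
    obtain ⟨pos, hpos⟩ := hG
    obtain ⟨l, h1, h2⟩ := hA' (adjMatrix G) ⟨_, (RvA_matrix G _).2 ⟨pos, rfl, hpos⟩⟩
    obtain ⟨pos', h3, h4⟩ := (RvA_matrix G l).1 h1
    exact ⟨pos', h4, by rw [h2, h3]⟩

theorem findableB_iff : FindableB ↔ PEqNP := by
  constructor
  · rintro ⟨A, hA, hA'⟩ L hL
    obtain ⟨f, hf, hfL⟩ := hard L hL
    refine inP_of_search RvB_poly hA hf fun w => ?_
    obtain ⟨n, G, h1, _, h2⟩ := hfL w
    have key : (∃ l, RvB (adjMatrix G, l) = true) ↔ ∃ pos, IsTypeB G pos := by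
      simp only [RvB_matrix]
      constructor
      · rintro ⟨l, pos, _, h⟩
        exact ⟨pos, h⟩
      · rintro ⟨pos, h⟩
        exact ⟨_, pos, rfl, h⟩
    refine ⟨adjMatrix G, h1, by rw [h2, key], fun h => ?_⟩
    obtain ⟨pos, h3, h4⟩ := hA' n G (key.1 h)
    exact ⟨orderList pos, (RvB_matrix G _).2 ⟨pos, rfl, h3⟩, by rw [h1, h4]⟩
  · intro h
    obtain ⟨A, hA, hA'⟩ := search_of_collapse RvB_poly
      (4 * Polynomial.X ^ 2 + 2 * Polynomial.X + 1) (fun M w h => shortB h) h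
    refine ⟨A, hA, fun n G hG => ?_⟩
    obtain ⟨pos, hpos⟩ := hG
    obtain ⟨l, h1, h2⟩ := hA' (adjMatrix G) ⟨_, (RvB_matrix G _).2 ⟨pos, rfl, hpos⟩⟩
    obtain ⟨pos', h3, h4⟩ := (RvB_matrix G l).1 h1
    exact ⟨pos', h4, by rw [h2, h3]⟩

end Pool.Agent.H671R2.Ord
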