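import Pool.Agent.H671R2.OrdGen

/-!
# The OR gadget
-/

namespace Pool.Agent.H671R2.Ord

set_option maxHeartbeats 4000000 in
theorem gadget (a b h1 h2 p q r : ℕ) (h12 : h1 ≠ h2) (h1p : h1 ≠ p) (h1q : h1 ≠ q)
    (h1r : h1 ≠ r) (h2p : h2 ≠ p) (h2q : h2 ≠ q) (h2r : h2 ≠ r) (hpq : p ≠ q) (hpb : p ≠ b)
    (hqa : q ≠ a) (hra : r ≠ a) (hrb : r ≠ b)
    (e1 : (ci h2 h1 + (ci p h1 + (ci q h1 + ci r h1))) % 2 = 1 ∨
      ci h2 h1 + (ci p h1 + (ci q h1 + ci r h1)) = 0)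
    (e2 : (ci h1 h2 + (ci p h2 + (ci q h2 + ci r h2))) % 2 = 1 ∨
      ci h1 h2 + (ci p h2 + (ci q h2 + ci r h2)) = 0)
    (e3 : (ci h1 p + (ci h2 p + (ci q p + ci b p))) % 2 = 1 ∨
      ci h1 p + (ci h2 p + (ci q p + ci b p)) = 0)
    (e4 : (ci h1 q + (ci h2 q + (ci p q + ci a q))) % 2 = 1 ∨
      ci h1 q + (ci h2 q + (ci p q + ci a q)) = 0)
    (e5 : (ci h1 r + (ci h2 r + (ci a r + ci b r))) % 2 = 1 ∨
      ci h1 r + (ci h2 r + (ci a r + ci b r)) = 0) :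
    ci q a = ci r a ∧ ci p b = ci r b ∧ (ci p b = 1 ∨ ci q a = 1) := by
  have k1 := ci_cases r h1
  have k1' := ci_cases h1 r
  have k2 := ci_cases r h2
  have k2' := ci_cases h2 r
  have k3 := ci_cases b p
  have k3' := ci_cases p b
  have k4 := ci_cases a q
  have k4' := ci_cases q a
  have k5 := ci_cases a r
  have k5' := ci_cases r a
  have k6 := ci_cases b r
  have k6' := ci_cases r b
  rcases Nat.lt_or_gt_of_ne h12 with g12 | g12 <;> rcases Nat.lt_or_gt_of_ne h1p with g13 | g13 <;>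
  rcases Nat.lt_or_gt_of_ne h1q with g14 | g14 <;> rcases Nat.lt_or_gt_of_ne h2p with g23 | g23 <;>
  rcases Nat.lt_or_gt_of_ne h2q with g24 | g24 <;> rcases Nat.lt_or_gt_of_ne hpq with g34 | g34 <;>
  simp only [ci_pos, ci_neg, g12, g13, g14, g23, g24, g34] at e1 e2 e3 e4 <;> omega

end Pool.Agent.H671R2.Ord
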