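import Pool.Agent.H671R2.OrdDefs

/-!
# Ranks instead of orders; the attachment of complete graphs
-/

namespace Pool.Agent.H671R2.Ord

/-- the number of neighbours of smaller rank -/
noncomputable def bd {V : Type*} (adj : V → V → Prop) (f : V → ℕ) (v : V) : ℕ :=
  {w | adj v w ∧ f w < f v}.ncard

/-- Type-A for ranks -/
def RA {V : Type*} (adj : V → V → Prop) (f : V → ℕ) : Prop :=
  ∀ v, Odd (bd adj f v) ∨ bd adj f v = 0

/-- Type-B for ranks -/
def RB {V : Type*} (adj : V → V → Prop) (f : V → ℕ) : Prop :=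
  ∀ v, (Odd (bd adj f v) ∨ bd adj f v = 0) ∨ (Even (bd adj f v) ∧ ∀ w, adj v w → ¬ f v < f w)

/-- 1 if true, 0 otherwise -/
def ci (x y : ℕ) : ℕ := if x < y then 1 else 0

theorem ci_pos {x y : ℕ} (h : x < y) : ci x y = 1 := if_pos h

theorem ci_neg {x y : ℕ} (h : y < x) : ci x y = 0 := if_neg (by omega)

theorem ci_cases (x y : ℕ) : (x < y ∧ ci x y = 1) ∨ (y ≤ x ∧ ci x y = 0) := by
  unfold ci
  split_ifs <;> omega

theorem bd_eq {V : Type*} [DecidableEq V] {adj : V → V → Prop} {f : V → ℕ} {v : V} (S : Finset V)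
    (hS : ∀ w, adj v w ↔ w ∈ S) : bd adj f v = ∑ w ∈ S, ci (f w) (f v) := by
  unfold bd ci
  rw [← Finset.card_filter, ← Set.ncard_coe_finset]
  congr 1
  ext w
  simp [hS]

theorem typeA_of {n : ℕ} (G : SimpleGraph (Fin n)) {V : Type*} (e : Fin n ≃ V)
    (adj : V → V → Prop) (hadj : ∀ i j, G.Adj i j ↔ adj (e i) (e j)) (f : V → ℕ)
    (hd : ∀ u v, adj u v → f u ≠ f v) (h : RA adj f) : ∃ pos, IsTypeA G pos := by
  refine ⟨(Tuple.sort (f ∘ e)).symm, fun v => ?_⟩
  have hmono := Tuple.monotone_sort (f ∘ e)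
  have key : ∀ i j, G.Adj i j → ((Tuple.sort (f ∘ e)).symm j < (Tuple.sort (f ∘ e)).symm i ↔
      f (e j) < f (e i)) := by
    intro i j hij
    have hne := hd _ _ ((hadj i j).1 hij)
    constructor
    · intro hlt
      have h1 := hmono hlt.le
      simp only [Function.comp_apply, Equiv.apply_symm_apply] at h1
      omega
    · intro hlt
      by_contra hcon
      have h1 := hmono (not_lt.1 hcon)
      simp only [Function.comp_apply, Equiv.apply_symm_apply] at h1
      omega
  have h2 : dMinus G (Tuple.sort (f ∘ e)).symm v = bd adj f (e v) := by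
    unfold dMinus bd
    rw [← Set.ncard_image_of_injective _ e.injective]
    congr 1
    ext w
    simp only [Set.mem_image, Set.mem_ofPred_eq]
    constructor
    · rintro ⟨x, ⟨h1, h2⟩, rfl⟩
      exact ⟨(hadj _ _).1 h1, (key _ _ h1).1 h2⟩
    · rintro ⟨h1, h2⟩
      have h3 : G.Adj v (e.symm w) := by
        rw [hadj, Equiv.apply_symm_apply]
        exact h1
      refine ⟨e.symm w, ⟨h3, ?_⟩, by simp⟩
      rw [key _ _ h3, Equiv.apply_symm_apply]
      exact h2
  rw [h2]
  exact h (e v)

theorem of_typeB {n : ℕ} (G : SimpleGraph (Fin n)) {V : Type*} (e : Fin n ≃ V)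
    (adj : V → V → Prop) (hadj : ∀ i j, G.Adj i j ↔ adj (e i) (e j)) (pos : Fin n ≃ Fin n)
    (h : IsTypeB G pos) : ∃ f : V → ℕ, Function.Injective f ∧ RB adj f := by
  refine ⟨fun v => (pos (e.symm v) : ℕ), ?_, fun v => ?_⟩
  · intro a b hab
    exact e.symm.injective (pos.injective (Fin.ext hab))
  · have h2 : bd adj (fun v => (pos (e.symm v) : ℕ)) v = dMinus G pos (e.symm v) := by
      unfold dMinus bd
      rw [← Set.ncard_image_of_injective _ e.injective]
      congr 1
      ext w
      simp only [Set.mem_image, Set.mem_ofPred_eq]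
      constructor
      · rintro ⟨h1, h2⟩
        refine ⟨e.symm w, ⟨?_, ?_⟩, by simp⟩
        · rw [hadj]
          simpa using h1
        · exact h2
      · rintro ⟨x, ⟨h1, h2⟩, rfl⟩
        refine ⟨?_, ?_⟩
        · rw [hadj] at h1
          simpa using h1
        · simpa using h2
    rw [h2]
    rcases h (e.symm v) with h1 | ⟨h1, h3⟩
    · exact Or.inl h1
    · right
      refine ⟨h1, fun w hw hlt => ?_⟩
      unfold dPlus at h3
      rw [Set.ncard_eq_zero (Set.toFinite _)] at h3
      have h4 : e.symm w ∈ {w | G.Adj (e.symm v) w ∧ pos (e.symm v) < pos w} := by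
        refine ⟨?_, hlt⟩
        rw [hadj]
        simpa using hw
      rw [h3] at h4
      exact h4

theorem typeB_of_typeA {n : ℕ} {G : SimpleGraph (Fin n)} {pos : Fin n ≃ Fin n}
    (h : IsTypeA G pos) : IsTypeB G pos := fun v => Or.inl (h v)

/-! ### Attaching complete graphs on four vertices -/

/-- adjacency of the attachment -/
def pk (a b : Fin 5) : Bool :=
  decide (a ≠ b) && (decide (a ≠ 0) || decide (b = 1)) && (decide (b ≠ 0) || decide (a = 1))

/-- the extended adjacency -/
def adjX {V : Type*} (adj : V → V → Prop) (x y : V × Fin 5) : Prop :=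
  (x.2 = 0 ∧ y.2 = 0 ∧ adj x.1 y.1) ∨ (x.1 = y.1 ∧ pk x.2 y.2 = true)

theorem adjX_ne {V : Type*} [DecidableEq V] {adj : V → V → Prop} (v : V) (i : Fin 5) (hi : i ≠ 0)
    (w : V × Fin 5) : adjX adj (v, i) w ↔
      w ∈ (Finset.univ.filter (fun j : Fin 5 => pk i j = true)).image (fun j => (v, j)) := by
  obtain ⟨w, j⟩ := w
  simp only [adjX, hi, false_and, false_or, Finset.mem_image, Finset.mem_filter, Finset.mem_univ,
    true_and, Prod.mk.injEq]
  constructor
  · rintro ⟨rfl, h⟩
    exact ⟨j, h, rfl, rfl⟩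
  · rintro ⟨k, h, rfl, rfl⟩
    exact ⟨rfl, h⟩

theorem bd_ne {V : Type*} {adj : V → V → Prop} (f : V × Fin 5 → ℕ) (v : V) (i : Fin 5)
    (hi : i ≠ 0) : bd (adjX adj) f (v, i) =
      ∑ j ∈ Finset.univ.filter (fun j : Fin 5 => pk i j = true), ci (f (v, j)) (f (v, i)) := by
  classical
  rw [bd_eq _ (adjX_ne v i hi), Finset.sum_image]
  intro a _ b _ hab
  simpa using hab

theorem k4_lemma (a0 a1 a2 a3 a4 : ℕ) (h12 : a1 ≠ a2) (h13 : a1 ≠ a3) (h14 : a1 ≠ a4)
    (h23 : a2 ≠ a3) (h24 : a2 ≠ a4) (h34 : a3 ≠ a4) (h01 : a1 < a0)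
    (e1 : ci a0 a1 + ci a2 a1 + ci a3 a1 + ci a4 a1 ≠ 2 ∨ (a2 < a1 ∧ a3 < a1 ∧ a4 < a1))
    (e2 : ci a1 a2 + ci a3 a2 + ci a4 a2 ≠ 2 ∨ (a1 < a2 ∧ a3 < a2 ∧ a4 < a2))
    (e3 : ci a1 a3 + ci a2 a3 + ci a4 a3 ≠ 2 ∨ (a1 < a3 ∧ a2 < a3 ∧ a4 < a3))
    (e4 : ci a1 a4 + ci a2 a4 + ci a3 a4 ≠ 2 ∨ (a1 < a4 ∧ a2 < a4 ∧ a3 < a4)) : False := by
  rw [ci_neg h01] at e1
  rcases Nat.lt_or_gt_of_ne h12 with g12 | g12 <;> rcases Nat.lt_or_gt_of_ne h13 with g13 | g13 <;>
  rcases Nat.lt_or_gt_of_ne h14 with g14 | g14 <;> rcases Nat.lt_or_gt_of_ne h23 with g23 | g23 <;>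
  rcases Nat.lt_or_gt_of_ne h24 with g24 | g24 <;> rcases Nat.lt_or_gt_of_ne h34 with g34 | g34 <;>
  simp only [ci_pos, ci_neg, g12, g13, g14, g23, g24, g34] at e1 e2 e3 e4 <;> omega

theorem f1 : Finset.univ.filter (fun j : Fin 5 => pk 1 j = true) = {0, 2, 3, 4} := by decide
theorem f2 : Finset.univ.filter (fun j : Fin 5 => pk 2 j = true) = {1, 3, 4} := by decide
theorem f3 : Finset.univ.filter (fun j : Fin 5 => pk 3 j = true) = {1, 2, 4} := by decide
theorem f4 : Finset.univ.filter (fun j : Fin 5 => pk 4 j = true) = {1, 2, 3} := by decide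

theorem ext_sound {V : Type*} (adj : V → V → Prop) (f : V × Fin 5 → ℕ)
    (hf : Function.Injective f) (h : RB (adjX adj) f) : RA adj (fun v => f (v, 0)) := by
  intro v
  have hne : ∀ i j : Fin 5, i ≠ j → f (v, i) ≠ f (v, j) := by
    intro i j hij hcon
    have := hf hcon
    simp only [Prod.mk.injEq, true_and] at this
    exact hij this
  have key : f (v, 0) < f (v, 1) := by
    by_contra hcon
    have h01 : f (v, 1) < f (v, 0) := by
      have := hne 0 1 (by decide)
      omega
    have g : ∀ i : Fin 5, i ≠ 0 → bd (adjX adj) f (v, i) ≠ 2 ∨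
        ∀ j : Fin 5, pk i j = true → ¬ f (v, i) < f (v, j) := by
      intro i _
      rcases h (v, i) with (h1 | h1) | ⟨_, h1⟩
      · left
        intro h2
        rw [h2] at h1
        exact absurd h1 (by decide)
      · left
        omega
      · right
        intro j hj
        exact h1 (v, j) (Or.inr ⟨rfl, hj⟩)
    refine k4_lemma (f (v, 0)) (f (v, 1)) (f (v, 2)) (f (v, 3)) (f (v, 4)) (hne _ _ (by decide))
      (hne _ _ (by decide)) (hne _ _ (by decide)) (hne _ _ (by decide)) (hne _ _ (by decide))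
      (hne _ _ (by decide)) h01 ?_ ?_ ?_ ?_
    · have := g 1 (by decide)
      rw [bd_ne f v 1 (by decide), f1] at this
      have s : ∑ j ∈ ({0, 2, 3, 4} : Finset (Fin 5)), ci (f (v, j)) (f (v, 1)) =
        ci (f (v, 0)) (f (v, 1)) + ci (f (v, 2)) (f (v, 1)) + ci (f (v, 3)) (f (v, 1)) +
          ci (f (v, 4)) (f (v, 1)) := by
        rw [Finset.sum_insert (by decide), Finset.sum_insert (by decide),
          Finset.sum_insert (by decide), Finset.sum_singleton]
        ring
      rw [s] at this
      refine this.imp id fun h1 => ?_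
      have n2 := h1 2 (by decide)
      have n3 := h1 3 (by decide)
      have n4 := h1 4 (by decide)
      have m2 := hne 1 2 (by decide)
      have m3 := hne 1 3 (by decide)
      have m4 := hne 1 4 (by decide)
      omega
    · have := g 2 (by decide)
      rw [bd_ne f v 2 (by decide), f2] at this
      have s : ∑ j ∈ ({1, 3, 4} : Finset (Fin 5)), ci (f (v, j)) (f (v, 2)) =
        ci (f (v, 1)) (f (v, 2)) + ci (f (v, 3)) (f (v, 2)) + ci (f (v, 4)) (f (v, 2)) := by
        rw [Finset.sum_insert (by decide), Finset.sum_insert (by decide), Finset.sum_singleton]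
        ring
      rw [s] at this
      refine this.imp id fun h1 => ?_
      have n2 := h1 1 (by decide)
      have n3 := h1 3 (by decide)
      have n4 := h1 4 (by decide)
      have m2 := hne 2 1 (by decide)
      have m3 := hne 2 3 (by decide)
      have m4 := hne 2 4 (by decide)
      omega
    · have := g 3 (by decide)
      rw [bd_ne f v 3 (by decide), f3] at this
      have s : ∑ j ∈ ({1, 2, 4} : Finset (Fin 5)), ci (f (v, j)) (f (v, 3)) =
        ci (f (v, 1)) (f (v, 3)) + ci (f (v, 2)) (f (v, 3)) + ci (f (v, 4)) (f (v, 3)) := by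
        rw [Finset.sum_insert (by decide), Finset.sum_insert (by decide), Finset.sum_singleton]
        ring
      rw [s] at this
      refine this.imp id fun h1 => ?_
      have n2 := h1 1 (by decide)
      have n3 := h1 2 (by decide)
      have n4 := h1 4 (by decide)
      have m2 := hne 3 1 (by decide)
      have m3 := hne 3 2 (by decide)
      have m4 := hne 3 4 (by decide)
      omega
    · have := g 4 (by decide)
      rw [bd_ne f v 4 (by decide), f4] at this
      have s : ∑ j ∈ ({1, 2, 3} : Finset (Fin 5)), ci (f (v, j)) (f (v, 4)) =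
        ci (f (v, 1)) (f (v, 4)) + ci (f (v, 2)) (f (v, 4)) + ci (f (v, 3)) (f (v, 4)) := by
        rw [Finset.sum_insert (by decide), Finset.sum_insert (by decide), Finset.sum_singleton]
        ring
      rw [s] at this
      refine this.imp id fun h1 => ?_
      have n2 := h1 1 (by decide)
      have n3 := h1 2 (by decide)
      have n4 := h1 3 (by decide)
      have m2 := hne 4 1 (by decide)
      have m3 := hne 4 2 (by decide)
      have m4 := hne 4 3 (by decide)
      omega
  have hb : bd (adjX adj) f (v, 0) = bd adj (fun v => f (v, 0)) v := by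
    unfold bd
    rw [← Set.ncard_image_of_injective {w | adj v w ∧ f (w, 0) < f (v, 0)}
      (Prod.mk_left_injective (0 : Fin 5))]
    congr 1
    ext ⟨w, j⟩
    simp only [Set.mem_ofPred_eq, Set.mem_image, Prod.mk.injEq, adjX]
    constructor
    · rintro ⟨(⟨_, rfl, h1⟩ | ⟨rfl, h1⟩), h2⟩
      · exact ⟨w, ⟨h1, h2⟩, rfl, rfl⟩
      · exfalso
        have : j = 1 := by
          revert h1
          clear h2
          revert j
          decide
        subst this
        omega
    · rintro ⟨x, ⟨h1, h2⟩, rfl, rfl⟩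
      exact ⟨Or.inl ⟨trivial, rfl, h1⟩, h2⟩
  rw [← hb]
  rcases h (v, 0) with h1 | ⟨_, h1⟩
  · exact h1
  · exact absurd key (h1 (v, 1) (Or.inr ⟨rfl, (by decide : pk 0 1 = true)⟩))

/-- the ranks of the attached vertices -/
def gk : Fin 5 → ℕ := ![0, 2, 0, 1, 3]

/-- the extended rank -/
def fX {V : Type*} (f : V → ℕ) (B : ℕ) (x : V × Fin 5) : ℕ := if x.2 = 0 then f x.1 else B + gk x.2

theorem ext_complete {V : Type*} (adj : V → V → Prop) (f : V → ℕ) (B : ℕ) (hB : ∀ v, f v < B)
    (hd : ∀ u v, adj u v → f u ≠ f v) (h : RA adj f) :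
    RA (adjX adj) (fX f B) ∧ ∀ x y, adjX adj x y → fX f B x ≠ fX f B y := by
  refine ⟨?_, ?_⟩
  · rintro ⟨v, i⟩
    have hB' := hB v
    by_cases hi : i = 0
    · subst hi
      have hb : bd (adjX adj) (fX f B) (v, 0) = bd adj f v := by
        unfold bd
        rw [← Set.ncard_image_of_injective {w | adj v w ∧ f w < f v}
          (Prod.mk_left_injective (0 : Fin 5))]
        congr 1
        ext ⟨w, j⟩
        simp only [Set.mem_ofPred_eq, Set.mem_image, Prod.mk.injEq, adjX]
        constructor
        · rintro ⟨(⟨_, rfl, h1⟩ | ⟨rfl, h1⟩), h2⟩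
          · exact ⟨w, ⟨h1, by simpa [fX] using h2⟩, rfl, rfl⟩
          · exfalso
            have : j ≠ 0 := by
              revert h1
              clear h2
              revert j
              decide
            simp only [fX, if_neg this, if_true] at h2
            omega
        · rintro ⟨x, ⟨h1, h2⟩, rfl, rfl⟩
          exact ⟨Or.inl ⟨trivial, rfl, h1⟩, by simpa [fX] using h2⟩
      rw [hb]
      exact h v
    · rw [bd_ne _ _ _ hi]
      have : i = 1 ∨ i = 2 ∨ i = 3 ∨ i = 4 := by
        revert hi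
        revert i
        decide
      have c0 : fX f B (v, 0) = f v := rfl
      have c1 : fX f B (v, 1) = B + 2 := rfl
      have c2 : fX f B (v, 2) = B + 0 := rfl
      have c3 : fX f B (v, 3) = B + 1 := rfl
      have c4 : fX f B (v, 4) = B + 3 := rfl
      rcases this with rfl | rfl | rfl | rfl
      · left
        rw [f1, Finset.sum_insert (by decide), Finset.sum_insert (by decide),
          Finset.sum_insert (by decide), Finset.sum_singleton, c0, c1, c2, c3, c4,
          ci_pos (show f v < B + 2 by omega), ci_pos (show B + 0 < B + 2 by omega),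
          ci_pos (show B + 1 < B + 2 by omega), ci_neg (show B + 2 < B + 3 by omega)]
        decide
      · right
        rw [f2, Finset.sum_insert (by decide),
          Finset.sum_insert (by decide), Finset.sum_singleton, c1, c2, c3, c4,
          ci_neg (show B + 0 < B + 2 by omega),
          ci_neg (show B + 0 < B + 1 by omega), ci_neg (show B + 0 < B + 3 by omega)]
        rfl
      · left
        rw [f3, Finset.sum_insert (by decide),
          Finset.sum_insert (by decide), Finset.sum_singleton, c1, c2, c3, c4,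
          ci_neg (show B + 1 < B + 2 by omega),
          ci_pos (show B + 0 < B + 1 by omega), ci_neg (show B + 1 < B + 3 by omega)]
        decide
      · left
        rw [f4, Finset.sum_insert (by decide),
          Finset.sum_insert (by decide), Finset.sum_singleton, c1, c2, c3, c4,
          ci_pos (show B + 2 < B + 3 by omega),
          ci_pos (show B + 0 < B + 3 by omega), ci_pos (show B + 1 < B + 3 by omega)]
        decide
  · rintro ⟨v, i⟩ ⟨w, j⟩ hvw
    rcases hvw with ⟨h1, h2, h3⟩ | ⟨h1, h2⟩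
    · simp only at h1 h2 h3
      subst h1 h2
      simpa [fX] using hd v w h3
    · simp only at h1 h2
      subst h1
      have hB' := hB v
      have key : ∀ i j : Fin 5, pk i j = true → (i = 0 ∧ j ≠ 0) ∨ (i ≠ 0 ∧ j = 0) ∨
          (i ≠ 0 ∧ j ≠ 0 ∧ gk i ≠ gk j) := by decide
      rcases key i j h2 with ⟨rfl, hj⟩ | ⟨hi, rfl⟩ | ⟨hi, hj, hij⟩
      · simp only [fX, if_neg hj, if_true]
        omega
      · simp only [fX, if_neg hi, if_true]
        omega
      · simp only [fX, if_neg hi, if_neg hj]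
        omega

end Pool.Agent.H671R2.Ord
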