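import Pool.Agent.H671R2.OrdCode

/-!
# Hardness of the recognition of graphs with Type-A / Type-B orders
-/

namespace Pool.Agent.H671R2.Ord

open Pool.Agent.NPC Pool.Agent.NPC.R671 Lb

theorem bsat_iff (φ : Φ) : BSat φ ↔ ∃ σ : ℕ → Bool, ∀ j < φ.length,
    ∃ k l, lit φ j k = some l ∧ l.1 < φ.flatten.length ∧ σ l.1 = l.2 := by
  unfold BSat
  refine exists_congr fun σ => ?_
  constructor
  · intro h j hj
    obtain ⟨l, hl, h1, h2⟩ := h φ[j] (List.getElem_mem hj)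
    obtain ⟨k, hk, hk'⟩ := List.getElem_of_mem hl
    refine ⟨k, (l.2, l.1), ?_, h1, h2⟩
    unfold lit
    rw [List.getD_eq_getElem?_getD, List.getElem?_eq_getElem hj, Option.getD_some,
      List.getElem?_eq_getElem hk, hk']
    rfl
  · intro h c hc
    obtain ⟨j, hj, rfl⟩ := List.getElem_of_mem hc
    obtain ⟨k, l, hl, h1, h2⟩ := h j hj
    unfold lit at hl
    rw [List.getD_eq_getElem?_getD, List.getElem?_eq_getElem hj, Option.getD_some,
      Option.map_eq_some_iff] at hl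
    obtain ⟨l', hl', rfl⟩ := hl
    exact ⟨l', List.mem_of_getElem? hl', h1, h2⟩

/-- the graph of a formula -/
def gr (φ : Φ) : SimpleGraph (Fin (vX φ φ.flatten.length φ.length).length) :=
  listGraph (vX φ φ.flatten.length φ.length) (aX φ) (aX_symm φ) (aX_irrefl φ)

theorem gr_matrix (φ : Φ) : adjMatrix (gr φ) = (vcX φ φ.flatten.length φ.length).map (fun u =>
      (vcX φ φ.flatten.length φ.length).map (fun w => adX φ u w)) := by
  unfold gr
  rw [adjMatrix_listGraph, ← vX_map]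
  simp [List.map_map, Function.comp_def, adX_code]

theorem gr_equiv (φ : Φ) : ∃ e : Fin (vX φ φ.flatten.length φ.length).length ≃
    V0 φ.flatten.length φ.length (lit φ) × Fin 5,
    ∀ i j, (gr φ).Adj i j ↔ adjX A0 (e i) (e j) := by
  obtain ⟨e, he⟩ := exists_equiv (vX φ φ.flatten.length φ.length) (vX_nodup _ _ _)
    (fun x : V0 φ.flatten.length φ.length (lit φ) × Fin 5 => (x.1.1, x.2))
    (by
      rintro ⟨⟨u, hu⟩, i⟩ ⟨⟨w, hw⟩, j⟩ h
      simp only [Prod.mk.injEq] at h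
      obtain ⟨rfl, rfl⟩ := h
      rfl)
    (by
      rintro ⟨z, i⟩
      rw [mem_vX]
      constructor
      · intro h
        exact ⟨(⟨z, h⟩, i), rfl⟩
      · rintro ⟨⟨⟨w, hw⟩, j⟩, h⟩
        simp only [Prod.mk.injEq] at h
        rw [← h.1]
        exact hw)
  refine ⟨e, fun i j => ?_⟩
  change aX φ (vX φ φ.flatten.length φ.length)[i] (vX φ φ.flatten.length φ.length)[j] = true ↔ _
  rw [← he i, ← he j]
  generalize e i = x
  generalize e j = y
  obtain ⟨⟨u, hu⟩, i'⟩ := x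
  obtain ⟨⟨w, hw⟩, j'⟩ := y
  simp only [aX, adjX, A0, Bool.or_eq_true, Bool.and_eq_true, decide_eq_true_eq,
    Subtype.mk.injEq, and_assoc]

theorem gr_A (φ : Φ) (h : BSat φ) : ∃ pos, IsTypeA (gr φ) pos := by
  obtain ⟨σ, hσ⟩ := (bsat_iff φ).1 h
  obtain ⟨f, h1, h2, h3⟩ := complete (n := φ.flatten.length) (m := φ.length) (lit := lit φ)
    (fun j k l hl => lit_lt hl) σ hσ
  obtain ⟨e, he⟩ := gr_equiv φ
  obtain ⟨h4, h5⟩ := ext_complete A0 f 15 h1 h2 h3
  exact typeA_of (gr φ) e (adjX A0) he _ h5 h4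

theorem gr_B (φ : Φ) (h : ∃ pos, IsTypeB (gr φ) pos) : BSat φ := by
  obtain ⟨pos, hpos⟩ := h
  obtain ⟨e, he⟩ := gr_equiv φ
  obtain ⟨f, h1, h2⟩ := of_typeB (gr φ) e (adjX A0) he pos hpos
  have h3 := ext_sound A0 f h1 h2
  rw [bsat_iff]
  refine sound (fun j k l hl => lit_lt hl) (fun v => f (v, 0)) ?_ h3
  intro a b hab
  have := h1 hab
  simpa using this

theorem typeA_iff (φ : Φ) : BSat φ ↔ ∃ pos, IsTypeA (gr φ) pos :=
  ⟨gr_A φ, fun ⟨pos, h⟩ => gr_B φ ⟨pos, typeB_of_typeA h⟩⟩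

theorem typeB_iff (φ : Φ) : BSat φ ↔ ∃ pos, IsTypeB (gr φ) pos := by
  refine ⟨fun h => ?_, gr_B φ⟩
  obtain ⟨pos, h1⟩ := gr_A φ h
  exact ⟨pos, typeB_of_typeA h1⟩

theorem gr_poly : Poly (fun φ : Φ => adjMatrix (gr φ)) :=
  adj_poly.congr fun φ => (gr_matrix φ).symm

theorem matrix_iff {n : ℕ} (G : SimpleGraph (Fin n)) (Q : ∀ n : ℕ, SimpleGraph (Fin n) → Prop) :
    (∃ (n' : ℕ) (H : SimpleGraph (Fin n')), adjMatrix H = adjMatrix G ∧ Q n' H) ↔ Q n G := by
  constructor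
  · rintro ⟨n', H, hG, hk⟩
    have hn : n' = n := by
      have h1 := congrArg List.length hG
      simpa only [adjMatrix, List.length_ofFn] using h1
    subst hn
    rw [← adjMatrix_inj hG]
    exact hk
  · intro h
    exact ⟨n, G, rfl, h⟩

theorem hardI_A : HardI AdmitsA := by
  refine hardI_BSat.trans gr_poly fun φ => ?_
  rw [typeA_iff]
  exact (matrix_iff (gr φ) (fun n G => ∃ pos, IsTypeA G pos)).symm

theorem hardI_B : HardI AdmitsB := by
  refine hardI_BSat.trans gr_poly fun φ => ?_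
  rw [typeB_iff]
  exact (matrix_iff (gr φ) (fun n G => ∃ pos, IsTypeB G pos)).symm

/-- Every language in `NP` is reduced in polynomial time to graphs. -/
theorem hard (L : Set (List Bool)) (hL : InNP L) :
    ∃ f : List Bool → List Bool, PolyTime f ∧ ∀ w, ∃ (n : ℕ) (G : SimpleGraph (Fin n)),
      f w = bits (adjMatrix G) ∧ (w ∈ L ↔ ∃ pos, IsTypeA G pos) ∧
        (w ∈ L ↔ ∃ pos, IsTypeB G pos) := by
  obtain ⟨g, hg, hgL⟩ := hardI_BSat L hL
  refine ⟨fun w => bits (adjMatrix (gr (g w))), PC.toPolyTime_bits gr_poly g hg, fun w => ?_⟩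
  exact ⟨_, gr (g w), rfl, by rw [hgL w, typeA_iff], by rw [hgL w, typeB_iff]⟩

end Pool.Agent.H671R2.Ord
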