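import Pool.Agent.H671R2.OrdGadget
import Pool.Agent.H671R2.Ord

/-!
# Correctness of the reduction for Type-A orders (label level)
-/

namespace Pool.Agent.H671R2.Ord

open Lb

/-- the base vertices -/
abbrev V0 (n m : ℕ) (lit : ℕ → ℕ → Option (ℕ × Bool)) : Type := {z : Lb // valid n m lit z = true}

/-- the adjacency of base vertices -/
def A0 {n m : ℕ} {lit : ℕ → ℕ → Option (ℕ × Bool)} (u w : V0 n m lit) : Prop :=
  adj lit u.1 w.1 = true

variable {n m : ℕ} {lit : ℕ → ℕ → Option (ℕ × Bool)}

theorem bd_sub (f : V0 n m lit → ℕ) (ρ : Lb → ℕ) (hρ : ∀ v : V0 n m lit, ρ v.1 = f v)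
    (v : Lb) (hv : valid n m lit v = true) (N : Finset Lb)
    (hN : ∀ z, z ∈ N ↔ (valid n m lit z = true ∧ adj lit v z = true)) :
    bd A0 f ⟨v, hv⟩ = ∑ z ∈ N, ci (ρ z) (ρ v) := by
  unfold bd ci
  rw [← Finset.card_filter, ← Set.ncard_coe_finset, ← Set.ncard_image_of_injective _
    Subtype.val_injective]
  congr 1
  ext z
  simp only [A0, Set.mem_image, Set.mem_ofPred_eq, Subtype.exists, exists_and_right,
    exists_eq_right, Finset.coe_filter, hN]
  constructor
  · rintro ⟨hz, h1, h2⟩
    refine ⟨⟨hz, h1⟩, ?_⟩
    rw [hρ ⟨z, hz⟩, hρ ⟨v, hv⟩]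
    exact h2
  · rintro ⟨⟨hz, h1⟩, h2⟩
    refine ⟨hz, h1, ?_⟩
    rw [hρ ⟨z, hz⟩, hρ ⟨v, hv⟩] at h2
    exact h2

theorem sum_L (ρ : Lb → ℕ) (i : ℕ) (s : Bool) :
    ∑ z ∈ ({L i (!s)} ∪ ((Finset.range m ×ˢ Finset.range n).filter
      (fun x => lit x.1 x.2 = some (i, s))).biUnion (fun x => {p x.1 x.2, r x.1 x.2}) :
        Finset Lb), ci (ρ z) (ρ (L i s)) = ci (ρ (L i (!s))) (ρ (L i s)) +
      ∑ x ∈ (Finset.range m ×ˢ Finset.range n).filter (fun x => lit x.1 x.2 = some (i, s)),
        (ci (ρ (p x.1 x.2)) (ρ (L i s)) + ci (ρ (r x.1 x.2)) (ρ (L i s))) := by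
  rw [Finset.sum_union, Finset.sum_singleton, Finset.sum_biUnion]
  · have : ∀ x ∈ (Finset.range m ×ˢ Finset.range n).filter (fun x => lit x.1 x.2 = some (i, s)),
        ∑ z ∈ ({p x.1 x.2, r x.1 x.2} : Finset Lb), ci (ρ z) (ρ (L i s)) =
          ci (ρ (p x.1 x.2)) (ρ (L i s)) + ci (ρ (r x.1 x.2)) (ρ (L i s)) := by
      intro x _
      rw [Finset.sum_insert (by simp), Finset.sum_singleton]
    rw [Finset.sum_congr rfl this]
  · intro x _ y _ hxy
    simp only [Function.onFun]
    rw [Finset.disjoint_left]
    intro z hz hz'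
    simp only [Finset.mem_insert, Finset.mem_singleton] at hz hz'
    apply hxy
    rcases hz with rfl | rfl
    · simp only [Lb.p.injEq, reduceCtorEq, or_false] at hz'
      exact Prod.ext hz'.1 hz'.2
    · simp only [Lb.r.injEq, reduceCtorEq, false_or] at hz'
      exact Prod.ext hz'.1 hz'.2
  · rw [Finset.disjoint_left]
    intro z hz hz'
    simp only [Finset.mem_singleton] at hz
    subst hz
    simp at hz'

theorem sum_C (ρ : Lb → ℕ) (j : ℕ) :
    ∑ z ∈ ({T j false, T j true} ∪ ((Finset.range n).filter
      (fun k => occ n m lit j k = true)).image (fun k => P j k) : Finset Lb),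
        ci (ρ z) (ρ (C j)) = ci (ρ (T j false)) (ρ (C j)) + ci (ρ (T j true)) (ρ (C j)) +
      ∑ k ∈ (Finset.range n).filter (fun k => occ n m lit j k = true),
        ci (ρ (P j k)) (ρ (C j)) := by
  rw [Finset.sum_union, Finset.sum_insert (by simp), Finset.sum_singleton, Finset.sum_image]
  · intro a _ b _ hab
    simpa using hab
  · rw [Finset.disjoint_left]
    intro z hz hz'
    simp only [Finset.mem_insert, Finset.mem_singleton] at hz
    rcases hz with rfl | rfl <;> simp at hz'

theorem occ_lit {j k : ℕ} (ho : occ n m lit j k = true) :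
    j < m ∧ ∃ i s, lit j k = some (i, s) ∧ i < n := by
  simp only [occ, Bool.and_eq_true, decide_eq_true_eq, Option.any_eq_true] at ho
  obtain ⟨h1, ⟨i, s⟩, h2, h3⟩ := ho
  exact ⟨h1, i, s, h2, h3⟩

theorem sound (hlit : ∀ j k l, lit j k = some l → k < n) (f : V0 n m lit → ℕ)
    (hf : Function.Injective f) (h : RA A0 f) :
    ∃ σ : ℕ → Bool, ∀ j < m, ∃ k l, lit j k = some l ∧ l.1 < n ∧ σ l.1 = l.2 := by
  classical
  let ρ : Lb → ℕ := fun z => if hz : valid n m lit z = true then f ⟨z, hz⟩ else 0
  have hρ : ∀ v : V0 n m lit, ρ v.1 = f v := fun v => dif_pos v.2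
  have hne : ∀ u w : Lb, valid n m lit u = true → valid n m lit w = true → u ≠ w →
      ρ u ≠ ρ w := by
    intro u w hu hw huw hcon
    rw [hρ ⟨u, hu⟩, hρ ⟨w, hw⟩] at hcon
    exact huw (congrArg Subtype.val (hf hcon))
  have hD : ∀ (v : Lb) (_ : valid n m lit v = true) (N : Finset Lb)
      (_ : ∀ z, z ∈ N ↔ (valid n m lit z = true ∧ adj lit v z = true)),
      (∑ z ∈ N, ci (ρ z) (ρ v)) % 2 = 1 ∨ ∑ z ∈ N, ci (ρ z) (ρ v) = 0 := by
    intro v hv N hN
    rw [← bd_sub f ρ hρ v hv N hN, ← Nat.odd_iff]
    exact h ⟨v, hv⟩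
  have gad : ∀ (j k i : ℕ) (s : Bool), occ n m lit j k = true → lit j k = some (i, s) → i < n →
      ci (ρ (q j k)) (ρ (P j k)) = ci (ρ (r j k)) (ρ (P j k)) ∧
      ci (ρ (p j k)) (ρ (L i s)) = ci (ρ (r j k)) (ρ (L i s)) ∧
      (ci (ρ (p j k)) (ρ (L i s)) = 1 ∨ ci (ρ (q j k)) (ρ (P j k)) = 1) := by
    intro j k i s ho hl hi
    have vL : valid n m lit (L i s) = true := by simpa [valid] using hi
    have e1 := hD (H j k false) ho _ (nb_H false ho)
    have e2 := hD (H j k true) ho _ (nb_H true ho)
    have e3 := hD (p j k) ho _ (nb_p hl ho)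
    have e4 := hD (q j k) ho _ (nb_q ho)
    have e5 := hD (r j k) ho _ (nb_r hl ho)
    rw [Finset.sum_insert (by simp), Finset.sum_insert (by simp), Finset.sum_insert (by simp),
      Finset.sum_singleton] at e1 e2 e3 e4 e5
    exact gadget _ _ _ _ _ _ _ (hne (H j k false) (H j k true) ho ho (by simp))
      (hne (H j k false) (p j k) ho ho (by simp)) (hne (H j k false) (q j k) ho ho (by simp))
      (hne (H j k false) (r j k) ho ho (by simp)) (hne (H j k true) (p j k) ho ho (by simp))
      (hne (H j k true) (q j k) ho ho (by simp)) (hne (H j k true) (r j k) ho ho (by simp))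
      (hne (p j k) (q j k) ho ho (by simp)) (hne (p j k) (L i s) ho vL (by simp))
      (hne (q j k) (P j k) ho ho (by simp)) (hne (r j k) (P j k) ho ho (by simp))
      (hne (r j k) (L i s) ho vL (by simp)) e1 e2 e3 e4 e5
  refine ⟨fun i => decide (ρ (L i false) < ρ (L i true)), fun j hj => ?_⟩
  have vC : valid n m lit (C j) = true := by simpa [valid] using hj
  have vT : ∀ b, valid n m lit (T j b) = true := by
    intro b
    simpa [valid] using hj
  -- the vertices `T` come before `C`
  have hT : ρ (T j false) < ρ (C j) ∧ ρ (T j true) < ρ (C j) := by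
    have t1 := hD (T j false) (vT _) _ (nb_T false hj)
    have t2 := hD (T j true) (vT _) _ (nb_T true hj)
    rw [Finset.sum_insert (by simp), Finset.sum_singleton] at t1 t2
    simp only [Bool.not_false, Bool.not_true] at t1 t2
    have n1 := hne (T j false) (T j true) (vT _) (vT _) (by simp)
    have n2 := hne (T j false) (C j) (vT _) vC (by simp)
    have n3 := hne (T j true) (C j) (vT _) vC (by simp)
    have c1 := ci_cases (ρ (T j false)) (ρ (T j true))
    have c2 := ci_cases (ρ (T j true)) (ρ (T j false))
    have c3 := ci_cases (ρ (C j)) (ρ (T j true))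
    have c4 := ci_cases (ρ (C j)) (ρ (T j false))
    omega
  -- some leaf comes before `C`
  have hP : ∃ k, occ n m lit j k = true ∧ ρ (P j k) < ρ (C j) := by
    by_contra hcon
    push Not at hcon
    have t := hD (C j) vC _ (nb_C hj hlit)
    rw [sum_C, ci_pos hT.1, ci_pos hT.2, Finset.sum_eq_zero] at t
    · omega
    · intro k hk
      rw [Finset.mem_filter] at hk
      have := hcon k hk.2
      exact if_neg (by omega)
  obtain ⟨k, ho, hk⟩ := hP
  obtain ⟨_, i, s, hl, hi⟩ := occ_lit ho
  obtain ⟨g1, g2, g3⟩ := gad j k i s ho hl hi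
  have hq : ci (ρ (q j k)) (ρ (P j k)) = 0 := by
    have t := hD (P j k) ho _ (nb_P ho)
    rw [Finset.sum_insert (by simp), Finset.sum_insert (by simp), Finset.sum_singleton,
      ci_neg hk, ← g1] at t
    omega
  have hp : ci (ρ (p j k)) (ρ (L i s)) = 1 := by omega
  refine ⟨k, (i, s), hl, hi, ?_⟩
  have vL : ∀ b, valid n m lit (L i b) = true := by
    intro b
    simpa [valid] using hi
  have hc : ρ (L i (!s)) < ρ (L i s) := by
    by_contra hcon
    have t := hD (L i s) (vL _) _ (nb_L s hi hlit)
    have hz : ci (ρ (L i (!s))) (ρ (L i s)) = 0 := if_neg hcon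
    have hs : ∑ x ∈ (Finset.range m ×ˢ Finset.range n).filter (fun x => lit x.1 x.2 = some (i, s)),
        (ci (ρ (p x.1 x.2)) (ρ (L i s)) + ci (ρ (r x.1 x.2)) (ρ (L i s))) =
        2 * ∑ x ∈ (Finset.range m ×ˢ Finset.range n).filter (fun x => lit x.1 x.2 = some (i, s)),
        ci (ρ (p x.1 x.2)) (ρ (L i s)) := by
      rw [Finset.mul_sum]
      refine Finset.sum_congr rfl fun x hx => ?_
      rw [Finset.mem_filter, Finset.mem_product, Finset.mem_range, Finset.mem_range] at hx
      have ho' : occ n m lit x.1 x.2 = true := by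
        simp [occ, hx.1.1, hx.2, hi]
      have := (gad x.1 x.2 i s ho' hx.2 hi).2.1
      omega
    rw [sum_L, hz, hs] at t
    have h0 : ∑ x ∈ (Finset.range m ×ˢ Finset.range n).filter
        (fun x => lit x.1 x.2 = some (i, s)), ci (ρ (p x.1 x.2)) (ρ (L i s)) = 0 := by omega
    rw [Finset.sum_eq_zero_iff] at h0
    have := h0 (j, k) (by
      rw [Finset.mem_filter, Finset.mem_product, Finset.mem_range, Finset.mem_range]
      exact ⟨⟨hj, hlit _ _ _ hl⟩, hl⟩)
    simp only at this
    omega
  cases s with
  | false =>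
    simp only [Bool.not_false] at hc
    simp only [decide_eq_false_iff_not, not_lt]
    omega
  | true =>
    simp only [Bool.not_true] at hc
    simpa using hc

/-- the rank of a vertex -/
def rk (σ : ℕ → Bool) (κ : ℕ → ℕ) : Lb → ℕ
  | L i s => if σ i = s then 9 else 0
  | T _ b => if b = true then 3 else 2
  | C _ => 4
  | P j k => if k = κ j then 1 else 14
  | H j k b => if k = κ j then (if b = true then 6 else 5) else (if b = true then 11 else 10)
  | p j k => if k = κ j then 8 else 12
  | q j k => if k = κ j then 7 else 13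
  | r j k => if k = κ j then 8 else 13

theorem rk_lt (σ : ℕ → Bool) (κ : ℕ → ℕ) (z : Lb) : rk σ κ z < 15 := by
  cases z <;> simp only [rk] <;> (try split_ifs) <;> decide

theorem complete (hlit : ∀ j k l, lit j k = some l → k < n) (σ : ℕ → Bool)
    (hσ : ∀ j < m, ∃ k l, lit j k = some l ∧ l.1 < n ∧ σ l.1 = l.2) :
    ∃ f : V0 n m lit → ℕ, (∀ v, f v < 15) ∧ (∀ u v, A0 u v → f u ≠ f v) ∧ RA A0 f := by
  classical
  have hσ' : ∀ j, ∃ k, j < m → ∃ l, lit j k = some l ∧ l.1 < n ∧ σ l.1 = l.2 := by
    intro j
    by_cases hj : j < m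
    · obtain ⟨k, l, h⟩ := hσ j hj
      exact ⟨k, fun _ => ⟨l, h⟩⟩
    · exact ⟨0, fun h => absurd h hj⟩
  choose κ hκ using hσ'
  have hκ' : ∀ j k i s, j < m → k = κ j → lit j k = some (i, s) → σ i = s := by
    intro j k i s hj hk hl
    obtain ⟨l, h1, h2, h3⟩ := hκ j hj
    rw [← hk, hl] at h1
    obtain rfl := Option.some.inj h1
    exact h3
  have ho : ∀ j < m, occ n m lit j (κ j) = true ∧ κ j < n := by
    intro j hj
    obtain ⟨l, h1, h2, h3⟩ := hκ j hj
    refine ⟨?_, hlit _ _ _ h1⟩
    simp [occ, hj, h1, h2]
  have hlt : ∀ j k, occ n m lit j k = true → j < m ∧ ∃ i s, lit j k = some (i, s) ∧ i < n :=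
    fun j k => occ_lit
  refine ⟨fun v => rk σ κ v.1, fun v => rk_lt σ κ _, ?_, ?_⟩
  · have key : ∀ u w : Lb, valid n m lit u = true → valid n m lit w = true →
        adj0 lit u w = true → rk σ κ u ≠ rk σ κ w := by
      intro u w hu hw h
      cases u with
      | L i s =>
        cases w with
        | L i' s' =>
          cases s <;> cases s' <;> simp [adj0] at h
          subst h
          cases hs : σ i <;> simp [rk, hs]
        | _ => simp [adj0] at h
      | C j => cases w <;> simp [adj0] at h
      | T j b =>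
        cases w with
        | T j' b' =>
          cases b <;> cases b' <;> simp [adj0] at h
          simp [rk]
        | C j' => cases b <;> simp [rk]
        | _ => simp [adj0] at h
      | P j k =>
        cases w with
        | C j' =>
          simp only [rk]
          split_ifs <;> decide
        | _ => simp [adj0] at h
      | H j k b =>
        cases w with
        | H j' k' b' =>
          cases b <;> cases b' <;> simp [adj0] at h
          obtain ⟨rfl, rfl⟩ := h
          simp only [rk]
          split_ifs <;> simp_all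
        | p j' k' =>
          simp [adj0] at h
          obtain ⟨rfl, rfl⟩ := h
          simp only [rk]
          split_ifs <;> decide
        | q j' k' =>
          simp [adj0] at h
          obtain ⟨rfl, rfl⟩ := h
          simp only [rk]
          split_ifs <;> decide
        | r j' k' =>
          simp [adj0] at h
          obtain ⟨rfl, rfl⟩ := h
          simp only [rk]
          split_ifs <;> decide
        | _ => simp [adj0] at h
      | p j k =>
        cases w with
        | q j' k' =>
          simp [adj0] at h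
          obtain ⟨rfl, rfl⟩ := h
          simp only [rk]
          split_ifs <;> decide
        | L i s =>
          simp only [rk]
          split_ifs <;> decide
        | _ => simp [adj0] at h
      | q j k =>
        cases w with
        | P j' k' =>
          simp [adj0] at h
          obtain ⟨rfl, rfl⟩ := h
          simp only [rk]
          split_ifs <;> decide
        | _ => simp [adj0] at h
      | r j k =>
        cases w with
        | P j' k' =>
          simp [adj0] at h
          obtain ⟨rfl, rfl⟩ := h
          simp only [rk]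
          split_ifs <;> decide
        | L i s =>
          simp only [rk]
          split_ifs <;> decide
        | _ => simp [adj0] at h
    rintro ⟨u, hu⟩ ⟨w, hw⟩ huw
    have huw' : adj lit u w = true := huw
    simp only [adj, Bool.or_eq_true] at huw'
    rcases huw' with h | h
    · exact key u w hu hw h
    · exact (key w u hw hu h).symm
  · rintro ⟨v, hv⟩
    rw [Nat.odd_iff]
    cases v with
    | L i s =>
      have hi : i < n := by simpa [valid] using hv
      rw [bd_sub _ (rk σ κ) (fun _ => rfl) _ hv _ (nb_L s hi hlit), sum_L]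
      by_cases hs : σ i = s
      · left
        have h1 : ∀ x ∈ (Finset.range m ×ˢ Finset.range n).filter
            (fun x => lit x.1 x.2 = some (i, s)),
            ci (rk σ κ (p x.1 x.2)) (rk σ κ (L i s)) + ci (rk σ κ (r x.1 x.2)) (rk σ κ (L i s)) =
            2 * (if x.2 = κ x.1 then 1 else 0) := by
          intro x _
          simp only [rk, if_pos hs]
          split_ifs <;> decide
        rw [Finset.sum_congr rfl h1, ← Finset.mul_sum]
        have h2 : ci (rk σ κ (L i (!s))) (rk σ κ (L i s)) = 1 := by
          have : σ i ≠ !s := by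
            rw [hs]
            cases s <;> decide
          simp only [rk, if_pos hs, if_neg this]
          decide
        omega
      · right
        have h1 : rk σ κ (L i s) = 0 := if_neg hs
        rw [h1]
        simp [ci]
    | C j =>
      have hj : j < m := by simpa [valid] using hv
      rw [bd_sub _ (rk σ κ) (fun _ => rfl) _ hv _ (nb_C hj hlit), sum_C]
      left
      have h1 : ∀ k ∈ (Finset.range n).filter (fun k => occ n m lit j k = true),
          ci (rk σ κ (P j k)) (rk σ κ (C j)) = if k = κ j then 1 else 0 := by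
        intro k _
        simp only [rk]
        split_ifs <;> decide
      rw [Finset.sum_congr rfl h1, Finset.sum_ite_eq', if_pos (by
        rw [Finset.mem_filter, Finset.mem_range]
        exact ⟨(ho j hj).2, (ho j hj).1⟩)]
      simp [rk, ci]
    | T j b =>
      have hj : j < m := by simpa [valid] using hv
      rw [bd_sub _ (rk σ κ) (fun _ => rfl) _ hv _ (nb_T b hj), Finset.sum_insert (by simp),
        Finset.sum_singleton]
      cases b <;> simp [rk, ci]
    | P j k =>
      have hv' : occ n m lit j k = true := hv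
      rw [bd_sub _ (rk σ κ) (fun _ => rfl) _ hv _ (nb_P hv'), Finset.sum_insert (by simp),
        Finset.sum_insert (by simp), Finset.sum_singleton]
      simp only [rk]
      split_ifs <;> decide
    | H j k b =>
      have hv' : occ n m lit j k = true := hv
      rw [bd_sub _ (rk σ κ) (fun _ => rfl) _ hv _ (nb_H b hv'), Finset.sum_insert (by simp),
        Finset.sum_insert (by simp), Finset.sum_insert (by simp), Finset.sum_singleton]
      cases b <;> simp only [rk] <;> split_ifs <;> decide
    | p j k =>
      have hv' : occ n m lit j k = true := hv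
      obtain ⟨hj, i, s, hl, hi⟩ := occ_lit hv'
      have hk := hκ' j k i s hj
      rw [bd_sub _ (rk σ κ) (fun _ => rfl) _ hv _ (nb_p hl hv'), Finset.sum_insert (by simp),
        Finset.sum_insert (by simp), Finset.sum_insert (by simp), Finset.sum_singleton]
      by_cases h1 : k = κ j
      · have h2 := hk h1 hl
        simp only [rk, if_pos h1, if_pos h2]
        simp [ci]
      · simp only [rk, if_neg h1]
        split_ifs <;> simp_all [ci]
    | q j k =>
      have hv' : occ n m lit j k = true := hv
      rw [bd_sub _ (rk σ κ) (fun _ => rfl) _ hv _ (nb_q hv'), Finset.sum_insert (by simp),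
        Finset.sum_insert (by simp), Finset.sum_insert (by simp), Finset.sum_singleton]
      simp only [rk]
      split_ifs <;> simp_all [ci]
    | r j k =>
      have hv' : occ n m lit j k = true := hv
      obtain ⟨hj, i, s, hl, hi⟩ := occ_lit hv'
      have hk := hκ' j k i s hj
      rw [bd_sub _ (rk σ κ) (fun _ => rfl) _ hv _ (nb_r hl hv'), Finset.sum_insert (by simp),
        Finset.sum_insert (by simp), Finset.sum_insert (by simp), Finset.sum_singleton]
      by_cases h1 : k = κ j
      · have h2 := hk h1 hl
        simp only [rk, if_pos h1, if_pos h2]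
        simp [ci]
      · simp only [rk, if_neg h1]
        split_ifs <;> simp_all [ci]

end Pool.Agent.H671R2.Ord
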