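import Pool.Agent.H671R2.OrdDefs
import Pool.Agent.H671R2.PolyAuto
import Pool.Agent.H671R2.GraphEnc

/-!
# Checking Type-A and Type-B orders in polynomial time
-/

namespace Pool.Agent.H671R2.Ord

open Pool.Agent.NPC Pool.Agent.NPC.R671

/-- matrix entries -/
def me (M : List (List Bool)) (a b : ℕ) : Bool := (M.getD a []).getD b false

/-- `M` is an adjacency matrix -/
def wf (M : List (List Bool)) : Bool :=
  M.all (fun row => decide (row.length = M.length)) &&
  (List.range M.length).all (fun i => (List.range M.length).all (fun j =>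
    decide (me M i j = me M j i) && !(decide (i = j) && me M i j)))

/-- `l` is the list of the vertices in some order -/
def pm (M : List (List Bool)) (l : List ℕ) : Bool :=
  decide (l.length = M.length) && l.all (fun a => decide (a < M.length)) &&
  (List.range l.length).all (fun i => (List.range l.length).all (fun j =>
    decide (i = j) || !decide (l.getD i 0 = l.getD j 0)))

/-- number of neighbours before -/
def cb (M : List (List Bool)) (l : List ℕ) (i : ℕ) : ℕ :=
  ((List.range l.length).filter (fun j => decide (j < i) && me M (l.getD i 0) (l.getD j 0))).length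

/-- number of neighbours after -/
def ca (M : List (List Bool)) (l : List ℕ) (i : ℕ) : ℕ :=
  ((List.range l.length).filter (fun j => decide (i < j) && me M (l.getD i 0) (l.getD j 0))).length

/-- the condition for Type A -/
def okA (c : ℕ) : Bool := decide (c % 2 = 1) || decide (c = 0)

/-- the condition for Type B -/
def okB (c c' : ℕ) : Bool := okA c || (decide (c % 2 = 0) && decide (c' = 0))

/-- verifier for Type A -/
def RvA (x : List (List Bool) × List ℕ) : Bool :=
  wf x.1 && pm x.1 x.2 && (List.range x.2.length).all (fun i => okA (cb x.1 x.2 i))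

/-- verifier for Type B -/
def RvB (x : List (List Bool) × List ℕ) : Bool :=
  wf x.1 && pm x.1 x.2 && (List.range x.2.length).all (fun i => okB (cb x.1 x.2 i) (ca x.1 x.2 i))

theorem me_adj {n : ℕ} (G : SimpleGraph (Fin n)) (a b : Fin n) :
    me (adjMatrix G) a b = true ↔ G.Adj a b := by
  simp [me, adjMatrix, List.getD_eq_getElem?_getD]

theorem length_adjMatrix {n : ℕ} (G : SimpleGraph (Fin n)) : (adjMatrix G).length = n := by
  simp [adjMatrix]

theorem wf_iff (M : List (List Bool)) :
    wf M = true ↔ ∃ (n : ℕ) (G : SimpleGraph (Fin n)), adjMatrix G = M := by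
  constructor
  · intro h
    simp only [wf, Bool.and_eq_true, List.all_eq_true, decide_eq_true_eq, List.mem_range,
      Bool.not_eq_true', Bool.and_eq_false_iff, decide_eq_false_iff_not] at h
    obtain ⟨h1, h2⟩ := h
    refine ⟨M.length, ⟨fun i j => me M i j = true, ⟨?_⟩, ⟨?_⟩⟩, ?_⟩
    · intro i j hij
      rw [← (h2 i i.isLt j j.isLt).1]
      exact hij
    · intro i hi
      rcases (h2 i i.isLt i i.isLt).2 with h3 | h3
      · exact h3 rfl
      · rw [h3] at hi
        exact absurd hi (by simp)
    · unfold adjMatrix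
      apply List.ext_getElem
      · simp
      · intro i hi hi'
        rw [List.getElem_ofFn]
        apply List.ext_getElem
        · rw [List.length_ofFn, h1 _ (List.getElem_mem _)]
        · intro j hj hj'
          rw [List.getElem_ofFn]
          simp only [me, List.getD_eq_getElem?_getD]
          rw [List.getElem?_eq_getElem hi', Option.getD_some, List.getElem?_eq_getElem hj',
            Option.getD_some, Bool.decide_eq_true]
  · rintro ⟨n, G, rfl⟩
    simp only [wf, Bool.and_eq_true, List.all_eq_true, decide_eq_true_eq, List.mem_range,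
      Bool.not_eq_true', Bool.and_eq_false_iff, decide_eq_false_iff_not, length_adjMatrix]
    refine ⟨?_, ?_⟩
    · intro row hrow
      unfold adjMatrix at hrow
      rw [List.mem_ofFn] at hrow
      obtain ⟨i, rfl⟩ := hrow
      simp
    · intro i hi j hj
      refine ⟨?_, ?_⟩
      · rw [Bool.eq_iff_iff]
        have h1 := me_adj G ⟨i, hi⟩ ⟨j, hj⟩
        have h2 := me_adj G ⟨j, hj⟩ ⟨i, hi⟩
        simp only at h1 h2
        rw [h1, h2, SimpleGraph.adj_comm]
      · by_cases hij : i = j
        · right
          subst hij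
          have h1 := me_adj G ⟨i, hi⟩ ⟨i, hi⟩
          simp only [SimpleGraph.irrefl, iff_false, Bool.not_eq_true] at h1
          exact h1
        · exact Or.inl hij

theorem orderList_getD {n : ℕ} (pos : Fin n ≃ Fin n) (i : Fin n) :
    (orderList pos).getD i 0 = pos.symm i := by
  unfold orderList
  rw [List.getD_eq_getElem?_getD, List.getElem?_eq_getElem (by
    rw [List.length_ofFn]; exact i.isLt), List.getElem_ofFn]
  rfl

theorem length_orderList {n : ℕ} (pos : Fin n ≃ Fin n) : (orderList pos).length = n := by
  simp [orderList]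

theorem pm_iff {n : ℕ} (G : SimpleGraph (Fin n)) (l : List ℕ) :
    pm (adjMatrix G) l = true ↔ ∃ pos : Fin n ≃ Fin n, orderList pos = l := by
  constructor
  · intro h
    simp only [pm, Bool.and_eq_true, List.all_eq_true, decide_eq_true_eq, List.mem_range,
      Bool.or_eq_true, Bool.not_eq_true', decide_eq_false_iff_not, length_adjMatrix] at h
    obtain ⟨⟨h1, h2⟩, h3⟩ := h
    have hl : ∀ i : Fin n, (i : ℕ) < l.length := fun i => by rw [h1]; exact i.isLt
    let f : Fin n → Fin n := fun i => ⟨l[(i : ℕ)]'(hl i), h2 _ (List.getElem_mem _)⟩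
    have hf : Function.Injective f := by
      intro i j hij
      rcases h3 i (hl i) j (hl j) with h4 | h4
      · exact Fin.ext h4
      · exfalso
        apply h4
        rw [List.getD_eq_getElem?_getD, List.getD_eq_getElem?_getD,
          List.getElem?_eq_getElem (hl i), List.getElem?_eq_getElem (hl j)]
        exact congrArg Fin.val hij
    refine ⟨(Equiv.ofBijective f (Finite.injective_iff_bijective.1 hf)).symm, ?_⟩
    unfold orderList
    apply List.ext_getElem
    · rw [List.length_ofFn, h1]
    · intro i hi hi'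
      rw [List.getElem_ofFn]
      rfl
  · rintro ⟨pos, rfl⟩
    simp only [pm, Bool.and_eq_true, List.all_eq_true, decide_eq_true_eq, List.mem_range,
      Bool.or_eq_true, Bool.not_eq_true', decide_eq_false_iff_not, length_adjMatrix,
      length_orderList, true_and]
    refine ⟨?_, ?_⟩
    · intro a ha
      unfold orderList at ha
      rw [List.mem_ofFn] at ha
      obtain ⟨i, rfl⟩ := ha
      exact (pos.symm i).isLt
    · intro i hi j hj
      by_cases hij : i = j
      · exact Or.inl hij
      · right
        have h1 := orderList_getD pos ⟨i, hi⟩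
        have h2 := orderList_getD pos ⟨j, hj⟩
        simp only at h1 h2
        rw [h1, h2]
        intro h3
        have := pos.symm.injective (Fin.ext h3)
        exact hij (congrArg Fin.val this)

theorem cb_eq {n : ℕ} (G : SimpleGraph (Fin n)) (pos : Fin n ≃ Fin n) (i : Fin n) :
    cb (adjMatrix G) (orderList pos) i = dMinus G pos (pos.symm i) := by
  classical
  unfold cb dMinus
  rw [length_orderList, ← List.toFinset_card_of_nodup ((List.nodup_range).filter _),
    ← Set.ncard_coe_finset, ← Set.ncard_image_of_injective _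
      (Fin.val_injective.comp pos.injective)]
  congr 1
  ext j
  simp only [List.coe_toFinset, Set.mem_ofPred_eq, List.mem_filter, List.mem_range,
    Bool.and_eq_true, decide_eq_true_eq, Set.mem_image, Function.comp_apply,
    Equiv.apply_symm_apply]
  constructor
  · rintro ⟨hj, hji, h⟩
    refine ⟨pos.symm ⟨j, hj⟩, ⟨?_, ?_⟩, ?_⟩
    · rw [orderList_getD pos i] at h
      have h2 := orderList_getD pos ⟨j, hj⟩
      simp only at h2
      rw [h2, me_adj] at h
      exact h
    · rw [Equiv.apply_symm_apply]
      exact hji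
    · rw [Equiv.apply_symm_apply]
  · rintro ⟨w, ⟨h1, h2⟩, rfl⟩
    refine ⟨(pos w).isLt, h2, ?_⟩
    rw [orderList_getD pos i, orderList_getD pos (pos w), Equiv.symm_apply_apply, me_adj]
    exact h1

theorem ca_eq {n : ℕ} (G : SimpleGraph (Fin n)) (pos : Fin n ≃ Fin n) (i : Fin n) :
    ca (adjMatrix G) (orderList pos) i = dPlus G pos (pos.symm i) := by
  classical
  unfold ca dPlus
  rw [length_orderList, ← List.toFinset_card_of_nodup ((List.nodup_range).filter _),
    ← Set.ncard_coe_finset, ← Set.ncard_image_of_injective _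
      (Fin.val_injective.comp pos.injective)]
  congr 1
  ext j
  simp only [List.coe_toFinset, Set.mem_ofPred_eq, List.mem_filter, List.mem_range,
    Bool.and_eq_true, decide_eq_true_eq, Set.mem_image, Function.comp_apply,
    Equiv.apply_symm_apply]
  constructor
  · rintro ⟨hj, hji, h⟩
    refine ⟨pos.symm ⟨j, hj⟩, ⟨?_, ?_⟩, ?_⟩
    · rw [orderList_getD pos i] at h
      have h2 := orderList_getD pos ⟨j, hj⟩
      simp only at h2
      rw [h2, me_adj] at h
      exact h
    · rw [Equiv.apply_symm_apply]
      exact hji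
    · rw [Equiv.apply_symm_apply]
  · rintro ⟨w, ⟨h1, h2⟩, rfl⟩
    refine ⟨(pos w).isLt, h2, ?_⟩
    rw [orderList_getD pos i, orderList_getD pos (pos w), Equiv.symm_apply_apply, me_adj]
    exact h1

theorem okA_iff (c : ℕ) : okA c = true ↔ (Odd c ∨ c = 0) := by
  simp [okA, Nat.odd_iff]

theorem okB_iff (c c' : ℕ) : okB c c' = true ↔ ((Odd c ∨ c = 0) ∨ (Even c ∧ c' = 0)) := by
  simp [okB, okA_iff, Nat.even_iff]

theorem allA {n : ℕ} (G : SimpleGraph (Fin n)) (pos : Fin n ≃ Fin n) :
    (List.range (orderList pos).length).all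
      (fun i => okA (cb (adjMatrix G) (orderList pos) i)) = true ↔ IsTypeA G pos := by
  simp only [List.all_eq_true, List.mem_range, length_orderList, okA_iff]
  constructor
  · intro h v
    have := h (pos v) (pos v).isLt
    rwa [cb_eq, Equiv.symm_apply_apply] at this
  · intro h i hi
    have := h (pos.symm ⟨i, hi⟩)
    rwa [← cb_eq] at this

theorem allB {n : ℕ} (G : SimpleGraph (Fin n)) (pos : Fin n ≃ Fin n) :
    (List.range (orderList pos).length).all
      (fun i => okB (cb (adjMatrix G) (orderList pos) i) (ca (adjMatrix G) (orderList pos) i)) =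
        true ↔ IsTypeB G pos := by
  simp only [List.all_eq_true, List.mem_range, length_orderList, okB_iff]
  constructor
  · intro h v
    have := h (pos v) (pos v).isLt
    rwa [cb_eq, ca_eq, Equiv.symm_apply_apply] at this
  · intro h i hi
    have := h (pos.symm ⟨i, hi⟩)
    rwa [← cb_eq, ← ca_eq] at this

theorem RvA_iff (M : List (List Bool)) (l : List ℕ) : RvA (M, l) = true ↔
    ∃ (n : ℕ) (G : SimpleGraph (Fin n)) (pos : Fin n ≃ Fin n), adjMatrix G = M ∧
      orderList pos = l ∧ IsTypeA G pos := by
  simp only [RvA, Bool.and_eq_true, wf_iff]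
  constructor
  · rintro ⟨⟨⟨n, G, rfl⟩, h2⟩, h3⟩
    obtain ⟨pos, rfl⟩ := (pm_iff G l).1 h2
    exact ⟨n, G, pos, rfl, rfl, (allA G pos).1 h3⟩
  · rintro ⟨n, G, pos, rfl, rfl, h⟩
    exact ⟨⟨⟨n, G, rfl⟩, (pm_iff G _).2 ⟨pos, rfl⟩⟩, (allA G pos).2 h⟩

theorem RvB_iff (M : List (List Bool)) (l : List ℕ) : RvB (M, l) = true ↔
    ∃ (n : ℕ) (G : SimpleGraph (Fin n)) (pos : Fin n ≃ Fin n), adjMatrix G = M ∧
      orderList pos = l ∧ IsTypeB G pos := by
  simp only [RvB, Bool.and_eq_true, wf_iff]
  constructor
  · rintro ⟨⟨⟨n, G, rfl⟩, h2⟩, h3⟩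
    obtain ⟨pos, rfl⟩ := (pm_iff G l).1 h2
    exact ⟨n, G, pos, rfl, rfl, (allB G pos).1 h3⟩
  · rintro ⟨n, G, pos, rfl, rfl, h⟩
    exact ⟨⟨⟨n, G, rfl⟩, (pm_iff G _).2 ⟨pos, rfl⟩⟩, (allB G pos).2 h⟩

end Pool.Agent.H671R2.Ord
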