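import Pool.Agent.H671R2.SubsetSum

/-!
# Partition is hard
-/

namespace Pool.Agent.NPC.R671.SS
open Pool.Agent.NPC

/-- Partition: some of the numbers sum to half of the total. -/
def Partition (l : List ℕ) : Prop := ∃ s : List ℕ, s.Sublist l ∧ 2 * s.sum = l.sum

theorem exists_compl {s l : List ℕ} (h : s.Sublist l) :
    ∃ s' : List ℕ, s'.Sublist l ∧ s.sum + s'.sum = l.sum := by
  induction h with
  | slnil => exact ⟨[], List.Sublist.refl _, rfl⟩
  | @cons l₁ l₂ a _ ih =>
    obtain ⟨s', h1, h2⟩ := ih
    refine ⟨a :: s', h1.cons_cons a, ?_⟩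
    simp only [List.sum_cons]
    omega
  | @cons_cons l₁ l₂ a _ ih =>
    obtain ⟨s', h1, h2⟩ := ih
    refine ⟨s', h1.cons a, ?_⟩
    simp only [List.sum_cons]
    omega

/-- the instance of partition -/
def toPart (x : List ℕ × ℕ) : List ℕ := x.1 ++ [2 * x.1.sum - x.2, x.1.sum + x.2]

theorem toPart_poly : Poly toPart := by
  unfold toPart
  fun_prop

theorem sum_toPart (x : List ℕ × ℕ) (h : x.2 < x.1.sum) : (toPart x).sum = 4 * x.1.sum := by
  unfold toPart
  simp only [List.sum_append, List.sum_cons, List.sum_nil]
  omega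

theorem toPart_correct (x : List ℕ × ℕ) (h : x.2 < x.1.sum) (h0 : 0 < x.1.sum) :
    SubsetSum x ↔ Partition (toPart x) := by
  unfold SubsetSum Partition
  rw [sum_toPart x h]
  constructor
  · rintro ⟨s, hs, hsum⟩
    refine ⟨s ++ [2 * x.1.sum - x.2], ?_, ?_⟩
    · unfold toPart
      exact List.Sublist.append hs (by simp)
    · simp only [List.sum_append, List.sum_cons, List.sum_nil]
      omega
  · rintro ⟨s, hs, hsum⟩
    unfold toPart at hs
    obtain ⟨s1, s2, rfl, hs1, hs2⟩ := List.sublist_append_iff.1 hs
    have hle : s1.sum ≤ x.1.sum := by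
      obtain ⟨s', _, h2⟩ := exists_compl hs1
      omega
    rw [List.sum_append] at hsum
    rw [List.sublist_cons_iff] at hs2
    rcases hs2 with hs2 | ⟨r, rfl, hs2⟩
    · rw [List.sublist_cons_iff] at hs2
      rcases hs2 with hs2 | ⟨r, rfl, hs2⟩
      · rw [List.sublist_nil] at hs2
        subst hs2
        simp only [List.sum_nil] at hsum
        omega
      · rw [List.sublist_nil] at hs2
        subst hs2
        simp only [List.sum_cons, List.sum_nil] at hsum
        obtain ⟨s', h1, h2⟩ := exists_compl hs1
        exact ⟨s', h1, by omega⟩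
    · rw [List.sublist_cons_iff] at hs2
      rcases hs2 with hs2 | ⟨r, rfl, hs2⟩
      · rw [List.sublist_nil] at hs2
        subst hs2
        simp only [List.sum_cons, List.sum_nil] at hsum
        exact ⟨s1, hs1, by omega⟩
      · rw [List.sublist_nil] at hs2
        subst hs2
        simp only [List.sum_cons, List.sum_nil] at hsum
        omega

/-- Partition is hard, even for lists of positive numbers. -/
theorem hardPr_Partition : HardPr (fun l : List ℕ => (∀ a ∈ l, 0 < a) ∧ l ≠ []) Partition := by
  refine hardPr_SubsetSum.trans toPart_poly ?_ ?_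
  · rintro x ⟨h1, h2⟩
    refine ⟨?_, by simp [toPart]⟩
    intro a ha
    unfold toPart at ha
    rw [List.mem_append] at ha
    rcases ha with ha | ha
    · exact (h1 a ha).1
    · simp only [List.mem_cons, List.not_mem_nil, or_false] at ha
      omega
  · rintro x ⟨h1, h2⟩
    exact toPart_correct x h2 (by omega)

/-- Partition is `NP`-hard. -/
theorem npHard_Partition : NPHardP Partition := hardPr_Partition.toHardI.toNPHardP

end Pool.Agent.NPC.R671.SS
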