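import Pool.Agent.NPC.Dec

/-!
# Definitions: unimodular vertex cones of 0-1 systems
-/

namespace Pool.Agent.H671R2.Uni

open Pool.Agent.NPC

/-- The polyhedron `{x : A x ≤ b, x ≥ 0}`, for a 0-1 matrix `A` (`true` stands for the entry 1)
and a rational vector `b`. -/
def polyhedron {m n : ℕ} (A : Fin m → Fin n → Bool) (b : Fin m → ℚ) : Set (Fin n → ℝ) :=
  {x | (∀ i, ∑ j, (if A i j then (1 : ℝ) else 0) * x j ≤ (b i : ℝ)) ∧ ∀ j, 0 ≤ x j}

/-- The value at `x` of the linear functional with integer coefficients `c`. -/
def dot {n : ℕ} (c : Fin n → ℤ) (x : Fin n → ℝ) : ℝ := ∑ j, (c j : ℝ) * x j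

/-- The outward normal vectors, scaled to be integer vectors whose entries have greatest common
divisor 1, of the facets of `P` that contain `u`: the integer vectors `c` with gcd 1 such that,
for some `β`, the inequality `c x ≤ β` is valid on `P`, is tight at `u`, and holds with equality
on a subset of `P` of dimension `n - 1`. -/
def facetNormals {n : ℕ} (P : Set (Fin n → ℝ)) (u : Fin n → ℝ) : Set (Fin n → ℤ) :=
  {c | Finset.univ.gcd c = 1 ∧ ∃ β : ℝ, (∀ x ∈ P, dot c x ≤ β) ∧ dot c u = β ∧
    Module.finrank ℝ (vectorSpan ℝ {x | x ∈ P ∧ dot c x = β}) + 1 = n}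

/-- At every vertex `u` of the polyhedron, the matrix `A(u)` (whose rows are the normal vectors
of the facets containing `u`) is a square matrix with determinant `1` or `-1`. -/
def UnimodularCones {m n : ℕ} (A : Fin m → Fin n → Bool) (b : Fin m → ℚ) : Prop :=
  ∀ u ∈ Set.extremePoints ℝ (polyhedron A b), ∃ M : Matrix (Fin n) (Fin n) ℤ,
    Function.Injective M ∧ Set.range M = facetNormals (polyhedron A b) u ∧ |M.det| = 1

/-- The input `(A, b)`, as a bit string: the list of the rows of `A` and the list of the entries
of `b`, in binary. -/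
def input {m n : ℕ} (A : Fin m → Fin n → Bool) (b : Fin m → ℚ) : List Bool :=
  bits (List.ofFn fun i => List.ofFn fun j => A i j, List.ofFn b)

/-- There is a polynomial-time algorithm that decides, given a 0-1 matrix `A` and a rational
vector `b` with positive entries, whether all the vertex cones are unimodular. -/
def PolyTimeDecidable : Prop :=
  ∃ D : List Bool → List Bool, PolyTime D ∧ ∀ (m n : ℕ) (A : Fin m → Fin n → Bool)
    (b : Fin m → ℚ), (∀ i, 0 < b i) → (D (input A b) = [true] ↔ UnimodularCones A b)

/-- `P = NP`. -/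
def PEqNP : Prop := ∀ L : Set (List Bool), InNP L → InP L

end Pool.Agent.H671R2.Uni
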