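import Pool.Agent.H671R2.UniFacet
import Pool.Agent.H671R2.UniDefs

/-!
# The truncated box `0 ≤ x ≤ a`, `∑ x ≤ B`
-/

namespace Pool.Agent.H671R2.Uni

open Filter Topology

/-- An extreme point is determined by its tight constraints. -/
theorem extreme_tight {n : ℕ} {K : Type*} [Finite K] (h : K → Fin n → ℝ) (β : K → ℝ)
    (u : Fin n → ℝ) (hu : u ∈ Set.extremePoints ℝ (PH h β)) (v : Fin n → ℝ)
    (hv : ∀ k, fn (h k) u = β k → fn (h k) v = 0) : v = 0 := by
  rw [mem_extremePoints] at hu
  obtain ⟨huP, hu⟩ := hu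
  have h1 : ∀ w : Fin n → ℝ, (∀ k, fn (h k) u = β k → fn (h k) w = 0) →
      ∀ ε : ℝ, (∀ k ∈ {k | fn (h k) u ≠ β k}, fn (h k) (u + ε • w) < β k) →
      u + ε • w ∈ PH h β := by
    intro w hw ε hε k
    by_cases hk : fn (h k) u = β k
    · rw [map_add, map_smul, hw k hk, hk, smul_zero, add_zero]
    · exact (hε k hk).le
  have hlt : ∀ k ∈ {k | fn (h k) u ≠ β k}, fn (h k) u < β k :=
    fun k hk => lt_of_le_of_ne (huP k) hk
  have e1 := eventually_lt h β u v {k | fn (h k) u ≠ β k} hlt
  have e2 := eventually_lt h β u (-v) {k | fn (h k) u ≠ β k} hlt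
  have e3 := (e1.and e2).filter_mono (nhdsWithin_le_nhds (s := Set.Ioi 0))
  have e4 : ∀ᶠ ε in 𝓝[>] (0 : ℝ), 0 < ε := eventually_mem_nhdsWithin
  obtain ⟨ε, ⟨h3, h3'⟩, h4⟩ := (e3.and e4).exists
  have h5 := h1 v hv ε h3
  have h6 := h1 (-v) (fun k hk => by rw [map_neg, hv k hk, neg_zero]) ε h3'
  have h7 := (hu _ h5 _ h6 ⟨1 / 2, 1 / 2, by norm_num, by norm_num, by norm_num, by
    funext j
    simp only [Pi.add_apply, Pi.smul_apply, Pi.neg_apply, smul_eq_mul]
    ring⟩).1
  have h8 : ε • v = 0 := by
    have := congrArg (fun z => z - u) h7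
    simpa using this
  rcases smul_eq_zero.1 h8 with h9 | h9
  · exact absurd h9 h4.ne'
  · exact h9

variable {n : ℕ}

/-- the normal vectors -/
def H : Fin n ⊕ Fin n ⊕ Unit → Fin n → ℤ
  | Sum.inl i => fun j => if j = i then -1 else 0
  | Sum.inr (Sum.inl i) => fun j => if j = i then 1 else 0
  | Sum.inr (Sum.inr _) => fun _ => 1

/-- the normal vectors, real -/
def Hr (k : Fin n ⊕ Fin n ⊕ Unit) (j : Fin n) : ℝ := (H k j : ℝ)

/-- the right-hand sides -/
def bet (a : Fin n → ℕ) (B : ℕ) : Fin n ⊕ Fin n ⊕ Unit → ℝ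
  | Sum.inl _ => 0
  | Sum.inr (Sum.inl i) => (a i : ℝ)
  | Sum.inr (Sum.inr _) => (B : ℝ)

theorem fn_lo (i : Fin n) (x : Fin n → ℝ) : fn (Hr (Sum.inl i)) x = - x i := by
  simp [fn_apply, Hr, H]

theorem fn_hi (i : Fin n) (x : Fin n → ℝ) : fn (Hr (Sum.inr (Sum.inl i))) x = x i := by
  simp [fn_apply, Hr, H]

theorem fn_sum (x : Fin n → ℝ) : fn (Hr (Sum.inr (Sum.inr ()))) x = ∑ j, x j := by
  simp [fn_apply, Hr, H]

/-- the box -/
def Bx (a : Fin n → ℕ) (B : ℕ) : Set (Fin n → ℝ) := PH Hr (bet a B)

theorem mem_Bx {a : Fin n → ℕ} {B : ℕ} {x : Fin n → ℝ} :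
    x ∈ Bx a B ↔ (∀ i, 0 ≤ x i) ∧ (∀ i, x i ≤ a i) ∧ ∑ j, x j ≤ B := by
  constructor
  · intro h
    refine ⟨fun i => ?_, fun i => ?_, ?_⟩
    · have := h (Sum.inl i)
      rw [fn_lo] at this
      simp only [bet] at this
      linarith
    · have := h (Sum.inr (Sum.inl i))
      rwa [fn_hi] at this
    · have := h (Sum.inr (Sum.inr ()))
      rwa [fn_sum] at this
  · rintro ⟨h1, h2, h3⟩ (i | i | ⟨⟩)
    · rw [fn_lo]
      simp only [bet]
      linarith [h1 i]
    · rw [fn_hi]
      exact h2 i
    · rw [fn_sum]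
      exact h3

/-- the conditions on the data -/
structure Good (a : Fin n → ℕ) (B : ℕ) : Prop where
  pos : ∀ i, 0 < a i
  lt : ∀ i, a i < B
  sum : B < ∑ i, a i

variable {a : Fin n → ℕ} {B : ℕ}

theorem Good.Spos (g : Good a B) : (0 : ℝ) < ∑ i, (a i : ℝ) := by
  have h1 : 0 < ∑ i, a i := lt_of_le_of_lt (Nat.zero_le _) g.sum
  exact_mod_cast h1

theorem Good.ne (g : Good a B) (i : Fin n) : ∃ j, j ≠ i := by
  by_contra hcon
  push Not at hcon
  have h1 : (Finset.univ : Finset (Fin n)) = {i} := by
    ext j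
    simp [hcon j]
  have h2 := g.sum
  rw [h1, Finset.sum_singleton] at h2
  exact absurd (g.lt i) (by omega)

theorem Good.Bpos (g : Good a B) : (0 : ℝ) < B := by
  have h1 : ∃ i : Fin n, True := by
    by_contra hcon
    push Not at hcon
    have h2 := g.sum
    rw [Finset.sum_eq_zero (fun i _ => (hcon i).elim)] at h2
    omega
  obtain ⟨i, _⟩ := h1
  have := g.lt i
  have h3 : 0 < B := by omega
  exact_mod_cast h3

/-- For every constraint there is a point at which it is the only tight one. -/
theorem Good.point (g : Good a B) (k : Fin n ⊕ Fin n ⊕ Unit) :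
    ∃ p, fn (Hr k) p = bet a B k ∧ ∀ j, j ≠ k → fn (Hr j) p < bet a B j := by
  set S : ℝ := ∑ i, (a i : ℝ) with hS
  have hS0 : 0 < S := g.Spos
  have hSne : S ≠ 0 := hS0.ne'
  have hB0 := g.Bpos
  have hBS : (B : ℝ) < S := by
    rw [hS]; exact_mod_cast g.sum
  have hapos : ∀ i, (0 : ℝ) < a i := fun i => by exact_mod_cast g.pos i
  rcases k with i | i | ⟨⟩
  · -- lower bound
    set r : ℝ := B / S / 2 with hr
    have hr0 : 0 < r := by positivity
    have hr1 : r < 1 := by
      rw [hr, div_div, div_lt_one (by positivity)]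
      linarith
    have hrS : r * S < B := by
      rw [hr]
      field_simp
      linarith
    refine ⟨Function.update (fun j => r * (a j : ℝ)) i 0, ?_, ?_⟩
    · rw [fn_lo]
      simp [bet]
    · rintro (j | j | ⟨⟩) hj
      · have hji : j ≠ i := fun h => hj (by rw [h])
        rw [fn_lo, Function.update_of_ne hji]
        simp only [bet]
        have := mul_pos hr0 (hapos j)
        linarith
      · rw [fn_hi]
        simp only [bet]
        by_cases hji : j = i
        · subst hji
          rw [Function.update_self]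
          exact hapos j
        · rw [Function.update_of_ne hji]
          nlinarith [hapos j]
      · rw [fn_sum, Finset.sum_update_of_mem (Finset.mem_univ i), zero_add]
        simp only [bet]
        have h1 : ∑ x ∈ Finset.univ \ {i}, r * (a x : ℝ) ≤ ∑ x, r * (a x : ℝ) :=
          Finset.sum_le_sum_of_subset_of_nonneg (Finset.subset_univ _)
            (fun j _ _ => (mul_pos hr0 (hapos j)).le)
        rw [← Finset.mul_sum Finset.univ] at h1
        linarith
  · -- upper bound
    have hai : (a i : ℝ) < B := by exact_mod_cast g.lt i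
    set r : ℝ := (B - a i) / S / 2 with hr
    have hr0 : 0 < r := by
      rw [hr]
      have : (0 : ℝ) < B - a i := by linarith
      positivity
    have hr1 : r < 1 := by
      rw [hr, div_div, div_lt_one (by positivity)]
      linarith [hapos i]
    have hrS : r * S < B - a i := by
      rw [hr]
      field_simp
      linarith
    refine ⟨Function.update (fun j => r * (a j : ℝ)) i (a i), ?_, ?_⟩
    · rw [fn_hi]
      simp [bet]
    · rintro (j | j | ⟨⟩) hj
      · rw [fn_lo]
        simp only [bet]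
        by_cases hji : j = i
        · subst hji
          rw [Function.update_self]
          linarith [hapos j]
        · rw [Function.update_of_ne hji]
          have := mul_pos hr0 (hapos j)
          linarith
      · have hji : j ≠ i := fun h => hj (by rw [h])
        rw [fn_hi, Function.update_of_ne hji]
        simp only [bet]
        nlinarith [hapos j]
      · rw [fn_sum, Finset.sum_update_of_mem (Finset.mem_univ i)]
        simp only [bet]
        have h1 : ∑ x ∈ Finset.univ \ {i}, r * (a x : ℝ) ≤ ∑ x, r * (a x : ℝ) :=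
          Finset.sum_le_sum_of_subset_of_nonneg (Finset.subset_univ _)
            (fun j _ _ => (mul_pos hr0 (hapos j)).le)
        rw [← Finset.mul_sum Finset.univ] at h1
        linarith
  · -- the sum
    set r : ℝ := B / S with hr
    have hr0 : 0 < r := by positivity
    have hr1 : r < 1 := by
      rw [hr, div_lt_one hS0]
      exact hBS
    have hrS : r * S = B := by
      rw [hr]
      field_simp
    refine ⟨fun j => r * (a j : ℝ), ?_, ?_⟩
    · rw [fn_sum, ← Finset.mul_sum]
      simp only [bet]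
      exact hrS
    · rintro (j | j | ⟨⟩) hj
      · rw [fn_lo]
        simp only [bet]
        have := mul_pos hr0 (hapos j)
        linarith
      · rw [fn_hi]
        simp only [bet]
        nlinarith [hapos j]
      · exact absurd rfl hj

/-- There is an interior point. -/
theorem Good.interior (g : Good a B) : ∃ q, ∀ k, fn (Hr k) q < bet a B k := by
  set S : ℝ := ∑ i, (a i : ℝ) with hS
  have hS0 : 0 < S := g.Spos
  have hSne : S ≠ 0 := hS0.ne'
  have hB0 := g.Bpos
  have hBS : (B : ℝ) < S := by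
    rw [hS]; exact_mod_cast g.sum
  have hapos : ∀ i, (0 : ℝ) < a i := fun i => by exact_mod_cast g.pos i
  set r : ℝ := B / S / 2 with hr
  have hr0 : 0 < r := by positivity
  have hr1 : r < 1 := by
    rw [hr, div_div, div_lt_one (by positivity)]
    linarith
  have hrS : r * S < B := by
    rw [hr]
    field_simp
    linarith
  refine ⟨fun j => r * (a j : ℝ), ?_⟩
  rintro (j | j | ⟨⟩)
  · rw [fn_lo]
    simp only [bet]
    have := mul_pos hr0 (hapos j)
    linarith
  · rw [fn_hi]
    simp only [bet]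
    nlinarith [hapos j]
  · rw [fn_sum, ← Finset.mul_sum]
    simp only [bet]
    exact hrS

/-- some entry of each normal is a unit -/
theorem H_unit (g : Good a B) (k : Fin n ⊕ Fin n ⊕ Unit) : ∃ i, H k i = 1 ∨ H k i = -1 := by
  rcases k with i | i | ⟨⟩
  · exact ⟨i, Or.inr (by simp [H])⟩
  · exact ⟨i, Or.inl (by simp [H])⟩
  · have h1 : ∃ i : Fin n, True := by
      by_contra hcon
      push Not at hcon
      have h2 := g.sum
      rw [Finset.sum_eq_zero (fun i _ => (hcon i).elim)] at h2
      omega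
    obtain ⟨i, _⟩ := h1
    exact ⟨i, Or.inl (by simp [H])⟩

theorem H_gcd (g : Good a B) (k : Fin n ⊕ Fin n ⊕ Unit) : Finset.univ.gcd (H k) = 1 := by
  obtain ⟨i, hi⟩ := H_unit g k
  have h1 : Finset.univ.gcd (H k) ∣ H k i := Finset.gcd_dvd (Finset.mem_univ i)
  have h2 : Finset.univ.gcd (H k) ∣ 1 := by
    rcases hi with h | h
    · rwa [h] at h1
    · rw [h] at h1
      exact (dvd_neg.1 h1)
  have h3 : normalize (Finset.univ.gcd (H k)) = Finset.univ.gcd (H k) := Finset.normalize_gcd
  rw [← h3]
  exact normalize_eq_one.2 (isUnit_of_dvd_one h2)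

theorem dot_H (k : Fin n ⊕ Fin n ⊕ Unit) (x : Fin n → ℝ) : dot (H k) x = fn (Hr k) x := by
  rw [fn_apply]
  rfl

/-- The facet normals of the box. -/
theorem facetNormals_Bx (g : Good a B) (u : Fin n → ℝ) (hu : u ∈ Bx a B) :
    facetNormals (Bx a B) u = {c | ∃ k, c = H k ∧ fn (Hr k) u = bet a B k} := by
  obtain ⟨q, hq⟩ := g.interior
  ext c
  constructor
  · rintro ⟨hgcd, β, hval, htight, hdim⟩
    have hc0 : (fun j => (c j : ℝ)) ≠ 0 := by
      intro h
      have h1 : ∀ j, c j = 0 := fun j => by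
        have := congrFun h j
        simpa using this
      have h2 : Finset.univ.gcd c = 0 := Finset.gcd_eq_zero_iff.2 (fun j _ => h1 j)
      rw [h2] at hgcd
      exact absurd hgcd (by norm_num)
    have hdot : ∀ x, dot c x = fn (fun j => (c j : ℝ)) x := fun x => by
      rw [fn_apply]; rfl
    have hset : {x | x ∈ Bx a B ∧ dot c x = β} =
        {x | x ∈ PH Hr (bet a B) ∧ fn (fun j => (c j : ℝ)) x = β} := by
      ext x
      rw [Set.mem_ofPred_eq, Set.mem_ofPred_eq, hdot x]
      rfl
    rw [hset] at hdim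
    simp only [hdot] at hval htight
    obtain ⟨k, r, hr, hcr, hk⟩ := facet_mem Hr (bet a B) q hq (fun j => (c j : ℝ)) β hc0 hval u hu
      htight hdim
    refine ⟨k, ?_, hk⟩
    obtain ⟨i, hi⟩ := H_unit g k
    -- `r` is an integer
    have hz : ∃ z : ℤ, (z : ℝ) = r := by
      have h1 := congrFun hcr i
      simp only [Pi.smul_apply, smul_eq_mul, Hr] at h1
      rcases hi with h | h
      · rw [h] at h1
        exact ⟨c i, by rw [h1]; simp⟩
      · rw [h] at h1
        exact ⟨-c i, by push_cast; rw [h1]; simp⟩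
    obtain ⟨z, rfl⟩ := hz
    have hcz : ∀ j, c j = z * H k j := fun j => by
      have h1 := congrFun hcr j
      simp only [Pi.smul_apply, smul_eq_mul, Hr] at h1
      exact_mod_cast h1
    have h2 : z ∣ Finset.univ.gcd c := Finset.dvd_gcd (fun j _ => ⟨H k j, hcz j⟩)
    rw [hgcd] at h2
    have h3 : 0 < z := by exact_mod_cast hr
    have h4 : z = 1 := Int.eq_one_of_dvd_one h3.le h2
    funext j
    rw [hcz j, h4, one_mul]
  · rintro ⟨k, rfl, hk⟩
    refine ⟨H_gcd g k, bet a B k, ?_, ?_, ?_⟩
    · intro x hx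
      rw [dot_H]
      exact hx k
    · rw [dot_H]
      exact hk
    · have hset : {x | x ∈ Bx a B ∧ dot (H k) x = bet a B k} =
          {x | x ∈ PH Hr (bet a B) ∧ fn (Hr k) x = bet a B k} := by
        ext x
        rw [Set.mem_ofPred_eq, Set.mem_ofPred_eq, dot_H]
        rfl
      rw [hset]
      obtain ⟨p, hp, hp'⟩ := g.point k
      refine facet_dim Hr (bet a B) k ?_ p hp hp'
      intro h0
      obtain ⟨i, hi⟩ := H_unit g k
      have h1 := congrFun h0 i
      simp only [Hr, Pi.zero_apply] at h1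
      have h2 : H k i = 0 := by exact_mod_cast h1
      rw [h2] at hi
      rcases hi with hi | hi <;> omega

end Pool.Agent.H671R2.Uni
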