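import Pool.Agent.H671R2.UniMain
import Pool.Agent.H671R2.SubsetSum

/-!
# The reduction from subset sum
-/

namespace Pool.Agent.H671R2.Uni

open Pool.Agent.NPC Pool.Agent.NPC.R671

theorem finRange_map (l : List ℕ) : (List.finRange l.length).map (fun i => l[i]) = l := by
  apply List.ext_getElem <;> simp

theorem subsetSum_finset (l : List ℕ) (t : ℕ) : SS.SubsetSum (l, t) ↔
    ∃ S : Finset (Fin l.length), ∑ i ∈ S, l[i] = t := by
  unfold SS.SubsetSum
  constructor
  · rintro ⟨s, hs, hsum⟩
    obtain ⟨f, hf⟩ := List.sublist_iff_exists_fin_orderEmbedding_get_eq.1 hs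
    refine ⟨Finset.univ.map f.toEmbedding, ?_⟩
    rw [Finset.sum_map]
    have h1 : ∀ i, l[f.toEmbedding i] = s.get i := fun i => (hf i).symm
    simp only [h1]
    simp only at hsum
    rw [← hsum, Fin.sum_univ_def]
    congr 1
    exact finRange_map s
  · rintro ⟨S, hS⟩
    refine ⟨((List.finRange l.length).filter (fun i => decide (i ∈ S))).map (fun i => l[i]),
      ?_, ?_⟩
    · have h1 : (List.finRange l.length).map (fun i => l[i]) = l := by
        exact finRange_map l
      conv_rhs => rw [← h1]
      exact List.filter_sublist.map _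
    · rw [← List.sum_toFinset _ ((List.nodup_finRange _).filter _)]
      rw [← hS]
      congr 1
      ext i
      simp

/-- the matrix -/
def mat (n : ℕ) (i : Fin (n + 1)) (j : Fin n) : Bool :=
  decide ((i : ℕ) = j) || decide ((i : ℕ) = n)

/-- the right-hand side -/
def rhs (l : List ℕ) (t : ℕ) (i : Fin (l.length + 1)) : ℚ := (((l ++ [t]).getD i 0 : ℕ) : ℚ)

theorem polyhedron_eq (l : List ℕ) (t : ℕ) :
    polyhedron (mat l.length) (rhs l t) = Bx (fun i : Fin l.length => l[i]) t := by
  ext x
  rw [mem_Bx]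
  have hc : ∀ i : Fin l.length, ∑ j, (if mat l.length i.castSucc j then (1 : ℝ) else 0) * x j =
      x i := by
    intro i
    rw [Finset.sum_eq_single i]
    · simp [mat]
    · intro j _ hj
      have h1 : (i : ℕ) ≠ j := fun h => hj (Fin.ext h.symm)
      have h2 : (i : ℕ) ≠ l.length := i.isLt.ne
      simp [mat, h1, h2]
    · intro h
      exact absurd (Finset.mem_univ i) h
  have hl : ∑ j, (if mat l.length (Fin.last l.length) j then (1 : ℝ) else 0) * x j =
      ∑ j, x j := by
    refine Finset.sum_congr rfl fun j _ => ?_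
    simp [mat]
  have hr : ∀ i : Fin l.length, ((rhs l t i.castSucc : ℚ) : ℝ) = ((l[i] : ℕ) : ℝ) := by
    intro i
    have : (l ++ [t]).getD (i.castSucc : Fin (l.length + 1)) 0 = l[i] := by
      rw [List.getD_eq_getElem?_getD]
      simp [List.getElem?_append_left]
    unfold rhs
    rw [this]
    simp
  have hrl : ((rhs l t (Fin.last l.length) : ℚ) : ℝ) = (t : ℝ) := by
    unfold rhs
    simp
  unfold polyhedron
  rw [Set.mem_ofPred_eq]
  constructor
  · rintro ⟨h1, h2⟩
    refine ⟨h2, fun i => ?_, ?_⟩
    · have := h1 i.castSucc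
      rwa [hc, hr] at this
    · have := h1 (Fin.last _)
      rwa [hl, hrl] at this
  · rintro ⟨h1, h2, h3⟩
    refine ⟨fun i => ?_, h1⟩
    refine Fin.lastCases ?_ (fun i => ?_) i
    · rw [hl, hrl]
      exact h3
    · rw [hc, hr]
      exact h2 i

theorem correct (l : List ℕ) (t : ℕ) (h : SS.Nice (l, t)) :
    UnimodularCones (mat l.length) (rhs l t) ↔ ¬ SS.SubsetSum (l, t) := by
  have g : Good (fun i : Fin l.length => l[i]) t := by
    refine ⟨fun i => (h.1 _ (List.getElem_mem _)).1, fun i => (h.1 _ (List.getElem_mem _)).2, ?_⟩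
    have h1 : ∑ i : Fin l.length, l[i] = l.sum := by
      rw [Fin.sum_univ_def]
      congr 1
      exact finRange_map l
    rw [h1]
    exact h.2
  have h1 : UnimodularCones (mat l.length) (rhs l t) ↔
      UC (polyhedron (mat l.length) (rhs l t)) := Iff.rfl
  rw [h1, polyhedron_eq, UC_iff g, subsetSum_finset]

theorem rhs_pos (l : List ℕ) (t : ℕ) (h : SS.Nice (l, t)) (i : Fin (l.length + 1)) :
    0 < rhs l t i := by
  have h1 : (l ++ [t]).getD i 0 ∈ l ++ [t] := by
    rw [List.getD_eq_getElem?_getD, List.getElem?_eq_getElem (by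
      have := i.isLt
      rw [List.length_append, List.length_singleton]; exact this)]
    exact List.getElem_mem _
  have h2 : 0 < (l ++ [t]).getD i 0 := by
    rw [List.mem_append] at h1
    rcases h1 with h1 | h1
    · exact (h.1 _ h1).1
    · rw [List.mem_singleton] at h1
      rw [h1]
      have h3 : l ≠ [] := by
        rintro rfl
        have := h.2
        simp at this
      obtain ⟨a, l', rfl⟩ := List.exists_cons_of_ne_nil h3
      have := (h.1 a (by simp)).2
      exact lt_of_le_of_lt (Nat.zero_le _) this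
  unfold rhs
  exact_mod_cast h2

/-- the code of the instance -/
def cd (x : List ℕ × ℕ) : List (List Bool) × List ℚ :=
  ((List.range (x.1.length + 1)).map (fun i => (List.range x.1.length).map
    (fun j => decide (i = j) || decide (i = x.1.length))), (x.1 ++ [x.2]).map (fun a : ℕ => ((a : ℕ) : ℚ)))

theorem input_eq (l : List ℕ) (t : ℕ) : input (mat l.length) (rhs l t) = bits (cd (l, t)) := by
  unfold input cd
  congr 2
  · apply List.ext_getElem
    · simp
    · intro i h1 h2
      simp only [List.getElem_ofFn, List.getElem_map, List.getElem_range]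
      apply List.ext_getElem
      · simp
      · intro j h3 h4
        simp [mat]
  · apply List.ext_getElem
    · simp
    · intro i h1 h2
      simp only [List.getElem_ofFn, List.getElem_map]
      unfold rhs
      rw [List.getD_eq_getElem?_getD, List.getElem?_eq_getElem (by simpa using h2)]
      rfl

theorem natCast_rat_poly {α : Type} [TEnc α] {f : α → ℕ} (hf : NPC.Poly f) :
    NPC.Poly (fun a => ((f a : ℕ) : ℚ)) :=
  NPC.Poly.of_toT ((NPC.Poly.toT' (NPC.Poly.pair (NPC.Poly.natCast_int hf)
    (NPC.Poly.const 1))).congr fun a => by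
    change toT (((f a : ℕ) : ℤ), (1 : ℕ)) = toT (((f a : ℕ) : ℚ).num, ((f a : ℕ) : ℚ).den)
    rw [Rat.num_natCast, Rat.den_natCast])

attribute [fun_prop] natCast_rat_poly

theorem cd_poly : NPC.Poly cd := by
  have h1 : UPoly (fun x : List ℕ × ℕ => x.1.length) := UPoly.length (by fun_prop)
  have h2 : UPoly (fun x : List ℕ × ℕ => x.1.length + 1) := h1.add (UPoly.const 1)
  have g1 := h1.range
  have g2 := h2.range
  unfold cd
  refine NPC.Poly.pair ?_ (by fun_prop)
  refine NPC.Poly.map (l := fun x : List ℕ × ℕ => List.range (x.1.length + 1))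
    (F := fun x i => (List.range x.1.length).map
      (fun j => decide (i = j) || decide (i = x.1.length))) g2 ?_
  refine NPC.Poly.map (l := fun x : (List ℕ × ℕ) × ℕ => List.range x.1.1.length)
    (F := fun x j => decide (x.2 = j) || decide (x.2 = x.1.1.length))
    (g1.comp (NPC.Poly.fst NPC.Poly.id)) ?_
  fun_prop

/-- Complements of languages in `NP` reduce to recognition of unimodular vertex cones. -/
theorem hard (L : Set (List Bool)) (hL : InCoNP L) :
    ∃ f : List Bool → List Bool, PolyTime f ∧ ∀ w, ∃ (m n : ℕ) (A : Fin m → Fin n → Bool)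
      (b : Fin m → ℚ), f w = input A b ∧ (∀ i, 0 < b i) ∧ (w ∈ L ↔ UnimodularCones A b) := by
  obtain ⟨g, hg, hgn, hgL⟩ := SS.hardPr_SubsetSum _ hL
  refine ⟨fun w => bits (cd (g w)), PC.toPolyTime_bits cd_poly g hg, fun w => ?_⟩
  obtain ⟨l, t, hgw⟩ : ∃ l t, g w = (l, t) := ⟨(g w).1, (g w).2, rfl⟩
  refine ⟨l.length + 1, l.length, mat l.length, rhs l t, ?_, ?_, ?_⟩
  · rw [input_eq, ← hgw]
  · have := hgn w
    rw [hgw] at this
    exact rhs_pos l t this
  · have h1 := hgn w
    have h2 := hgL w
    rw [hgw] at h1 h2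
    rw [correct l t h1, ← h2]
    simp

end Pool.Agent.H671R2.Uni
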