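import Mathlib

/-!
# Facets of a polyhedron given by inequalities
-/

namespace Pool.Agent.H671R2.Uni

open Filter Topology

variable {n : ℕ} {K : Type*} [Finite K]

/-- the linear functional of a vector -/
noncomputable def fn (c : Fin n → ℝ) : Module.Dual ℝ (Fin n → ℝ) :=
  ∑ j, c j • (LinearMap.proj j : (Fin n → ℝ) →ₗ[ℝ] ℝ)

theorem fn_apply (c x : Fin n → ℝ) : fn c x = ∑ j, c j * x j := by
  simp [fn]

theorem fn_ne_zero {c : Fin n → ℝ} (hc : c ≠ 0) : fn c ≠ 0 := by
  intro h
  apply hc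
  funext j
  have := congrArg (fun f => f (Pi.single j 1)) h
  simpa [fn_apply, Pi.single_apply] using this

/-- strict inequalities persist near a point -/
theorem eventually_lt (h : K → Fin n → ℝ) (β : K → ℝ) (p v : Fin n → ℝ) (s : Set K)
    (hp : ∀ k ∈ s, fn (h k) p < β k) :
    ∀ᶠ ε in 𝓝 (0 : ℝ), ∀ k ∈ s, fn (h k) (p + ε • v) < β k := by
  have h1 : ∀ k, ∀ᶠ ε in 𝓝 (0 : ℝ), k ∈ s → fn (h k) (p + ε • v) < β k := by
    intro k
    by_cases hk : k ∈ s
    · have hc : Continuous (fun ε : ℝ => fn (h k) p + ε * fn (h k) v) := by fun_prop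
      have h2 : fn (h k) p + 0 * fn (h k) v < β k := by simpa using hp k hk
      have h3 := (hc.tendsto 0).eventually (gt_mem_nhds h2)
      filter_upwards [h3] with ε hε _
      rw [map_add, map_smul, smul_eq_mul]
      exact hε
    · exact Eventually.of_forall fun _ h => absurd h hk
  exact eventually_all.2 h1

theorem exists_pos (h : K → Fin n → ℝ) (β : K → ℝ) (p v : Fin n → ℝ) (s : Set K)
    (hp : ∀ k ∈ s, fn (h k) p < β k) :
    ∃ ε : ℝ, 0 < ε ∧ ∀ k ∈ s, fn (h k) (p + ε • v) < β k := by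
  have h1 := (eventually_lt h β p v s hp).filter_mono (nhdsWithin_le_nhds (s := Set.Ioi 0))
  have h2 : ∀ᶠ ε in 𝓝[>] (0 : ℝ), 0 < ε := eventually_mem_nhdsWithin
  obtain ⟨ε, h3, h4⟩ := (h1.and h2).exists
  exact ⟨ε, h4, h3⟩

/-- the polyhedron -/
def PH (h : K → Fin n → ℝ) (β : K → ℝ) : Set (Fin n → ℝ) := {x | ∀ k, fn (h k) x ≤ β k}

/-- A valid inequality whose face has dimension `n - 1` is a positive multiple of one of the
given inequalities. -/
theorem facet_mem (h : K → Fin n → ℝ) (β : K → ℝ) (q : Fin n → ℝ) (hq : ∀ k, fn (h k) q < β k)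
    (c : Fin n → ℝ) (γ : ℝ) (hc : c ≠ 0) (hval : ∀ x ∈ PH h β, fn c x ≤ γ)
    (x0 : Fin n → ℝ) (hx0 : x0 ∈ PH h β) (hx0' : fn c x0 = γ)
    (hdim : Module.finrank ℝ (vectorSpan ℝ {x | x ∈ PH h β ∧ fn c x = γ}) + 1 = n) :
    ∃ k, ∃ r : ℝ, 0 < r ∧ c = r • h k ∧ fn (h k) x0 = β k := by
  classical
  have := Fintype.ofFinite K
  have key : ∃ k, ∀ x, x ∈ PH h β → fn c x = γ → fn (h k) x = β k := by
    by_contra hcon
    push Not at hcon
    choose p hp1 hp2 hp3 using hcon
    have hp4 : ∀ k, fn (h k) (p k) < β k := fun k => lt_of_le_of_ne (hp1 k k) (hp3 k)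
    have hposc : 0 < fn c c := by
      rw [fn_apply]
      have h1 : ∃ j, c j ≠ 0 := by
        by_contra hcon
        push Not at hcon
        exact hc (funext hcon)
      obtain ⟨j, hj⟩ := h1
      exact Finset.sum_pos' (fun i _ => mul_self_nonneg _)
        ⟨j, Finset.mem_univ j, mul_self_pos.2 hj⟩
    -- a point of the face in the interior
    have hpt : ∃ y, (∀ k, fn (h k) y < β k) ∧ fn c y = γ := by
      by_cases hK : Nonempty K
      · have hN : (0 : ℝ) < Fintype.card K := by exact_mod_cast Fintype.card_pos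
        refine ⟨(Fintype.card K : ℝ)⁻¹ • ∑ k, p k, fun j => ?_, ?_⟩
        · rw [map_smul, map_sum, smul_eq_mul]
          have h1 : ∑ k, fn (h j) (p k) < ∑ _k : K, β j := by
            refine Finset.sum_lt_sum (fun k _ => hp1 k j) ⟨j, Finset.mem_univ j, hp4 j⟩
          rw [Finset.sum_const, Finset.card_univ, nsmul_eq_mul] at h1
          rw [inv_mul_lt_iff₀ hN]
          exact h1
        · rw [map_smul, map_sum, smul_eq_mul]
          simp only [hp2]
          rw [Finset.sum_const, Finset.card_univ, nsmul_eq_mul]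
          field_simp
      · exact ⟨x0, fun k => (hK ⟨k⟩).elim, hx0'⟩
    obtain ⟨y, hy1, hy2⟩ := hpt
    obtain ⟨ε, hε, hε'⟩ := exists_pos h β y c Set.univ (fun k _ => hy1 k)
    have h1 := hval (y + ε • c) (fun k => (hε' k trivial).le)
    rw [map_add, map_smul, hy2, smul_eq_mul] at h1
    nlinarith [mul_pos hε hposc]
  obtain ⟨k, hk⟩ := key
  have hkx0 := hk x0 hx0 hx0'
  set w := x0 - q with hw
  have hwk : 0 < fn (h k) w := by
    rw [hw, map_sub, hkx0]
    linarith [hq k]
  have hwc : 0 ≤ fn c w := by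
    rw [hw, map_sub, hx0']
    linarith [hval q (fun k => (hq k).le)]
  have hk0 : h k ≠ 0 := by
    intro h0
    rw [h0] at hwk
    simp [fn_apply] at hwk
  have h1 : vectorSpan ℝ {x | x ∈ PH h β ∧ fn c x = γ} ≤ LinearMap.ker (fn (h k)) := by
    rw [vectorSpan_def, Submodule.span_le]
    rintro _ ⟨a, ⟨ha1, ha2⟩, b, ⟨hb1, hb2⟩, rfl⟩
    rw [SetLike.mem_coe, LinearMap.mem_ker]
    simp only [vsub_eq_sub]
    rw [map_sub, hk a ha1 ha2, hk b hb1 hb2, sub_self]
  have h2 : vectorSpan ℝ {x | x ∈ PH h β ∧ fn c x = γ} ≤ LinearMap.ker (fn c) := by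
    rw [vectorSpan_def, Submodule.span_le]
    rintro _ ⟨a, ⟨ha1, ha2⟩, b, ⟨hb1, hb2⟩, rfl⟩
    rw [SetLike.mem_coe, LinearMap.mem_ker]
    simp only [vsub_eq_sub]
    rw [map_sub, ha2, hb2, sub_self]
  have h3 : Module.finrank ℝ (LinearMap.ker (fn (h k))) + 1 = n := by
    have := Module.Dual.finrank_ker_add_one_of_ne_zero (fn_ne_zero hk0)
    rwa [Module.finrank_fin_fun] at this
  have h4 : vectorSpan ℝ {x | x ∈ PH h β ∧ fn c x = γ} = LinearMap.ker (fn (h k)) :=
    Submodule.eq_of_le_of_finrank_le h1 (by omega)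
  rw [h4] at h2
  have h5 : ∀ v, fn c v = (fn c w / fn (h k) w) * fn (h k) v := by
    intro v
    have h6 : v - (fn (h k) v / fn (h k) w) • w ∈ LinearMap.ker (fn (h k)) := by
      rw [LinearMap.mem_ker, map_sub, map_smul, smul_eq_mul]
      field_simp
      ring
    have h7 := h2 h6
    rw [LinearMap.mem_ker, map_sub, map_smul, smul_eq_mul] at h7
    have h8 : fn c v = fn (h k) v / fn (h k) w * fn c w := by linarith
    rw [h8]
    ring
  have h9 : c = (fn c w / fn (h k) w) • h k := by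
    funext j
    have := h5 (Pi.single j 1)
    simpa [fn_apply, Pi.single_apply] using this
  refine ⟨k, fn c w / fn (h k) w, ?_, h9, hkx0⟩
  rcases (div_nonneg hwc hwk.le).lt_or_eq with h10 | h10
  · exact h10
  · rw [← h10, zero_smul] at h9
    exact absurd h9 hc

/-- An inequality with a point at which only this inequality is tight defines a facet. -/
theorem facet_dim (h : K → Fin n → ℝ) (β : K → ℝ) (k : K) (hk : h k ≠ 0) (p : Fin n → ℝ)
    (hp : fn (h k) p = β k) (hp' : ∀ j, j ≠ k → fn (h j) p < β j) :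
    Module.finrank ℝ (vectorSpan ℝ {x | x ∈ PH h β ∧ fn (h k) x = β k}) + 1 = n := by
  have h1 : vectorSpan ℝ {x | x ∈ PH h β ∧ fn (h k) x = β k} = LinearMap.ker (fn (h k)) := by
    apply le_antisymm
    · rw [vectorSpan_def, Submodule.span_le]
      rintro _ ⟨a, ⟨ha1, ha2⟩, b, ⟨hb1, hb2⟩, rfl⟩
      rw [SetLike.mem_coe, LinearMap.mem_ker]
      simp only [vsub_eq_sub]
      rw [map_sub, ha2, hb2, sub_self]
    · intro v hv
      rw [LinearMap.mem_ker] at hv
      obtain ⟨ε, hε, hε'⟩ := exists_pos h β p v {j | j ≠ k} (fun j hj => hp' j hj)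
      have hpP : p ∈ {x | x ∈ PH h β ∧ fn (h k) x = β k} := by
        refine ⟨fun j => ?_, hp⟩
        by_cases hj : j = k
        · rw [hj, hp]
        · exact (hp' j hj).le
      have hqP : p + ε • v ∈ {x | x ∈ PH h β ∧ fn (h k) x = β k} := by
        have h2 : fn (h k) (p + ε • v) = β k := by
          rw [map_add, map_smul, hv, hp, smul_zero, add_zero]
        refine ⟨fun j => ?_, h2⟩
        by_cases hj : j = k
        · rw [hj, h2]
        · exact (hε' j hj).le
      have h3 := vsub_mem_vectorSpan ℝ hqP hpP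
      rw [vsub_eq_sub, add_sub_cancel_left] at h3
      have h4 := Submodule.smul_mem _ ε⁻¹ h3
      rwa [smul_smul, inv_mul_cancel₀ hε.ne', one_smul] at h4
  rw [h1]
  have := Module.Dual.finrank_ker_add_one_of_ne_zero (fn_ne_zero hk)
  rwa [Module.finrank_fin_fun] at this

end Pool.Agent.H671R2.Uni
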