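import Pool.Agent.H671R2.UniBox

/-!
# The truncated box has unimodular vertex cones iff no subset of `a` sums to `B`
-/

namespace Pool.Agent.H671R2.Uni

variable {n : ℕ} {a : Fin n → ℕ} {B : ℕ}

/-- the property of a polyhedron -/
def UC (P : Set (Fin n → ℝ)) : Prop :=
  ∀ u ∈ Set.extremePoints ℝ P, ∃ M : Matrix (Fin n) (Fin n) ℤ,
    Function.Injective M ∧ Set.range M = facetNormals P u ∧ |M.det| = 1

/-- the characteristic point of a set -/
def pt (a : Fin n → ℕ) (S : Finset (Fin n)) (i : Fin n) : ℝ := if i ∈ S then (a i : ℝ) else 0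

theorem pt_mem (S : Finset (Fin n)) (hS : ∑ i ∈ S, a i = B) : pt a S ∈ Bx a B := by
  rw [mem_Bx]
  refine ⟨fun i => ?_, fun i => ?_, ?_⟩
  · unfold pt; split_ifs
    · exact Nat.cast_nonneg _
    · exact le_refl _
  · unfold pt; split_ifs
    · exact le_refl _
    · exact Nat.cast_nonneg _
  · unfold pt
    rw [← hS, Finset.sum_ite_mem, Finset.univ_inter]
    push_cast
    exact le_refl _

theorem pt_extreme (S : Finset (Fin n)) (hS : ∑ i ∈ S, a i = B) :
    pt a S ∈ Set.extremePoints ℝ (Bx a B) := by
  rw [mem_extremePoints_iff_left]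
  refine ⟨pt_mem S hS, ?_⟩
  rintro x₁ h1 x₂ h2 ⟨α, β, hα, hβ, hαβ, h⟩
  rw [mem_Bx] at h1 h2
  funext i
  have hi := congrFun h i
  simp only [Pi.add_apply, Pi.smul_apply, smul_eq_mul] at hi
  have l1 := h1.1 i
  have l2 := h2.1 i
  have u1 := h1.2.1 i
  have u2 := h2.2.1 i
  unfold pt at hi ⊢
  split_ifs at hi ⊢ with hiS
  · have e1 : α * (a i - x₁ i) + β * (a i - x₂ i) = 0 := by
      have : α * (a i - x₁ i) + β * (a i - x₂ i) = (α + β) * a i - (α * x₁ i + β * x₂ i) := by ring
      rw [this, hi, hαβ]
      ring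
    have e2 : 0 ≤ β * (a i - x₂ i) := mul_nonneg hβ.le (by linarith)
    have e3 : 0 ≤ α * (a i - x₁ i) := mul_nonneg hα.le (by linarith)
    have e4 : α * (a i - x₁ i) = 0 := by linarith
    rcases mul_eq_zero.1 e4 with e5 | e5
    · linarith
    · linarith
  · have e2 : 0 ≤ β * x₂ i := mul_nonneg hβ.le l2
    have e3 : 0 ≤ α * x₁ i := mul_nonneg hα.le l1
    have e4 : α * x₁ i = 0 := by linarith
    rcases mul_eq_zero.1 e4 with e5 | e5
    · linarith
    · exact e5

theorem not_UC (g : Good a B) (S : Finset (Fin n)) (hS : ∑ i ∈ S, a i = B) : ¬ UC (Bx a B) := by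
  intro hUC
  obtain ⟨M, _, hM, _⟩ := hUC _ (pt_extreme S hS)
  rw [facetNormals_Bx g _ (pt_mem S hS)] at hM
  -- `n + 1` tight constraints
  let ι : Option (Fin n) → Fin n ⊕ Fin n ⊕ Unit := fun o =>
    match o with
    | none => Sum.inr (Sum.inr ())
    | some i => if i ∈ S then Sum.inr (Sum.inl i) else Sum.inl i
  have htight : ∀ o, fn (Hr (ι o)) (pt a S) = bet a B (ι o) := by
    rintro (_ | i)
    · change fn (Hr (Sum.inr (Sum.inr ()))) (pt a S) = (B : ℝ)
      rw [fn_sum, ← hS]
      unfold pt
      rw [Finset.sum_ite_mem, Finset.univ_inter]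
      push_cast
      rfl
    · by_cases hi : i ∈ S
      · have : ι (some i) = Sum.inr (Sum.inl i) := by simp only [ι, if_pos hi]
        rw [this, fn_hi]
        simp only [bet, pt, if_pos hi]
      · have : ι (some i) = Sum.inl i := by simp only [ι, if_neg hi]
        rw [this, fn_lo]
        simp only [bet, pt, if_neg hi, neg_zero]
  have hex : ∀ o, ∃ r, M r = H (ι o) := by
    intro o
    have h1 : H (ι o) ∈ Set.range M := by
      rw [hM]
      exact ⟨ι o, rfl, htight o⟩
    exact h1
  choose r hr using hex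
  have hne : ∀ i j, i ≠ j → H (ι (some i)) i ≠ H (ι (some j)) i := by
    intro i j hij
    by_cases hi : i ∈ S <;> by_cases hj : j ∈ S <;> simp [ι, hi, hj, H, hij]
  have hne2 : ∀ i, H (ι none) ≠ H (ι (some i)) := by
    intro i h
    obtain ⟨j, hj⟩ := g.ne i
    have h1 := congrFun h j
    by_cases hi : i ∈ S <;> simp [ι, hi, H, hj] at h1
  have hinj : Function.Injective r := by
    intro o o' hoo
    have h1 : H (ι o) = H (ι o') := by rw [← hr o, ← hr o', hoo]
    rcases o with _ | i <;> rcases o' with _ | j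
    · rfl
    · exact absurd h1 (hne2 j)
    · exact absurd h1.symm (hne2 i)
    · by_cases hij : i = j
      · rw [hij]
      · exact absurd (congrFun h1 i) (hne i j hij)
  have h2 := Fintype.card_le_of_injective r hinj
  simp at h2

/-- the sign of a coordinate -/
noncomputable def sgn (u : Fin n → ℝ) (i : Fin n) : ℤ := open Classical in if u i = 0 then -1 else 1

theorem sgn_sq (u : Fin n → ℝ) (i : Fin n) : sgn u i * sgn u i = 1 := by
  unfold sgn; split_ifs <;> norm_num

theorem abs_det_diag (u : Fin n → ℝ) : |(Matrix.diagonal (sgn u)).det| = 1 := by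
  rw [Matrix.det_diagonal, Finset.abs_prod]
  refine Finset.prod_eq_one fun i _ => ?_
  unfold sgn; split_ifs <;> norm_num

theorem diag_row (u : Fin n → ℝ) (i : Fin n) (h : u i = 0 ∨ u i = a i) :
    ∃ k, Matrix.diagonal (sgn u) i = H k ∧ fn (Hr k) u = bet a B k := by
  by_cases h0 : u i = 0
  · refine ⟨Sum.inl i, ?_, by rw [fn_lo, h0]; simp [bet]⟩
    funext j
    simp only [Matrix.diagonal_apply, sgn, h0, if_true, H]
    by_cases hij : i = j
    · simp [hij]
    · rw [if_neg hij, if_neg (Ne.symm hij)]
  · refine ⟨Sum.inr (Sum.inl i), ?_, by rw [fn_hi, h.resolve_left h0]; simp [bet]⟩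
    funext j
    simp only [Matrix.diagonal_apply, sgn, h0, if_false, H]
    by_cases hij : i = j
    · simp [hij]
    · rw [if_neg hij, if_neg (Ne.symm hij)]

theorem lo_row (u : Fin n → ℝ) (i : Fin n) (h : fn (Hr (Sum.inl i)) u = bet a B (Sum.inl i)) :
    u i = 0 ∧ Matrix.diagonal (sgn u) i = H (Sum.inl i) := by
  rw [fn_lo] at h
  simp only [bet] at h
  have h0 : u i = 0 := by linarith
  refine ⟨h0, ?_⟩
  funext j
  simp only [Matrix.diagonal_apply, sgn, h0, if_true, H]
  by_cases hij : i = j
  · simp [hij]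
  · rw [if_neg hij, if_neg (Ne.symm hij)]

theorem hi_row (u : Fin n → ℝ) (i : Fin n) (hpos : 0 < a i)
    (h : fn (Hr (Sum.inr (Sum.inl i))) u = bet a B (Sum.inr (Sum.inl i))) :
    u i = a i ∧ Matrix.diagonal (sgn u) i = H (Sum.inr (Sum.inl i)) := by
  rw [fn_hi] at h
  simp only [bet] at h
  have h0 : u i ≠ 0 := by
    rw [h]
    have : (0 : ℝ) < a i := by exact_mod_cast hpos
    exact this.ne'
  refine ⟨h, ?_⟩
  funext j
  simp only [Matrix.diagonal_apply, sgn, h0, if_false, H]
  by_cases hij : i = j
  · simp [hij]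
  · rw [if_neg hij, if_neg (Ne.symm hij)]

theorem inj_of_det {M : Matrix (Fin n) (Fin n) ℤ} (h : |M.det| = 1) : Function.Injective M := by
  intro i j hij
  by_contra hne
  have := Matrix.det_zero_of_row_eq hne hij
  rw [this] at h
  norm_num at h

theorem UC_of (g : Good a B) (hS : ∀ S : Finset (Fin n), ∑ i ∈ S, a i ≠ B) : UC (Bx a B) := by
  classical
  intro u hu
  have huP : u ∈ Bx a B := hu.1
  have hmem := mem_Bx.1 huP
  obtain ⟨h0, h1, h2⟩ := hmem
  rw [facetNormals_Bx g u huP]
  by_cases hsum : ∑ j, u j = B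
  · -- at most one fractional coordinate
    have hfr : ∀ i j, i ≠ j → ¬ (u i = 0 ∨ u i = a i) → ¬ (u j = 0 ∨ u j = a j) → False := by
      intro i j hij hi hj
      push Not at hi hj
      have hv := extreme_tight Hr (bet a B) u hu
        (fun k => (if k = i then 1 else 0) - (if k = j then 1 else 0)) ?_
      · have := congrFun hv i
        simp [hij] at this
      · rintro (k | k | ⟨⟩) hk
        · rw [fn_lo] at hk ⊢
          simp only [bet] at hk
          have h3 : u k = 0 := by linarith
          have h4 : k ≠ i := fun h => hi.1 (by rw [← h]; exact h3)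
          have h5 : k ≠ j := fun h => hj.1 (by rw [← h]; exact h3)
          simp [h4, h5]
        · rw [fn_hi] at hk ⊢
          simp only [bet] at hk
          have h4 : k ≠ i := fun h => hi.2 (by rw [← h]; exact hk)
          have h5 : k ≠ j := fun h => hj.2 (by rw [← h]; exact hk)
          simp [h4, h5]
        · rw [fn_sum]
          simp
    have hex : ∃ i, ¬ (u i = 0 ∨ u i = a i) := by
      by_contra hcon
      push Not at hcon
      refine hS (Finset.univ.filter fun i => u i = a i) ?_
      have h3 : (∑ i ∈ Finset.univ.filter (fun i => u i = a i), (a i : ℝ)) = B := by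
        rw [← hsum, Finset.sum_filter]
        refine Finset.sum_congr rfl fun i _ => ?_
        split_ifs with h4
        · exact h4.symm
        · exact ((hcon i).resolve_right h4).symm
      exact_mod_cast h3
    obtain ⟨i0, hi0⟩ := hex
    have hother : ∀ i, i ≠ i0 → (u i = 0 ∨ u i = a i) := fun i hi => by
      by_contra hcon
      exact hfr i i0 hi hcon hi0
    set D : Matrix (Fin n) (Fin n) ℤ := Matrix.diagonal (sgn u) with hD
    have hone : (fun _ => 1 : Fin n → ℤ) = ∑ k, sgn u k • D k := by
      funext j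
      rw [Finset.sum_apply]
      simp only [Pi.smul_apply, smul_eq_mul, hD, Matrix.diagonal_apply]
      rw [Finset.sum_eq_single j]
      · rw [if_pos rfl, sgn_sq]
      · intro b _ hb
        rw [if_neg hb, mul_zero]
      · intro h
        exact absurd (Finset.mem_univ j) h
    have hdet : |(D.updateRow i0 (fun _ => 1)).det| = 1 := by
      rw [hone, Matrix.det_updateRow_sum, smul_eq_mul, abs_mul, hD, abs_det_diag, mul_one]
      unfold sgn; split_ifs <;> norm_num
    refine ⟨D.updateRow i0 (fun _ => 1), inj_of_det hdet, ?_, hdet⟩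
    ext c
    constructor
    · rintro ⟨i, rfl⟩
      by_cases hi : i = i0
      · subst hi
        rw [Matrix.updateRow_self]
        refine ⟨Sum.inr (Sum.inr ()), rfl, ?_⟩
        rw [fn_sum]
        exact hsum
      · rw [Matrix.updateRow_ne hi]
        exact diag_row u i (hother i hi)
    · rintro ⟨k, rfl, hk⟩
      rcases k with i | i | ⟨⟩
      · obtain ⟨h3, h4⟩ := lo_row u i hk
        have hi : i ≠ i0 := fun h => hi0 (Or.inl (by rw [← h]; exact h3))
        exact ⟨i, by rw [Matrix.updateRow_ne hi]; exact h4⟩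
      · obtain ⟨h3, h4⟩ := hi_row u i (g.pos i) hk
        have hi : i ≠ i0 := fun h => hi0 (Or.inr (by rw [← h]; exact h3))
        exact ⟨i, by rw [Matrix.updateRow_ne hi]; exact h4⟩
      · exact ⟨i0, by rw [Matrix.updateRow_self]; rfl⟩
  · -- no fractional coordinate
    have hall : ∀ i, u i = 0 ∨ u i = a i := by
      intro i
      by_contra hi
      push Not at hi
      have hv := extreme_tight Hr (bet a B) u hu
        (fun k => (if k = i then 1 else 0)) ?_
      · have := congrFun hv i
        simp at this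
      · rintro (k | k | ⟨⟩) hk
        · rw [fn_lo] at hk ⊢
          simp only [bet] at hk
          have h3 : u k = 0 := by linarith
          have h4 : k ≠ i := fun h => hi.1 (by rw [← h]; exact h3)
          simp [h4]
        · rw [fn_hi] at hk ⊢
          simp only [bet] at hk
          have h4 : k ≠ i := fun h => hi.2 (by rw [← h]; exact hk)
          simp [h4]
        · rw [fn_sum] at hk
          exact absurd hk hsum
    refine ⟨Matrix.diagonal (sgn u), inj_of_det (abs_det_diag u), ?_, abs_det_diag u⟩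
    ext c
    constructor
    · rintro ⟨i, rfl⟩
      exact diag_row u i (hall i)
    · rintro ⟨k, rfl, hk⟩
      rcases k with i | i | ⟨⟩
      · exact ⟨i, (lo_row u i hk).2⟩
      · exact ⟨i, (hi_row u i (g.pos i) hk).2⟩
      · rw [fn_sum] at hk
        exact absurd hk hsum

theorem UC_iff (g : Good a B) : UC (Bx a B) ↔ ¬ ∃ S : Finset (Fin n), ∑ i ∈ S, a i = B := by
  constructor
  · rintro h ⟨S, hS⟩
    exact not_UC g S hS h
  · intro h
    exact UC_of g (fun S hS => h ⟨S, hS⟩)

end Pool.Agent.H671R2.Uni
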