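import Mathlib

/-!
# Integer domination: the combinatorial reduction from SAT
-/

namespace Pool.Agent.H671R2.ZDom

open Finset

/-- satisfiability of a CNF given as a list of clauses of literals `(variable, sign)` -/
def SatCNF (φ : List (List (ℕ × Bool))) : Prop :=
  ∃ σ : ℕ → Bool, ∀ c ∈ φ, ∃ l ∈ c, σ l.1 = l.2

/-- `f` is an integer dominating function of weight `≤ k` -/
def HasZDom {V : Type*} [Fintype V] (adj : V → V → Bool) (k : ℤ) : Prop :=
  ∃ f : V → ℤ, (∀ v, 1 ≤ f v + ∑ u, (if adj v u then f u else 0)) ∧ ∑ v, f v ≤ k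

/-- vertices of the reduction graph -/
abbrev Vt (n m M : ℕ) := ((Fin n × Bool) × Fin 3) ⊕ ((Fin n ⊕ Fin m) × Fin M × Bool)

/-- literal membership in a check -/
def memb {n m : ℕ} (cl : Fin m → List (ℕ × Bool)) (l : Fin n × Bool) : Fin n ⊕ Fin m → Bool
  | Sum.inl v => decide (l.1 = v)
  | Sum.inr j => decide (((l.1 : ℕ), l.2) ∈ cl j)

/-- adjacency of the reduction graph -/
def adj {n m M : ℕ} (cl : Fin m → List (ℕ × Bool)) : Vt n m M → Vt n m M → Bool
  | Sum.inl (l, s), Sum.inl (l', s') =>
      decide (l = l') && (decide (s.val + 1 = s'.val) || decide (s'.val + 1 = s.val))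
  | Sum.inl (l, s), Sum.inr (c, i, b) =>
      decide (s.val = 0) && (decide (i.val = 0) && (!b && memb cl l c))
  | Sum.inr (c, i, b), Sum.inl (l, s) =>
      decide (s.val = 0) && (decide (i.val = 0) && (!b && memb cl l c))
  | Sum.inr (c, i, _), Sum.inr (c', i', _) => decide (c = c') && decide (i ≠ i')

theorem adj_symm {n m M : ℕ} (cl : Fin m → List (ℕ × Bool)) (x y : Vt n m M) :
    adj cl x y = adj cl y x := by
  rcases x with ⟨l, s⟩ | ⟨c, i, b⟩ <;> rcases y with ⟨l', s'⟩ | ⟨c', i', b'⟩
  · simp only [adj]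
    rw [Bool.or_comm]
    congr 1
    simp [eq_comm]
  · rfl
  · rfl
  · simp only [adj]
    simp [eq_comm]

theorem adj_irrefl {n m M : ℕ} (cl : Fin m → List (ℕ × Bool)) (x : Vt n m M) :
    adj cl x x = false := by
  rcases x with ⟨l, s⟩ | ⟨c, i, b⟩ <;> simp [adj]

section
variable {n m M : ℕ} (cl : Fin m → List (ℕ × Bool))

/-- sum of values of literals in a check -/
def litSum (f : Vt n m M → ℤ) (c : Fin n ⊕ Fin m) : ℤ :=
  ∑ l : Fin n × Bool, if memb cl l c then f (Sum.inl (l, 0)) else 0

/-- total weight of a check gadget -/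
def gadSum (f : Vt n m M → ℤ) (c : Fin n ⊕ Fin m) : ℤ :=
  ∑ i : Fin M, ∑ b : Bool, f (Sum.inr (c, i, b))

theorem sum_Vt (g : Vt n m M → ℤ) :
    ∑ v, g v = (∑ l : Fin n × Bool, (g (Sum.inl (l, 0)) + g (Sum.inl (l, 1)) + g (Sum.inl (l, 2))))
      + ∑ c : Fin n ⊕ Fin m, ∑ i : Fin M, ∑ b : Bool, g (Sum.inr (c, i, b)) := by
  rw [Fintype.sum_sum_type]
  congr 1
  · rw [Fintype.sum_prod_type]
    refine Finset.sum_congr rfl fun l _ => ?_
    rw [Fin.sum_univ_three]
  · rw [Fintype.sum_prod_type]
    refine Finset.sum_congr rfl fun l _ => ?_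
    rw [Fintype.sum_prod_type]

theorem nb_u (f : Vt n m M → ℤ) (l : Fin n × Bool) :
    ∑ u, (if adj cl (Sum.inl (l, 2)) u then f u else 0) = f (Sum.inl (l, 1)) := by
  rw [sum_Vt]
  have h1 : ∑ c : Fin n ⊕ Fin m, ∑ i : Fin M, ∑ b : Bool,
      (if adj cl (Sum.inl (l, 2)) (Sum.inr (c, i, b)) then f (Sum.inr (c, i, b)) else 0) = 0 := by
    refine Finset.sum_eq_zero fun c _ => Finset.sum_eq_zero fun i _ => Finset.sum_eq_zero fun b _ => ?_
    simp [adj]
  rw [h1, add_zero]
  rw [Finset.sum_eq_single l]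
  · simp [adj]
  · intro l' _ hl'
    simp [adj, hl'.symm]
  · simp

theorem nb_w (f : Vt n m M → ℤ) (l : Fin n × Bool) :
    ∑ u, (if adj cl (Sum.inl (l, 1)) u then f u else 0)
      = f (Sum.inl (l, 0)) + f (Sum.inl (l, 2)) := by
  rw [sum_Vt]
  have h1 : ∑ c : Fin n ⊕ Fin m, ∑ i : Fin M, ∑ b : Bool,
      (if adj cl (Sum.inl (l, 1)) (Sum.inr (c, i, b)) then f (Sum.inr (c, i, b)) else 0) = 0 := by
    refine Finset.sum_eq_zero fun c _ => Finset.sum_eq_zero fun i _ => Finset.sum_eq_zero fun b _ => ?_
    simp [adj]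
  rw [h1, add_zero]
  rw [Finset.sum_eq_single l]
  · simp [adj]
  · intro l' _ hl'
    simp [adj, hl'.symm]
  · simp

theorem nb_lit (f : Vt n m M → ℤ) (l : Fin n × Bool) (i0 : Fin M) (hi0 : i0.val = 0) :
    ∑ u, (if adj cl (Sum.inl (l, 0)) u then f u else 0)
      = f (Sum.inl (l, 1)) + ∑ c, if memb cl l c then f (Sum.inr (c, i0, false)) else 0 := by
  rw [sum_Vt]
  congr 1
  · rw [Finset.sum_eq_single l]
    · simp [adj]
    · intro l' _ hl'
      simp [adj, hl'.symm]
    · simp
  · refine Finset.sum_congr rfl fun c _ => ?_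
    rw [Finset.sum_eq_single i0]
    · simp [adj, hi0]
    · intro i _ hi
      have : i.val ≠ 0 := fun h => hi (Fin.ext (h.trans hi0.symm))
      simp [adj, this]
    · simp

theorem nb_q (f : Vt n m M → ℤ) (c : Fin n ⊕ Fin m) (i : Fin M) (b : Bool) :
    f (Sum.inr (c, i, b)) + ∑ u, (if adj cl (Sum.inr (c, i, b)) u then f u else 0)
      = (if i.val = 0 ∧ b = false then litSum cl f c else 0) + gadSum f c
        - f (Sum.inr (c, i, !b)) := by
  rw [sum_Vt]
  have h2 : ∑ c' : Fin n ⊕ Fin m, ∑ i' : Fin M, ∑ b' : Bool,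
      (if adj cl (Sum.inr (c, i, b)) (Sum.inr (c', i', b')) then f (Sum.inr (c', i', b')) else 0)
        = gadSum f c - (f (Sum.inr (c, i, true)) + f (Sum.inr (c, i, false))) := by
    rw [Finset.sum_eq_single c]
    · unfold gadSum
      rw [eq_sub_iff_add_eq]
      rw [← Finset.add_sum_erase _ _ (Finset.mem_univ i)]
      rw [← Finset.add_sum_erase (a := i) (s := univ)
        (f := fun i : Fin M => ∑ b : Bool, f (Sum.inr (c, i, b))) (Finset.mem_univ i)]
      have h3 : ∑ b' : Bool, (if adj cl (Sum.inr (c, i, b)) (Sum.inr (c, i, b'))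
          then f (Sum.inr (c, i, b')) else 0) = 0 := by
        refine Finset.sum_eq_zero fun b' _ => ?_
        simp [adj]
      rw [h3, zero_add]
      have h4 : ∑ x ∈ univ.erase i, ∑ b' : Bool,
          (if adj cl (Sum.inr (c, i, b)) (Sum.inr (c, x, b')) then f (Sum.inr (c, x, b')) else 0)
          = ∑ x ∈ univ.erase i, ∑ b' : Bool, f (Sum.inr (c, x, b')) := by
        refine Finset.sum_congr rfl fun x hx => Finset.sum_congr rfl fun b' _ => ?_
        have : i ≠ x := fun h => (Finset.ne_of_mem_erase hx) h.symm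
        simp [adj, this]
      rw [h4]
      simp only [Fintype.sum_bool]
      ring
    · intro c' _ hc'
      refine Finset.sum_eq_zero fun i' _ => Finset.sum_eq_zero fun b' _ => ?_
      simp [adj, hc'.symm]
    · simp
  rw [h2]
  have h5 : ∑ l : Fin n × Bool,
      ((if adj cl (Sum.inr (c, i, b)) (Sum.inl (l, 0)) then f (Sum.inl (l, 0)) else 0)
      + (if adj cl (Sum.inr (c, i, b)) (Sum.inl (l, 1)) then f (Sum.inl (l, 1)) else 0)
      + (if adj cl (Sum.inr (c, i, b)) (Sum.inl (l, 2)) then f (Sum.inl (l, 2)) else 0))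
      = if i.val = 0 ∧ b = false then litSum cl f c else 0 := by
    split_ifs with h
    · unfold litSum
      refine Finset.sum_congr rfl fun l _ => ?_
      simp [adj, h.1, h.2]
    · refine Finset.sum_eq_zero fun l _ => ?_
      have : ¬ (i.val = 0 ∧ b = false ∧ memb cl l c = true) := fun h' => h ⟨h'.1, h'.2.1⟩
      simp only [adj]
      by_cases h0 : i.val = 0
      · have hb : b = true := by
          by_contra hb
          exact h ⟨h0, by simpa using hb⟩
        simp [hb]
      · simp [h0]
  rw [h5]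
  cases b <;> simp <;> ring


/-- the dominating function coming from a satisfying assignment -/
def solf (σ : ℕ → Bool) : Vt n m M → ℤ
  | Sum.inl (l, s) => if s.val = 0 then (if σ l.1 = l.2 then 1 else 0) else
      (if s.val = 1 then 1 else 0)
  | Sum.inr (_, i, b) => if i.val = 0 ∧ b = true then 1 else 0

theorem forward (hM : 0 < M) (σ : ℕ → Bool)
    (hσ : ∀ j, ∃ l : Fin n × Bool, ((l.1 : ℕ), l.2) ∈ cl j ∧ σ l.1 = l.2) :
    HasZDom (adj (n := n) (M := M) cl) (4 * n + m) := by
  refine ⟨solf σ, ?_, ?_⟩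
  · have hgad : ∀ c, gadSum (M := M) (solf (n := n) (m := m) σ) c = 1 := by
      intro c
      unfold gadSum
      rw [Finset.sum_eq_single (⟨0, hM⟩ : Fin M)]
      · simp [solf]
      · intro i _ hi
        have : i.val ≠ 0 := fun h => hi (Fin.ext h)
        simp [solf, this]
      · simp
    have hlit : ∀ c, 1 ≤ litSum (M := M) cl (solf (n := n) (m := m) σ) c := by
      intro c
      have hpos : ∀ l : Fin n × Bool,
          0 ≤ (if memb cl l c then solf (m := m) (M := M) σ (Sum.inl (l, 0)) else 0) := by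
        intro l
        split_ifs
        · simp only [solf]
          split_ifs <;> norm_num
        · exact le_refl 0
      have key : ∃ l : Fin n × Bool, memb cl l c = true ∧ σ l.1 = l.2 := by
        rcases c with v | j
        · exact ⟨(v, σ v), by simp [memb], rfl⟩
        · obtain ⟨l, h1, h2⟩ := hσ j
          exact ⟨l, by simpa [memb] using h1, h2⟩
      obtain ⟨l, h1, h2⟩ := key
      unfold litSum
      calc (1 : ℤ) = (if memb cl l c then solf (m := m) (M := M) σ (Sum.inl (l, 0)) else 0) := by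
            simp [h1, solf, h2]
        _ ≤ _ := Finset.single_le_sum (f := fun l : Fin n × Bool =>
              (if memb cl l c then solf (m := m) (M := M) σ (Sum.inl (l, 0)) else 0))
              (fun l _ => hpos l) (Finset.mem_univ l)
    intro v
    rcases v with ⟨l, s⟩ | ⟨c, i, b⟩
    · fin_cases s
      · have := nb_lit (M := M) cl (solf σ) l ⟨0, hM⟩ rfl
        simp only [Fin.zero_eta, Fin.isValue] at this ⊢
        rw [this]
        have h1 : 0 ≤ solf (n := n) (m := m) (M := M) σ (Sum.inl (l, 0)) := by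
          simp only [solf]
          split_ifs <;> norm_num
        have h2 : solf (n := n) (m := m) (M := M) σ (Sum.inl (l, 1)) = 1 := by
          simp [solf]
        have h3 : 0 ≤ ∑ c, (if memb cl l c then
            solf (n := n) (m := m) (M := M) σ (Sum.inr (c, ⟨0, hM⟩, false)) else 0) := by
          refine Finset.sum_nonneg fun c _ => ?_
          simp [solf]
        linarith
      · have := nb_w (M := M) cl (solf σ) l
        simp only [Fin.mk_one, Fin.isValue] at this ⊢
        rw [this]
        have h1 : 0 ≤ solf (n := n) (m := m) (M := M) σ (Sum.inl (l, 0)) := by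
          simp only [solf]
          split_ifs <;> norm_num
        have h2 : solf (n := n) (m := m) (M := M) σ (Sum.inl (l, 1)) = 1 := by
          simp [solf]
        have h3 : solf (n := n) (m := m) (M := M) σ (Sum.inl (l, 2)) = 0 := by
          simp [solf]
        linarith
      · have := nb_u (M := M) cl (solf σ) l
        simp only [Fin.reduceFinMk, Fin.isValue] at this ⊢
        rw [this]
        have h2 : solf (n := n) (m := m) (M := M) σ (Sum.inl (l, 1)) = 1 := by
          simp [solf]
        have h3 : solf (n := n) (m := m) (M := M) σ (Sum.inl (l, 2)) = 0 := by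
          simp [solf]
        linarith
    · rw [nb_q, hgad]
      have hl := hlit c
      by_cases h : i.val = 0
      · cases b
        · simp [h, solf, hl]
        · simp [h, solf]
      · simp [h, solf]
  · rw [sum_Vt]
    have h1 : ∑ l : Fin n × Bool, (solf (n := n) (m := m) (M := M) σ (Sum.inl (l, 0))
        + solf (n := n) (m := m) (M := M) σ (Sum.inl (l, 1))
        + solf (n := n) (m := m) (M := M) σ (Sum.inl (l, 2))) = 3 * n := by
      rw [Fintype.sum_prod_type]
      have : ∀ v : Fin n, ∑ b : Bool, (solf (n := n) (m := m) (M := M) σ (Sum.inl ((v, b), 0))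
        + solf (n := n) (m := m) (M := M) σ (Sum.inl ((v, b), 1))
        + solf (n := n) (m := m) (M := M) σ (Sum.inl ((v, b), 2))) = 3 := by
        intro v
        rw [Fintype.sum_bool]
        cases h : σ v <;> simp [solf, h]
      rw [Finset.sum_congr rfl fun v _ => this v]
      simp [mul_comm]
    have h2 : ∑ c : Fin n ⊕ Fin m, ∑ i : Fin M, ∑ b : Bool,
        solf (n := n) (m := m) (M := M) σ (Sum.inr (c, i, b)) = n + m := by
      have : ∀ c : Fin n ⊕ Fin m, ∑ i : Fin M, ∑ b : Bool,
        solf (n := n) (m := m) (M := M) σ (Sum.inr (c, i, b)) = 1 := by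
        intro c
        rw [Finset.sum_eq_single (⟨0, hM⟩ : Fin M)]
        · simp [solf]
        · intro i _ hi
          have : i.val ≠ 0 := fun h => hi (Fin.ext h)
          simp [solf, this]
        · simp
      rw [Finset.sum_congr rfl fun v _ => this v]
      simp
    rw [h1, h2]
    linarith

theorem backward (hM : m * n + m + 2 ≤ M) (hn : 0 < n)
    (h : HasZDom (adj (n := n) (M := M) cl) (4 * n + m)) :
    ∃ σ : Fin n → Bool, ∀ j, ∃ l : Fin n × Bool, ((l.1 : ℕ), l.2) ∈ cl j ∧ σ l.1 = l.2 := by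
  obtain ⟨f, hf, hw⟩ := h
  have hM0 : 0 < M := by omega
  -- truncated values
  set a : Fin n × Bool → ℤ := fun l => max (f (Sum.inl (l, 0))) 0 with ha
  have ha0 : ∀ l, 0 ≤ a l := fun l => le_max_right _ _
  have hfa : ∀ l, f (Sum.inl (l, 0)) ≤ a l := fun l => le_max_left _ _
  set A : Fin n ⊕ Fin m → ℤ := fun c => ∑ l : Fin n × Bool, if memb cl l c then a l else 0 with hA
  have hA0 : ∀ c, 0 ≤ A c := fun c => Finset.sum_nonneg fun l _ => by
    split_ifs
    · exact ha0 l
    · exact le_refl 0
  have hpend : ∀ l, 1 + a l ≤ f (Sum.inl (l, 0)) + f (Sum.inl (l, 1)) + f (Sum.inl (l, 2)) := by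
    intro l
    have h1 := hf (Sum.inl (l, 2))
    rw [nb_u] at h1
    have h2 := hf (Sum.inl (l, 1))
    rw [nb_w] at h2
    simp only [ha]
    rcases le_total (f (Sum.inl (l, 0))) 0 with h3 | h3
    · rw [max_eq_right h3]; linarith
    · rw [max_eq_left h3]; linarith
  have hgad : ∀ c, (2 * M : ℤ) ≤ (2 * M - 1) * gadSum f c + A c := by
    intro c
    have h1 : ∑ i : Fin M, ∑ b : Bool, (1 : ℤ) ≤ ∑ i : Fin M, ∑ b : Bool,
        ((if i.val = 0 ∧ b = false then litSum cl f c else 0) + gadSum f c
        - f (Sum.inr (c, i, !b))) := by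
      refine Finset.sum_le_sum fun i _ => Finset.sum_le_sum fun b _ => ?_
      rw [← nb_q]
      exact hf _
    have h2 : ∑ i : Fin M, ∑ b : Bool,
        ((if i.val = 0 ∧ b = false then litSum cl f c else 0) + gadSum f c
        - f (Sum.inr (c, i, !b))) = litSum cl f c + (2 * M - 1) * gadSum f c := by
      have h3 : ∀ i : Fin M, ∑ b : Bool,
        ((if i.val = 0 ∧ b = false then litSum cl f c else 0) + gadSum f c
        - f (Sum.inr (c, i, !b))) = (if i.val = 0 then litSum cl f c else 0) + 2 * gadSum f c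
        - ∑ b : Bool, f (Sum.inr (c, i, b)) := by
        intro i
        simp only [Fintype.sum_bool]
        by_cases h : i.val = 0 <;> simp [h] <;> ring
      rw [Finset.sum_congr rfl fun i _ => h3 i]
      rw [Finset.sum_sub_distrib, Finset.sum_add_distrib]
      have h4 : ∑ i : Fin M, (if i.val = 0 then litSum cl f c else 0) = litSum cl f c := by
        rw [Finset.sum_eq_single (⟨0, hM0⟩ : Fin M)]
        · simp
        · intro i _ hi
          have : i.val ≠ 0 := fun h => hi (Fin.ext h)
          simp [this]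
        · simp
      rw [h4]
      have h5 : ∑ i : Fin M, (2 * gadSum f c) = 2 * M * gadSum f c := by
        simp
        ring
      rw [h5]
      change litSum cl f c + 2 * M * gadSum f c - gadSum f c = _
      ring
    rw [h2] at h1
    have h6 : ∑ i : Fin M, ∑ b : Bool, (1 : ℤ) = 2 * M := by
      simp
      ring
    rw [h6] at h1
    have h7 : litSum cl f c ≤ A c := by
      refine Finset.sum_le_sum fun l _ => ?_
      split_ifs
      · exact hfa l
      · exact le_refl 0
    linarith
  set S : Fin n ⊕ Fin m → ℤ := fun c => gadSum f c with hS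
  have htot : ∑ l, (1 + a l) + ∑ c, S c ≤ 4 * n + m := by
    rw [sum_Vt] at hw
    refine le_trans (add_le_add ?_ (le_refl _)) hw
    exact Finset.sum_le_sum fun l _ => hpend l
  -- per-variable sums
  have hAv : ∀ v : Fin n, A (Sum.inl v) = a (v, true) + a (v, false) := by
    intro v
    simp only [hA]
    rw [Fintype.sum_prod_type]
    rw [Finset.sum_eq_single v]
    · simp [memb]
    · intro v' _ hv'
      simp [memb, hv']
    · simp
  have hsum1 : ∑ l, (1 + a l) = 2 * n + ∑ v : Fin n, A (Sum.inl v) := by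
    rw [Finset.sum_add_distrib, Fintype.sum_prod_type (f := fun l : Fin n × Bool => a l)]
    congr 1
    · simp; ring
    · refine Finset.sum_congr rfl fun v _ => ?_
      rw [hAv, Fintype.sum_bool]
  rw [hsum1, Fintype.sum_sum_type] at htot
  have htot' : ∑ v : Fin n, (A (Sum.inl v) + S (Sum.inl v)) + ∑ j : Fin m, S (Sum.inr j)
      ≤ 2 * n + m := by
    rw [Finset.sum_add_distrib]
    linarith
  -- excess
  set e : Fin n → ℤ := fun v => max (A (Sum.inl v) - 1) 0 with he
  have he0 : ∀ v, 0 ≤ e v := fun v => le_max_right _ _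
  have hAe : ∀ v, A (Sum.inl v) ≤ 1 + e v := fun v => by
    have : A (Sum.inl v) - 1 ≤ e v := le_max_left _ _
    linarith
  set p : ℤ := 2 * M - 1 with hp
  have hMz : (m : ℤ) * n + m + 2 ≤ M := by exact_mod_cast hM
  have hm0 : (0 : ℤ) ≤ m := by positivity
  have hn0 : (1 : ℤ) ≤ n := by exact_mod_cast hn
  have hmn0 : (0 : ℤ) ≤ (m : ℤ) * n := by positivity
  have hp0 : 0 < p := by
    rw [hp]; linarith
  have hv : ∀ v : Fin n, 2 * p + (p - 1) * e v ≤ p * (A (Sum.inl v) + S (Sum.inl v)) := by
    intro v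
    have h1 := hgad (Sum.inl v)
    have h1' : p + 1 ≤ p * S (Sum.inl v) + A (Sum.inl v) := by
      simp only [hS]
      rw [hp]
      linarith
    rcases (hA0 (Sum.inl v)).eq_or_lt with h0 | h0
    · have h2 : 2 ≤ S (Sum.inl v) := by
        by_contra hlt
        push Not at hlt
        have : S (Sum.inl v) ≤ 1 := by linarith
        have := mul_le_mul_of_nonneg_left this hp0.le
        linarith
      have h3 : e v = 0 := by
        simp only [he]
        rw [← h0]
        norm_num
      rw [h3, ← h0]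
      nlinarith
    · have h3 : e v = A (Sum.inl v) - 1 := by
        simp only [he]
        exact max_eq_left (by linarith)
      rw [h3]
      linarith
  have hEA : ∀ c, A c ≤ ∑ v : Fin n, A (Sum.inl v) := by
    intro c
    simp only [hA]
    have h1 : ∑ l : Fin n × Bool, (if memb cl l c then a l else 0) ≤ ∑ l : Fin n × Bool, a l := by
      refine Finset.sum_le_sum fun l _ => ?_
      split_ifs
      · exact le_refl _
      · exact ha0 l
    have h2 : ∑ l : Fin n × Bool, a l = ∑ v : Fin n, A (Sum.inl v) := by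
      rw [Fintype.sum_prod_type]
      refine Finset.sum_congr rfl fun v _ => ?_
      rw [hAv, Fintype.sum_bool]
    rw [h2] at h1
    exact h1
  have hEn : ∑ v : Fin n, A (Sum.inl v) ≤ n + ∑ v, e v := by
    calc ∑ v : Fin n, A (Sum.inl v) ≤ ∑ v : Fin n, (1 + e v) :=
          Finset.sum_le_sum fun v _ => hAe v
      _ = n + ∑ v, e v := by rw [Finset.sum_add_distrib]; simp
  have hc : ∀ j : Fin m, p + 1 - n - ∑ v, e v ≤ p * S (Sum.inr j) := by
    intro j
    have h1 := hgad (Sum.inr j)
    have h2 := hEA (Sum.inr j)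
    have h1' : p + 1 ≤ p * S (Sum.inr j) + A (Sum.inr j) := by
      simp only [hS]
      rw [hp]
      linarith
    linarith
  have hE0 : ∑ v, e v = 0 := by
    by_contra hne
    have hE1 : 1 ≤ ∑ v, e v := by
      have : 0 ≤ ∑ v, e v := Finset.sum_nonneg fun v _ => he0 v
      rcases this.eq_or_lt with h0 | h0
      · exact absurd h0.symm hne
      · linarith
    have h1 : p * (∑ v : Fin n, (A (Sum.inl v) + S (Sum.inl v)) + ∑ j : Fin m, S (Sum.inr j))
        ≤ p * (2 * n + m) := mul_le_mul_of_nonneg_left htot' hp0.le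
    have h2 : (2 * p) * n + (p - 1) * ∑ v, e v ≤
        p * ∑ v : Fin n, (A (Sum.inl v) + S (Sum.inl v)) := by
      rw [Finset.mul_sum, Finset.mul_sum]
      calc (2 * p) * n + ∑ v, (p - 1) * e v = ∑ v : Fin n, (2 * p + (p - 1) * e v) := by
            rw [Finset.sum_add_distrib]; simp; ring
        _ ≤ _ := Finset.sum_le_sum fun v _ => hv v
    have h3 : m * (p + 1 - n - ∑ v, e v) ≤ p * ∑ j : Fin m, S (Sum.inr j) := by
      rw [Finset.mul_sum]
      calc m * (p + 1 - n - ∑ v, e v) = ∑ j : Fin m, (p + 1 - n - ∑ v, e v) := by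
            rw [Finset.sum_const, Finset.card_univ, Fintype.card_fin, nsmul_eq_mul]
        _ ≤ _ := Finset.sum_le_sum fun j _ => hc j
    have h4 : (p - 1 - m) * ∑ v, e v ≤ m * n - m := by
      nlinarith
    have h5 : (0 : ℤ) ≤ p - 1 - m := by rw [hp]; linarith
    have h6 : (p - 1 - m) * 1 ≤ (p - 1 - m) * ∑ v, e v := mul_le_mul_of_nonneg_left hE1 h5
    rw [hp] at h6 h4
    linarith
  have he1 : ∀ v, e v = 0 := by
    intro v
    have := (Finset.sum_eq_zero_iff_of_nonneg (fun v _ => he0 v)).1 hE0 v (Finset.mem_univ v)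
    exact this
  have hA1 : ∀ v : Fin n, a (v, true) + a (v, false) ≤ 1 := by
    intro v
    have := hAe v
    rw [he1, hAv] at this
    linarith
  -- every clause gadget has weight exactly one
  have hS1 : ∀ j : Fin m, 1 ≤ S (Sum.inr j) := by
    intro j
    have := hc j
    rw [hE0] at this
    by_contra hlt
    push Not at hlt
    have h1 : S (Sum.inr j) ≤ 0 := by linarith
    have h2 := mul_nonpos_of_nonneg_of_nonpos hp0.le h1
    rw [hp] at this
    have h3 : (n : ℤ) ≤ m * n + 1 + n := by linarith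
    rw [hp] at h2
    have hmpos : (1 : ℤ) ≤ m := by
      have := j.pos
      exact_mod_cast this
    have h4 : (n : ℤ) ≤ m * n := by nlinarith
    linarith
  have hv2 : ∀ v : Fin n, 2 ≤ A (Sum.inl v) + S (Sum.inl v) := by
    intro v
    have := hv v
    rw [he1] at this
    by_contra hlt
    push Not at hlt
    have h1 : A (Sum.inl v) + S (Sum.inl v) ≤ 1 := by linarith
    have h2 := mul_le_mul_of_nonneg_left h1 hp0.le
    linarith
  have hSle : ∀ j : Fin m, S (Sum.inr j) ≤ 1 := by
    intro j
    have h1 : (2 : ℤ) * n ≤ ∑ v : Fin n, (A (Sum.inl v) + S (Sum.inl v)) := by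
      calc (2 : ℤ) * n = ∑ v : Fin n, (2 : ℤ) := by simp; ring
        _ ≤ _ := Finset.sum_le_sum fun v _ => hv2 v
    have h2 : ∑ j : Fin m, S (Sum.inr j) ≤ m := by linarith
    have h3 : S (Sum.inr j) + ∑ i ∈ univ.erase j, S (Sum.inr i) = ∑ j : Fin m, S (Sum.inr j) :=
      Finset.add_sum_erase univ (fun j => S (Sum.inr j)) (Finset.mem_univ j)
    have h4 : ((univ.erase j).card : ℤ) ≤ ∑ i ∈ univ.erase j, S (Sum.inr i) := by
      calc ((univ.erase j).card : ℤ) = ∑ i ∈ univ.erase j, (1 : ℤ) := by simp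
        _ ≤ _ := Finset.sum_le_sum fun i _ => hS1 i
    have h5 : ((univ.erase j).card : ℤ) = m - 1 := by
      rw [Finset.card_erase_of_mem (Finset.mem_univ j)]
      simp
      have := j.pos
      omega
    linarith
  have hAc : ∀ j : Fin m, 1 ≤ A (Sum.inr j) := by
    intro j
    have h1 := hgad (Sum.inr j)
    have h1' : p + 1 ≤ p * S (Sum.inr j) + A (Sum.inr j) := by
      simp only [hS]
      rw [hp]
      linarith
    have h2 := mul_le_mul_of_nonneg_left (hSle j) hp0.le
    linarith
  refine ⟨fun v => decide (1 ≤ a (v, true)), fun j => ?_⟩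
  have : ∃ l : Fin n × Bool, memb cl l (Sum.inr j) = true ∧ 1 ≤ a l := by
    by_contra hcon
    push Not at hcon
    have h0 : A (Sum.inr j) = 0 := by
      simp only [hA]
      refine Finset.sum_eq_zero fun l _ => ?_
      split_ifs with hm
      · have := hcon l hm
        have := ha0 l
        linarith
      · rfl
    have := hAc j
    linarith
  obtain ⟨⟨v, b⟩, h1, h2⟩ := this
  refine ⟨(v, b), by simpa [memb] using h1, ?_⟩
  cases b
  · have := hA1 v
    have h3 : ¬ (1 ≤ a (v, true)) := by
      intro h3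
      linarith
    simp [h3]
  · simp [h2]

end

end Pool.Agent.H671R2.ZDom
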