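import Pool.Agent.H671R2.ZDom
import Pool.Agent.H671R2.BSat

/-!
# Integer domination: assembling the reduction
-/

namespace Pool.Agent.NPC.R671

open Pool.Agent.H671R2

theorem hasZDom_iff {V W : Type} [Fintype V] [Fintype W] (aV : V → V → Bool) (aW : W → W → Bool)
    (e : V ≃ W) (h : ∀ x y, aW (e x) (e y) = aV x y) (k : ℤ) :
    ZDom.HasZDom aV k ↔ ZDom.HasZDom aW k := by
  constructor
  · rintro ⟨f, hf, hk⟩
    refine ⟨fun w => f (e.symm w), fun w => ?_, ?_⟩
    · have h1 := hf (e.symm w)
      rw [← e.sum_comp]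
      simp only [e.symm_apply_apply]
      refine h1.trans (le_of_eq ?_)
      congr 1
      refine Finset.sum_congr rfl fun u _ => ?_
      rw [← h, e.apply_symm_apply]
    · rw [← e.sum_comp]
      simpa using hk
  · rintro ⟨f, hf, hk⟩
    refine ⟨fun v => f (e v), fun v => ?_, ?_⟩
    · have h1 := hf (e v)
      rw [← e.sum_comp] at h1
      refine h1.trans (le_of_eq ?_)
      congr 1
      refine Finset.sum_congr rfl fun u _ => ?_
      rw [← h]
    · rw [e.sum_comp]
      exact hk

theorem isZDominating_iff {V : Type*} [Fintype V] (G : SimpleGraph V) (ad : V → V → Bool)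
    (h : ∀ u v, G.Adj u v ↔ ad u v = true) (f : V → ℤ) :
    IsZDominating G f ↔ ∀ v, 1 ≤ f v + ∑ u, (if ad v u then f u else 0) := by
  classical
  unfold IsZDominating
  refine forall_congr' fun v => ?_
  have h1 : ∑ u ∈ Finset.univ.filter (fun u => u = v ∨ G.Adj v u), f u =
      f v + ∑ u, (if ad v u then f u else 0) := by
    have h2 : Finset.univ.filter (fun u => u = v ∨ G.Adj v u) =
        insert v (Finset.univ.filter (fun u => ad v u = true)) := by
      ext u
      simp [h]
    rw [h2, Finset.sum_insert, Finset.sum_filter]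
    simp only [Finset.mem_filter, Finset.mem_univ, true_and]
    rw [← h]
    exact G.loopless.irrefl v
  convert Iff.rfl using 2
  rw [← h1]

theorem gammaZ_le_iff {V : Type*} [Fintype V] (G : SimpleGraph V) (k : ℤ) :
    gammaZ G ≤ ((k : ℝ) : EReal) ↔ ∃ f : V → ℤ, IsZDominating G f ∧ ∑ v, f v ≤ k := by
  constructor
  · intro h
    have h1 : gammaZ G < (((k + 1 : ℤ) : ℝ) : EReal) := by
      refine lt_of_le_of_lt h ?_
      rw [EReal.coe_lt_coe_iff]
      push_cast
      linarith
    unfold gammaZ at h1
    rw [iInf_lt_iff] at h1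
    obtain ⟨f, hf⟩ := h1
    rw [EReal.coe_lt_coe_iff, Int.cast_lt] at hf
    exact ⟨f.1, f.2, by omega⟩
  · rintro ⟨f, hf, hk⟩
    refine (iInf_le _ (⟨f, hf⟩ : {f : V → ℤ // IsZDominating G f})).trans ?_
    rw [EReal.coe_le_coe_iff]
    exact_mod_cast hk

namespace ZD

/-- labels of the vertices -/
abbrev Λ : Type := ((ℕ × Bool) × ℕ) ⊕ ((ℕ ⊕ ℕ) × ℕ × Bool)

/-- membership of a literal in a check -/
def membL (φ : List (List (Bool × ℕ))) (l : ℕ × Bool) (c : ℕ ⊕ ℕ) : Bool :=
  Sum.elim (fun v => decide (l.1 = v)) (fun j => decide ((l.2, l.1) ∈ φ.getD j [])) c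

/-- adjacency of labels -/
def adjL (φ : List (List (Bool × ℕ))) (a b : Λ) : Bool :=
  Sum.elim
    (fun p => Sum.elim
      (fun p' => decide (p.1 = p'.1) && (decide (p.2 + 1 = p'.2) || decide (p'.2 + 1 = p.2)))
      (fun q => decide (p.2 = 0) && (decide (q.2.1 = 0) && (!q.2.2 && membL φ p.1 q.1))) b)
    (fun q => Sum.elim
      (fun p => decide (p.2 = 0) && (decide (q.2.1 = 0) && (!q.2.2 && membL φ p.1 q.1)))
      (fun q' => decide (q.1 = q'.1) && !decide (q.2.1 = q'.2.1)) b) a

theorem adjL_symm (φ : List (List (Bool × ℕ))) (a b : Λ) : adjL φ a b = adjL φ b a := by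
  rcases a with p | q <;> rcases b with p' | q' <;> simp only [adjL, Sum.elim_inl, Sum.elim_inr]
  · rw [Bool.or_comm]
    congr 1
    simp [eq_comm]
  · simp [eq_comm]

theorem adjL_irrefl (φ : List (List (Bool × ℕ))) (a : Λ) : adjL φ a a = false := by
  rcases a with p | q <;> simp [adjL]

/-- the size parameter -/
def Msize (n m : ℕ) : ℕ := m * n + m + 2

/-- list of vertices -/
def vlist (n m : ℕ) : List Λ :=
  ((((List.range n) ×ˢ [false, true]) ×ˢ [0, 1, 2]).map Sum.inl) ++
    ((((List.range n).map Sum.inl ++ (List.range m).map Sum.inr) ×ˢ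
      ((List.range (Msize n m)) ×ˢ [false, true])).map Sum.inr)

/-- embedding of the structured vertices in the labels -/
def code {n m M : ℕ} : ZDom.Vt n m M → Λ
  | Sum.inl (l, s) => Sum.inl ((l.1.val, l.2), s.val)
  | Sum.inr (Sum.inl v, i, b) => Sum.inr (Sum.inl v.val, i.val, b)
  | Sum.inr (Sum.inr j, i, b) => Sum.inr (Sum.inr j.val, i.val, b)

theorem code_injective {n m M : ℕ} : Function.Injective (code (n := n) (m := m) (M := M)) := by
  rintro (⟨⟨v, b⟩, s⟩ | ⟨v | j, i, b⟩) (⟨⟨v', b'⟩, s'⟩ | ⟨v' | j', i', b'⟩) h <;>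
    simp only [code, Sum.inl.injEq, Sum.inr.injEq, Prod.mk.injEq, reduceCtorEq, false_and] at h
  · obtain ⟨⟨h1, h2⟩, h3⟩ := h
    rw [Fin.ext h1, h2, Fin.ext h3]
  · obtain ⟨h1, h2, h3⟩ := h
    rw [Fin.ext h1, Fin.ext h2, h3]
  · obtain ⟨h1, h2, h3⟩ := h
    rw [Fin.ext h1, Fin.ext h2, h3]

theorem mem_vlist {n m : ℕ} (z : Λ) :
    z ∈ vlist n m ↔ ∃ x : ZDom.Vt n m (Msize n m), code x = z := by
  unfold vlist
  constructor
  · intro h
    rw [List.mem_append] at h
    rcases h with h | h
    · simp only [List.mem_map, List.mem_product, List.mem_range, Prod.exists] at h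
      obtain ⟨v, b, s, ⟨⟨h1, _⟩, h3⟩, rfl⟩ := h
      have h4 : s < 3 := by
        simp at h3
        omega
      exact ⟨Sum.inl ((⟨v, h1⟩, b), ⟨s, h4⟩), rfl⟩
    · simp only [List.mem_map, List.mem_product, List.mem_range, Prod.exists,
        List.mem_append] at h
      obtain ⟨c, i, b, ⟨h1, h2, _⟩, rfl⟩ := h
      rcases h1 with ⟨v, hv, rfl⟩ | ⟨j, hj, rfl⟩
      · exact ⟨Sum.inr (Sum.inl ⟨v, hv⟩, ⟨i, h2⟩, b), rfl⟩
      · exact ⟨Sum.inr (Sum.inr ⟨j, hj⟩, ⟨i, h2⟩, b), rfl⟩
  · rintro ⟨x, rfl⟩
    rw [List.mem_append]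
    rcases x with ⟨⟨v, b⟩, s⟩ | ⟨v | j, i, b⟩
    · left
      simp only [code, List.mem_map, List.mem_product, List.mem_range, Prod.exists]
      refine ⟨v, b, s, ⟨⟨v.isLt, by cases b <;> simp⟩, ?_⟩, rfl⟩
      fin_cases s <;> simp
    · right
      simp only [code, List.mem_map, List.mem_product, List.mem_range, Prod.exists,
        List.mem_append]
      exact ⟨Sum.inl v, i, b, ⟨Or.inl ⟨v, v.isLt, rfl⟩, i.isLt, by cases b <;> simp⟩, rfl⟩
    · right
      simp only [code, List.mem_map, List.mem_product, List.mem_range, Prod.exists,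
        List.mem_append]
      exact ⟨Sum.inr j, i, b, ⟨Or.inr ⟨j, j.isLt, rfl⟩, i.isLt, by cases b <;> simp⟩, rfl⟩

theorem nodup_vlist (n m : ℕ) : (vlist n m).Nodup := by
  unfold vlist
  have hb : [false, true].Nodup := by simp
  refine List.Nodup.append ?_ ?_ ?_
  · refine List.Nodup.map Sum.inl_injective ?_
    exact (List.nodup_range.product hb).product (by simp)
  · refine List.Nodup.map Sum.inr_injective ?_
    refine List.Nodup.product ?_ (List.nodup_range.product hb)
    refine List.Nodup.append ?_ ?_ ?_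
    · exact List.nodup_range.map Sum.inl_injective
    · exact List.nodup_range.map Sum.inr_injective
    · intro z hz hz'
      simp only [List.mem_map] at hz hz'
      obtain ⟨_, _, rfl⟩ := hz
      obtain ⟨_, _, h⟩ := hz'
      exact absurd h (by simp)
  · intro z hz hz'
    simp only [List.mem_map] at hz hz'
    obtain ⟨_, _, rfl⟩ := hz
    obtain ⟨_, _, h⟩ := hz'
    exact absurd h (by simp)

/-- the clauses in the format of the combinatorial file -/
def cls (φ : List (List (Bool × ℕ))) (j : Fin φ.length) : List (ℕ × Bool) :=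
  (φ[j]).map Prod.swap

theorem code_adj (φ : List (List (Bool × ℕ))) {n M : ℕ} (x y : ZDom.Vt n φ.length M) :
    adjL φ (code x) (code y) = ZDom.adj (cls φ) x y := by
  have hm : ∀ (v : Fin n) (b : Bool) (j : Fin φ.length),
      decide ((b, v.val) ∈ φ.getD j.val []) = decide ((v.val, b) ∈ cls φ j) := by
    intro v b j
    unfold cls
    rw [decide_eq_decide, List.mem_map]
    rw [List.getD_eq_getElem?_getD, List.getElem?_eq_getElem j.isLt, Option.getD_some]
    constructor
    · intro h
      exact ⟨_, h, rfl⟩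
    · rintro ⟨⟨b', v'⟩, h, h'⟩
      simp only [Prod.swap_prod_mk, Prod.mk.injEq] at h'
      rw [← h'.1, ← h'.2]
      exact h
  have hv : ∀ (v v' : Fin n), decide (v.val = v'.val) = decide (v = v') := by
    intro v v'
    rw [decide_eq_decide]
    exact Fin.ext_iff.symm
  rcases x with ⟨⟨v, b⟩, s⟩ | ⟨v | j, i, b⟩ <;> rcases y with ⟨⟨v', b'⟩, s'⟩ | ⟨v' | j', i', b'⟩ <;>
    simp only [code, adjL, ZDom.adj, membL, ZDom.memb, Sum.elim_inl, Sum.elim_inr]
  · simp [Fin.ext_iff]
  · rw [hv]
  · rw [hm]
  · rw [hv]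
  · simp [Fin.ext_iff]
  · simp only [reduceCtorEq, decide_false, Bool.false_and]
  · rw [hm]
  · simp only [reduceCtorEq, decide_false, Bool.false_and]
  · simp [Fin.ext_iff]

/-- the graph of the reduction -/
def gr (φ : List (List (Bool × ℕ))) : SimpleGraph (Fin (vlist φ.flatten.length φ.length).length) :=
  listGraph (vlist φ.flatten.length φ.length) (adjL φ) (adjL_symm φ) (adjL_irrefl φ)

/-- the weight bound of the reduction -/
def bound (φ : List (List (Bool × ℕ))) : ℤ := 4 * φ.flatten.length + φ.length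

theorem correct (φ : List (List (Bool × ℕ))) :
    BSat φ ↔ gammaZ (gr φ) ≤ ((bound φ : ℝ) : EReal) := by
  obtain ⟨e, he⟩ := exists_equiv (vlist φ.flatten.length φ.length) (nodup_vlist _ _)
    (code (n := φ.flatten.length) (m := φ.length)) code_injective mem_vlist
  have h1 : gammaZ (gr φ) ≤ ((bound φ : ℝ) : EReal) ↔
      ZDom.HasZDom (ZDom.adj (n := φ.flatten.length) (M := Msize φ.flatten.length φ.length) (cls φ))
        (bound φ) := by
    rw [gammaZ_le_iff]
    rw [← hasZDom_iff (fun i j : Fin (vlist φ.flatten.length φ.length).length =>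
      adjL φ (vlist φ.flatten.length φ.length)[i] (vlist φ.flatten.length φ.length)[j]) _ e
      (fun i j => by rw [← he, ← he, code_adj])]
    unfold ZDom.HasZDom
    refine exists_congr fun f => ?_
    rw [isZDominating_iff (gr φ) (fun i j : Fin (vlist φ.flatten.length φ.length).length =>
      adjL φ (vlist φ.flatten.length φ.length)[i] (vlist φ.flatten.length φ.length)[j])
      (fun u v => Iff.rfl)]
  rw [h1]
  constructor
  · rintro ⟨σ, hσ⟩
    refine ZDom.forward (cls φ) (by unfold Msize; omega) σ fun j => ?_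
    obtain ⟨l, hl, hlt, hs⟩ := hσ φ[j] (List.getElem_mem _)
    refine ⟨(⟨l.2, hlt⟩, l.1), ?_, hs⟩
    unfold cls
    exact List.mem_map.2 ⟨l, hl, rfl⟩
  · intro h
    rcases Nat.eq_zero_or_pos φ.flatten.length with h0 | h0
    · -- no literals at all
      rcases Nat.eq_zero_or_pos φ.length with h2 | h2
      · refine ⟨fun _ => false, fun c hc => ?_⟩
        rw [List.length_eq_zero_iff] at h2
        rw [h2] at hc
        simp at hc
      · exfalso
        obtain ⟨f, hf, hk⟩ := h
        have hg := ZDom.nb_q (n := φ.flatten.length) (M := Msize φ.flatten.length φ.length) (cls φ) f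
        -- sum all constraints of one clause gadget
        have hlit : ∀ c, ZDom.litSum (cls φ) f c = 0 := by
          intro c
          unfold ZDom.litSum
          refine Finset.sum_eq_zero fun l _ => ?_
          exact absurd l.1.isLt (by omega)
        have hone : ∀ c, 2 ≤ ZDom.gadSum f c := by
          intro c
          have hM : 0 < Msize φ.flatten.length φ.length := by unfold Msize; omega
          have h3 : ∑ i : Fin (Msize φ.flatten.length φ.length), ∑ b : Bool, (1 : ℤ) ≤
              ∑ i : Fin (Msize φ.flatten.length φ.length), ∑ b : Bool,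
                (ZDom.gadSum f c - f (Sum.inr (c, i, !b))) := by
            refine Finset.sum_le_sum fun i _ => Finset.sum_le_sum fun b _ => ?_
            have h4 := hf (Sum.inr (c, i, b))
            rw [hg, hlit] at h4
            simpa using h4
          simp only [Fintype.sum_bool, Bool.not_true, Bool.not_false] at h3
          have h5 : ∑ i : Fin (Msize φ.flatten.length φ.length),
              (ZDom.gadSum f c - f (Sum.inr (c, i, false)) + (ZDom.gadSum f c -
                f (Sum.inr (c, i, true)))) =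
              2 * Msize φ.flatten.length φ.length * ZDom.gadSum f c - ZDom.gadSum f c := by
            have h6 : ∀ i : Fin (Msize φ.flatten.length φ.length),
                (ZDom.gadSum f c - f (Sum.inr (c, i, false)) + (ZDom.gadSum f c -
                f (Sum.inr (c, i, true)))) = 2 * ZDom.gadSum f c -
                  ∑ b : Bool, f (Sum.inr (c, i, b)) := by
              intro i
              rw [Fintype.sum_bool]
              ring
            rw [Finset.sum_congr rfl fun i _ => h6 i, Finset.sum_sub_distrib]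
            change _ - ZDom.gadSum f c = _
            simp only [Finset.sum_const, Finset.card_univ, Fintype.card_fin, nsmul_eq_mul]
            ring
          rw [h5] at h3
          simp only [Finset.sum_const, Finset.card_univ, Fintype.card_fin, nsmul_eq_mul] at h3
          have hM' : (1 : ℤ) ≤ Msize φ.flatten.length φ.length := by exact_mod_cast hM
          by_contra hlt
          push Not at hlt
          have h7 : ZDom.gadSum f c ≤ 1 := by omega
          nlinarith
        rw [ZDom.sum_Vt] at hk
        have h8 : ∑ l : Fin φ.flatten.length × Bool, (f (Sum.inl (l, 0)) + f (Sum.inl (l, 1)) +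
            f (Sum.inl (l, 2))) = 0 := by
          refine Finset.sum_eq_zero fun l _ => ?_
          exact absurd l.1.isLt (by omega)
        rw [h8, zero_add] at hk
        have h9 : ∑ c : Fin φ.flatten.length ⊕ Fin φ.length, (2 : ℤ) ≤
            ∑ c : Fin φ.flatten.length ⊕ Fin φ.length,
              ∑ i : Fin (Msize φ.flatten.length φ.length), ∑ b : Bool, f (Sum.inr (c, i, b)) :=
          Finset.sum_le_sum fun c _ => hone c
        have h10 := h9.trans hk
        simp only [Finset.sum_const, Finset.card_univ, Fintype.card_sum, Fintype.card_fin,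
          nsmul_eq_mul, bound] at h10
        push_cast at h10
        rw [h0] at h10
        push_cast at h10
        have : (1 : ℤ) ≤ φ.length := by exact_mod_cast h2
        linarith
    · obtain ⟨σ, hσ⟩ := ZDom.backward (cls φ) (by unfold Msize; omega) h0 h
      refine ⟨fun v => if hv : v < φ.flatten.length then σ ⟨v, hv⟩ else false, fun c hc => ?_⟩
      obtain ⟨j, hj, rfl⟩ := List.getElem_of_mem hc
      obtain ⟨l, hl1, hl2⟩ := hσ ⟨j, hj⟩
      unfold cls at hl1
      obtain ⟨⟨b, v⟩, h3, h4⟩ := List.mem_map.1 hl1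
      simp only [Prod.swap_prod_mk, Prod.mk.injEq] at h4
      refine ⟨(b, v), h3, ?_, ?_⟩
      · rw [h4.1]
        exact l.1.isLt
      · simp only [h4.1, l.1.isLt, dif_pos]
        exact hl2.trans h4.2.symm

end ZD

end Pool.Agent.NPC.R671
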