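import Pool.Agent.H671R2.ZDomFinal
import Pool.Agent.H671R2.PolyAuto
namespace Pool.Agent.NPC.R671.ZD
open Pool.Agent.NPC

theorem membL_poly : Poly (fun p : List (List (Bool × ℕ)) × (ℕ × Bool) × (ℕ ⊕ ℕ) =>
    membL p.1 p.2.1 p.2.2) := by
  unfold membL
  apply Poly.sumElim (α := List (List (Bool × ℕ)) × (ℕ × Bool) × (ℕ ⊕ ℕ))
    (o := fun p => p.2.2)
    (g := fun p v => decide (p.2.1.1 = v)) (h := fun p j => decide ((p.2.1.2, p.2.1.1) ∈ p.1.getD j []))
  all_goals fun_prop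

theorem membL_poly' {α : Type} [TEnc α] {φ : α → List (List (Bool × ℕ))} {l : α → ℕ × Bool}
    {c : α → ℕ ⊕ ℕ} (h1 : Poly φ) (h2 : Poly l) (h3 : Poly c) :
    Poly (fun a => membL (φ a) (l a) (c a)) :=
  membL_poly.comp (h1.pair (h2.pair h3))

attribute [fun_prop] membL_poly'

theorem pLL : Poly (fun x : ((ℕ × Bool) × ℕ) × ((ℕ × Bool) × ℕ) =>
    decide (x.1.1 = x.2.1) && (decide (x.1.2 + 1 = x.2.2) || decide (x.2.2 + 1 = x.1.2))) := by
  fun_prop

theorem pLR : Poly (fun x : List (List (Bool × ℕ)) × ((ℕ × Bool) × ℕ) × ((ℕ ⊕ ℕ) × ℕ × Bool) =>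
    decide (x.2.1.2 = 0) && (decide (x.2.2.2.1 = 0) && (!x.2.2.2.2 && membL x.1 x.2.1.1 x.2.2.1))) := by
  fun_prop

theorem pRR : Poly (fun x : ((ℕ ⊕ ℕ) × ℕ × Bool) × ((ℕ ⊕ ℕ) × ℕ × Bool) =>
    decide (x.1.1 = x.2.1) && !decide (x.1.2.1 = x.2.2.1)) := by
  fun_prop

theorem adjL_poly : Poly (fun p : List (List (Bool × ℕ)) × Λ × Λ => adjL p.1 p.2.1 p.2.2) := by
  refine Poly.sumElim (α := List (List (Bool × ℕ)) × Λ × Λ) (o := fun p => p.2.1)
    (g := fun x p => Sum.elim
      (fun p' => decide (p.1 = p'.1) && (decide (p.2 + 1 = p'.2) || decide (p'.2 + 1 = p.2)))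
      (fun q => decide (p.2 = 0) && (decide (q.2.1 = 0) && (!q.2.2 && membL x.1 p.1 q.1))) x.2.2)
    (h := fun x q => Sum.elim
      (fun p => decide (p.2 = 0) && (decide (q.2.1 = 0) && (!q.2.2 && membL x.1 p.1 q.1)))
      (fun q' => decide (q.1 = q'.1) && !decide (q.2.1 = q'.2.1)) x.2.2) (by fun_prop) ?_ ?_
  · refine Poly.sumElim (α := (List (List (Bool × ℕ)) × Λ × Λ) × ((ℕ × Bool) × ℕ))
      (o := fun x => x.1.2.2)
      (g := fun x p' => decide (x.2.1 = p'.1) && (decide (x.2.2 + 1 = p'.2) ||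
        decide (p'.2 + 1 = x.2.2)))
      (h := fun x q => decide (x.2.2 = 0) && (decide (q.2.1 = 0) && (!q.2.2 &&
        membL x.1.1 x.2.1 q.1))) (by fun_prop) ?_ ?_
    · exact pLL.comp (Poly.pair (Poly.snd (Poly.fst Poly.id)) (Poly.snd Poly.id))
    · exact pLR.comp (Poly.pair (Poly.fst (Poly.fst (Poly.fst Poly.id)))
        (Poly.pair (Poly.snd (Poly.fst Poly.id)) (Poly.snd Poly.id)))
  · refine Poly.sumElim (α := (List (List (Bool × ℕ)) × Λ × Λ) × ((ℕ ⊕ ℕ) × ℕ × Bool))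
      (o := fun x => x.1.2.2)
      (g := fun x p => decide (p.2 = 0) && (decide (x.2.2.1 = 0) && (!x.2.2.2 &&
        membL x.1.1 p.1 x.2.1)))
      (h := fun x q' => decide (x.2.1 = q'.1) && !decide (x.2.2.1 = q'.2.1)) (by fun_prop) ?_ ?_
    · exact pLR.comp (Poly.pair (Poly.fst (Poly.fst (Poly.fst Poly.id)))
        (Poly.pair (Poly.snd Poly.id) (Poly.snd (Poly.fst Poly.id))))
    · exact pRR.comp (Poly.pair (Poly.snd (Poly.fst Poly.id)) (Poly.snd Poly.id))

attribute [local irreducible] adjL membL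

theorem adjL_poly' {α : Type} [TEnc α] {φ : α → List (List (Bool × ℕ))} {b c : α → Λ}
    (h1 : Poly φ) (h2 : Poly b) (h3 : Poly c) :
    Poly (fun a => adjL (φ a) (b a) (c a)) :=
  adjL_poly.comp (h1.pair (h2.pair h3))

theorem vlist_poly : Poly (fun φ : List (List (Bool × ℕ)) => vlist φ.flatten.length φ.length) := by
  have h1 : UPoly (fun φ : List (List (Bool × ℕ)) => φ.flatten.length) :=
    UPoly.length (by fun_prop)
  have h2 : UPoly (fun φ : List (List (Bool × ℕ)) => φ.length) :=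
    UPoly.length (by fun_prop)
  have h3 : UPoly (fun φ : List (List (Bool × ℕ)) => Msize φ.flatten.length φ.length) :=
    ((h2.mul h1).add h2).add (UPoly.const 2)
  have h4 := h1.range
  have h5 := h2.range
  have h6 := h3.range
  unfold vlist
  fun_prop

attribute [local irreducible] vlist

theorem adjL_poly3 : Poly (fun x : (List (List (Bool × ℕ)) × Λ) × Λ => adjL x.1.1 x.1.2 x.2) :=
  adjL_poly' (Poly.fst (Poly.fst Poly.id)) (Poly.snd (Poly.fst Poly.id)) (Poly.snd Poly.id)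

theorem row_poly : Poly (fun x : List (List (Bool × ℕ)) × Λ =>
    (vlist x.1.flatten.length x.1.length).map (fun w => adjL x.1 x.2 w)) :=
  Poly.map (l := fun x : List (List (Bool × ℕ)) × Λ =>
    vlist x.1.flatten.length x.1.length) (F := fun x w => adjL x.1 x.2 w)
    (vlist_poly.comp (Poly.fst Poly.id)) adjL_poly3

theorem adj_poly : Poly (fun φ : List (List (Bool × ℕ)) =>
    (vlist φ.flatten.length φ.length).map (fun u =>
      (vlist φ.flatten.length φ.length).map (fun w => adjL φ u w))) :=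
  Poly.map vlist_poly (F := fun φ u => (vlist φ.flatten.length φ.length).map
    (fun w => adjL φ u w)) row_poly

theorem bound_poly : Poly bound := by
  have : bound = fun φ => ((4 * φ.flatten.length + φ.length : ℕ) : ℤ) := by
    funext φ
    unfold bound
    push_cast
    rfl
  rw [this]
  fun_prop

end Pool.Agent.NPC.R671.ZD
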